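import Pool.Agent.H282R4.PK.Defs
import Pool.Agent.H282R3.SQ.Area
import Pool.Agent.H282R3.SQ.Contact
import Pool.Agent.H282R3.SQ.ClosePair

/-! Module Contact: the contact lemma for packings (helper467). -/

namespace H282R4.PK

open MeasureTheory
open scoped Real ENNReal
open H282R3.SQ (USq)

namespace Contact

open H282R3.SQ Set
open scoped Topology

/-! ### Frames -/

theorem exists_frame (d1 d2 : ℝ) : ∃ (v : ℝ × ℝ) (D : ℝ), v.1 ^ 2 + v.2 ^ 2 = 1 ∧ 0 ≤ D ∧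
    d1 = -(D * v.2) ∧ d2 = D * v.1 := by
  obtain ⟨v, hv, hp⟩ := exists_perp d1 d2
  have h1 : d1 = -((-v.2 * d1 + v.1 * d2) * v.2) := by
    linear_combination (-d1) * hv + v.1 * hp
  have h2 : d2 = (-v.2 * d1 + v.1 * d2) * v.1 := by
    linear_combination (-d2) * hv + v.2 * hp
  rcases le_total 0 (-v.2 * d1 + v.1 * d2) with h | h
  · exact ⟨v, _, hv, h, h1, h2⟩
  · refine ⟨(-v.1, -v.2), -(-v.2 * d1 + v.1 * d2), ?_, by linarith, ?_, ?_⟩
    · simp only; linarith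
    · simp only; linarith
    · simp only; linarith

/-- the moving point -/
def pt (c v : ℝ × ℝ) (s t : ℝ) : ℝ × ℝ := (c.1 - t * v.2 + s * v.1, c.2 + t * v.1 + s * v.2)

theorem continuous_pt (c v : ℝ × ℝ) (s : ℝ) : Continuous (pt c v s) := by
  unfold pt; fun_prop

theorem mem_O_of_near (A : USq) (z : ℝ × ℝ)
    (hz : (z.1 - A.p) ^ 2 + (z.2 - A.q) ^ 2 < 1 / 4) : z ∈ A.O := by
  have hX : (A.X z) ^ 2 + (A.Y z) ^ 2 = (z.1 - A.p) ^ 2 + (z.2 - A.q) ^ 2 := by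
    unfold USq.X USq.Y
    have := A.unit
    linear_combination ((z.1 - A.p) ^ 2 + (z.2 - A.q) ^ 2) * this
  constructor
  · apply abs_lt_of_sq_lt_sq _ (by norm_num)
    nlinarith [sq_nonneg (A.Y z)]
  · apply abs_lt_of_sq_lt_sq _ (by norm_num)
    nlinarith [sq_nonneg (A.X z)]

theorem C_subset_closure (Q : USq) : Q.C ⊆ closure Q.O := by
  intro z hz
  have hc : Continuous (fun ε : ℝ => (Q.p + (1 - ε) * (z.1 - Q.p), Q.q + (1 - ε) * (z.2 - Q.q))) := by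
    fun_prop
  have ht : Filter.Tendsto (fun ε : ℝ => (Q.p + (1 - ε) * (z.1 - Q.p),
      Q.q + (1 - ε) * (z.2 - Q.q))) (𝓝[>] 0) (𝓝 z) := by
    have h1 := (hc.tendsto 0).mono_left (nhdsWithin_le_nhds (s := Ioi (0 : ℝ)))
    have h2 : (Q.p + (1 - (0 : ℝ)) * (z.1 - Q.p), Q.q + (1 - (0 : ℝ)) * (z.2 - Q.q)) = z := by
      ext <;> simp
    rwa [h2] at h1
  refine mem_closure_of_tendsto ht ?_
  filter_upwards [Ioo_mem_nhdsGT (show (0 : ℝ) < 1 by norm_num)] with ε hε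
  have e1 : Q.X (Q.p + (1 - ε) * (z.1 - Q.p), Q.q + (1 - ε) * (z.2 - Q.q)) = (1 - ε) * Q.X z := by
    unfold USq.X; ring
  have e2 : Q.Y (Q.p + (1 - ε) * (z.1 - Q.p), Q.q + (1 - ε) * (z.2 - Q.q)) = (1 - ε) * Q.Y z := by
    unfold USq.Y; ring
  have h3 : |1 - ε| = 1 - ε := abs_of_pos (by linarith [hε.2])
  constructor
  · rw [e1, abs_mul, h3]
    have := hz.1
    nlinarith [hε.1, hε.2, abs_nonneg (Q.X z)]
  · rw [e2, abs_mul, h3]
    have := hz.2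
    nlinarith [hε.1, hε.2, abs_nonneg (Q.Y z)]

theorem O_disj_C {Q Q' : USq} (h : Disjoint Q.O Q'.O) {z : ℝ × ℝ} (hz : z ∈ Q.O) : z ∉ Q'.C :=
  fun h' => (Set.disjoint_left.1 (h.closure_right (isOpen_O Q)) hz) (C_subset_closure _ h')

/-! ### One line -/

theorem contact_line {ι : Type} [Fintype ι] (G : Set (ℝ × ℝ))
    (Fm : ι → USq) (S : Set (ℝ × ℝ)) (hS : Convex ℝ S)
    (hcov : ∀ x ∈ S, x ∈ G ∨ ∃ i, x ∈ (Fm i).C)
    (hdisj : ∀ i j, i ≠ j → Disjoint (Fm i).O (Fm j).O)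
    (T : Set ι) (A B : ι) (hA : A ∈ T) (hB : B ∉ T) (hAS : (Fm A).C ⊆ S) (hBS : (Fm B).C ⊆ S)
    (v : ℝ × ℝ) (D : ℝ) (hv : v.1 ^ 2 + v.2 ^ 2 = 1) (hD : 0 ≤ D)
    (h1 : (Fm B).p - (Fm A).p = -(D * v.2)) (h2 : (Fm B).q - (Fm A).q = D * v.1)
    (s : ℝ) (hs : |s| ≤ 1 / 4) :
    ∃ i ∈ T, ∃ j ∉ T, ∃ σ σ' : Fin 4, ∃ t1 t0 : ℝ, t1 ≤ t0 ∧
      (USq.rot^[(σ : ℕ)] (Fm i)).X (pt ((Fm A).p, (Fm A).q) v s t1) = 1 / 2 ∧
      (USq.rot^[(σ' : ℕ)] (Fm j)).X (pt ((Fm A).p, (Fm A).q) v s t0) = 1 / 2 ∧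
      ∀ t ∈ Ioo t1 t0, pt ((Fm A).p, (Fm A).q) v s t ∈ G := by
  classical
  have hs2 : s ^ 2 ≤ 1 / 16 := by
    rw [abs_le] at hs; nlinarith [hs.1, hs.2]
  set γ : ℝ → ℝ × ℝ := pt ((Fm A).p, (Fm A).q) v s with hγ
  have hcont : Continuous γ := continuous_pt _ _ _
  have h0O : γ 0 ∈ (Fm A).O := by
    apply mem_O_of_near
    have : ((γ 0).1 - (Fm A).p) ^ 2 + ((γ 0).2 - (Fm A).q) ^ 2 = s ^ 2 := by
      simp only [hγ, pt]; linear_combination s ^ 2 * hv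
    rw [this]; linarith
  have hDB : γ D ∈ (Fm B).C := by
    apply mem_C_of_near
    have : ((γ D).1 - (Fm B).p) ^ 2 + ((γ D).2 - (Fm B).q) ^ 2 = s ^ 2 := by
      have e1 : (Fm B).p = (Fm A).p - D * v.2 := by linarith
      have e2 : (Fm B).q = (Fm A).q + D * v.1 := by linarith
      simp only [hγ, pt, e1, e2]; linear_combination s ^ 2 * hv
    rw [this]; linarith
  have hγS : ∀ t ∈ Icc (0 : ℝ) D, γ t ∈ S := by
    intro t ht
    rcases hD.eq_or_lt with h | h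
    · have : t = 0 := le_antisymm (by rw [h]; exact ht.2) ht.1
      rw [this]
      exact hAS (O_subset_C _ h0O)
    · have : γ t = (1 - t / D) • γ 0 + (t / D) • γ D := by
        simp only [hγ, pt, Prod.smul_mk, Prod.mk_add_mk, smul_eq_mul]
        refine Prod.ext ?_ ?_ <;> simp only <;> field_simp <;> ring
      rw [this]
      exact hS (hAS (O_subset_C _ h0O)) (hBS hDB)
        (by rw [sub_nonneg, div_le_one h]; exact ht.2) (div_nonneg ht.1 hD) (by ring)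
  -- the set of bad parameters
  set U : Set ℝ := Icc (0 : ℝ) D ∩ ⋃ j ∈ {j : ι | j ∉ T}, γ ⁻¹' (Fm j).C with hU
  have hUclosed : IsClosed U := by
    apply isClosed_Icc.inter
    apply (Set.toFinite _).isClosed_biUnion
    intro j _
    exact (isClosed_C _).preimage hcont
  have hUne : U.Nonempty := by
    refine ⟨D, ⟨hD, le_refl _⟩, ?_⟩
    simp only [mem_iUnion, mem_preimage]
    exact ⟨B, hB, hDB⟩
  have hUbdd : BddBelow U := ⟨0, fun t ht => ht.1.1⟩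
  set t0 := sInf U with ht0
  have ht0U : t0 ∈ U := hUclosed.csInf_mem hUne hUbdd
  obtain ⟨ht01, hj⟩ := ht0U
  simp only [mem_iUnion, mem_preimage] at hj
  obtain ⟨j, hjT, hj⟩ := hj
  have hjT' : j ∉ T := hjT
  have ht0pos : 0 < t0 := by
    rcases lt_or_eq_of_le ht01.1 with h | h
    · exact h
    · exfalso
      rw [← h] at hj
      have hne : A ≠ j := fun e => hjT' (e ▸ hA)
      exact O_disj_C (hdisj A j hne) h0O hj
  have hnot : ∀ t ∈ Ico 0 t0, ∀ k ∉ T, γ t ∉ (Fm k).C := by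
    intro t ht k hk hmem
    have : t ∈ U := by
      refine ⟨⟨ht.1, le_trans ht.2.le ht01.2⟩, ?_⟩
      simp only [mem_iUnion, mem_preimage]
      exact ⟨k, hk, hmem⟩
    exact absurd (csInf_le hUbdd this) (not_le.2 ht.2)
  -- the last good parameter
  set V : Set ℝ := Icc (0 : ℝ) t0 ∩ ⋃ i ∈ T, γ ⁻¹' (Fm i).C with hV
  have hVclosed : IsClosed V := by
    apply isClosed_Icc.inter
    apply (Set.toFinite _).isClosed_biUnion
    intro i _
    exact (isClosed_C _).preimage hcont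
  have hVne : V.Nonempty := by
    refine ⟨0, ⟨le_refl _, ht0pos.le⟩, ?_⟩
    simp only [mem_iUnion, mem_preimage]
    exact ⟨A, hA, O_subset_C _ h0O⟩
  have hVbdd : BddAbove V := ⟨t0, fun t ht => ht.1.2⟩
  set t1 := sSup V with ht1
  have ht1V : t1 ∈ V := hVclosed.csSup_mem hVne hVbdd
  obtain ⟨ht11, hi⟩ := ht1V
  simp only [mem_iUnion, mem_preimage] at hi
  obtain ⟨i, hiT, hi⟩ := hi
  have hnot1 : ∀ t ∈ Ioc t1 t0, ∀ k ∈ T, γ t ∉ (Fm k).C := by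
    intro t ht k hk hmem
    have : t ∈ V := by
      refine ⟨⟨le_trans ht11.1 ht.1.le, ht.2⟩, ?_⟩
      simp only [mem_iUnion, mem_preimage]
      exact ⟨k, hk, hmem⟩
    exact absurd (le_csSup hVbdd this) (not_le.2 ht.1)
  have hgap : ∀ t ∈ Ioo t1 t0, γ t ∈ G := by
    intro t ht
    rcases hcov (γ t) (hγS t ⟨le_trans ht11.1 ht.1.le, le_trans ht.2.le ht01.2⟩) with h | ⟨k, hk⟩
    · exact h
    · exfalso
      by_cases hkT : k ∈ T
      · exact hnot1 t ⟨ht.1, ht.2.le⟩ k hkT hk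
      · exact hnot t ⟨le_trans ht11.1 ht.1.le, ht.2⟩ k hkT hk
  have hiO : γ t1 ∉ (Fm i).O := by
    intro hO
    rcases ht11.2.eq_or_lt with h | h
    · have hne : i ≠ j := fun e => hjT' (e ▸ hiT)
      rw [h] at hO
      exact O_disj_C (hdisj i j hne) hO hj
    · have hclos : t1 ∈ closure (Ioo t1 t0) := by
        rw [closure_Ioo h.ne]
        exact ⟨le_refl _, h.le⟩
      have hopen : IsOpen (γ ⁻¹' (Fm i).O) := (isOpen_O _).preimage hcont
      obtain ⟨t, ht, ht'⟩ := mem_closure_iff.1 hclos _ hopen hO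
      exact hnot1 t ⟨ht'.1, ht'.2.le⟩ i hiT (O_subset_C _ ht)
  have hjO : γ t0 ∉ (Fm j).O := by
    intro hO
    have hclos : t0 ∈ closure (Ico 0 t0) := by
      rw [closure_Ico ht0pos.ne]
      exact ⟨ht0pos.le, le_refl _⟩
    have hopen : IsOpen (γ ⁻¹' (Fm j).O) := (isOpen_O _).preimage hcont
    obtain ⟨t, ht, ht'⟩ := mem_closure_iff.1 hclos _ hopen hO
    exact hnot t ht' j hjT' (O_subset_C _ ht)
  obtain ⟨σ, hσ⟩ := exists_side (Fm i) (γ t1) hi hiO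
  obtain ⟨σ', hσ'⟩ := exists_side (Fm j) (γ t0) hj hjO
  exact ⟨i, hiT, j, hjT', σ, σ', t1, t0, ht11.2, hσ, hσ', hgap⟩

/-! ### Averaging -/

theorem fubini (c v : ℝ × ℝ) (hv : v.1 ^ 2 + v.2 ^ 2 = 1) (G : Set (ℝ × ℝ))
    (hG : MeasurableSet G) :
    Measurable (fun s : ℝ => volume {t : ℝ | pt c v s t ∈ G}) ∧
      ∫⁻ s, volume {t : ℝ | pt c v s t ∈ G} = volume G := by
  have hpt : Continuous (fun p : ℝ × ℝ => pt c v p.1 p.2) := by
    unfold pt; fun_prop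
  have hm : MeasurableSet {p : ℝ × ℝ | pt c v p.1 p.2 ∈ G} := hpt.measurable hG
  refine ⟨measurable_measure_prodMk_left hm, ?_⟩
  set L := linM v.1 (-v.2) v.2 v.1 with hL
  have hdet : LinearMap.det L = 1 := by
    rw [hL, linM_det]; linarith
  have h1 : {p : ℝ × ℝ | pt c v p.1 p.2 ∈ G} = L ⁻¹' ((fun w => w + c) ⁻¹' G) := by
    ext p
    simp only [Set.mem_ofPred_eq, Set.mem_preimage, hL, linM_apply]
    have : pt c v p.1 p.2 = (v.1 * p.1 + -v.2 * p.2, v.2 * p.1 + v.1 * p.2) + c := by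
      unfold pt
      refine Prod.ext ?_ ?_ <;> simp only [Prod.fst_add, Prod.snd_add] <;> ring
    rw [this]
  have h2 : volume {p : ℝ × ℝ | pt c v p.1 p.2 ∈ G} = volume G := by
    rw [h1, Measure.addHaar_preimage_linearMap volume (by rw [hdet]; exact one_ne_zero), hdet,
      measure_preimage_add_right]
    simp
  rw [← h2, Measure.volume_eq_prod, Measure.prod_apply hm]
  rfl

theorem exists_slice (f : ℝ → ℝ≥0∞) (hf : Measurable f) (ω : ℝ) (hω : 0 ≤ ω)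
    (hfω : ∫⁻ s, f s ≤ ENNReal.ofReal ω) (a l : ℝ) (hl : 0 < l) :
    ∃ s ∈ Icc a (a + l), f s ≤ ENNReal.ofReal (ω / l) := by
  have hvol : volume (Icc a (a + l)) = ENNReal.ofReal l := by
    rw [Real.volume_Icc]; congr 1; ring
  obtain ⟨s, hs, h⟩ := exists_le_setLAverage (μ := volume) (s := Icc a (a + l)) (f := f)
    (by rw [hvol]; simpa using hl) (by rw [hvol]; exact ENNReal.ofReal_ne_top) hf.aemeasurable
  refine ⟨s, hs, h.trans ?_⟩
  rw [setLAverage_eq, hvol, ENNReal.ofReal_div_of_pos hl]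
  refine ENNReal.div_le_div_right ?_ _
  exact (setLIntegral_le_lintegral _ _).trans hfω

/-! ### Tilts -/

theorem rho_rot_left (Q Q' : USq) : rho Q.rot Q' = rho Q Q' := by
  unfold rho
  simp only [USq.rot]
  rw [← abs_neg]
  congr 1
  ring

theorem rho_rot_right (Q Q' : USq) : rho Q Q'.rot = rho Q Q' := by
  unfold rho
  simp only [USq.rot]
  rw [← abs_neg]
  congr 1
  ring

theorem rho_iter (Q Q' : USq) (k l : ℕ) : rho (USq.rot^[k] Q) (USq.rot^[l] Q') = rho Q Q' := by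
  induction k with
  | succ k ih => rw [Function.iterate_succ', Function.comp_apply, rho_rot_left, ih]
  | zero =>
    induction l with
    | succ l ih => rw [Function.iterate_succ' _ l, Function.comp_apply, rho_rot_right, ih]
    | zero => rfl

theorem tilt (Q Q' : USq) (c v : ℝ × ℝ) (hv : v.1 ^ 2 + v.2 ^ 2 = 1) (s s' t0 t1 t0' t1' l Δ : ℝ)
    (hl : 0 < l) (hs : l ≤ |s - s'|) (h1 : Q.X (pt c v s t1) = 1 / 2)
    (h1' : Q.X (pt c v s' t1') = 1 / 2) (h0 : Q'.X (pt c v s t0) = 1 / 2)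
    (h0' : Q'.X (pt c v s' t0') = 1 / 2) (ht : t1 ≤ t0) (ht' : t1' ≤ t0') (hΔ : t0 - t1 ≤ Δ)
    (hΔ' : t0' - t1' ≤ Δ) : rho Q Q' ≤ Δ / l := by
  have hQ := Q.unit
  have hQ' := Q'.unit
  obtain ⟨v1, v2⟩ := v
  simp only at hv
  unfold USq.X pt at h1 h1' h0 h0'
  simp only at h1 h1' h0 h0'
  set μ := Q.a * Q'.b - Q.b * Q'.a with hμ
  -- the displacement between the two points
  obtain ⟨a1, ha1⟩ : ∃ a1, a1 = -(t1 - t1') * v2 + (s - s') * v1 := ⟨_, rfl⟩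
  obtain ⟨a2, ha2⟩ : ∃ a2, a2 = (t1 - t1') * v1 + (s - s') * v2 := ⟨_, rfl⟩
  obtain ⟨k, hk⟩ : ∃ k, k = (t0 - t1) - (t0' - t1') := ⟨_, rfl⟩
  have e1 : Q.a * a1 + Q.b * a2 = 0 := by rw [ha1, ha2]; linarith
  have e2 : Q'.a * (a1 - k * v2) + Q'.b * (a2 + k * v1) = 0 := by
    rw [ha1, ha2, hk]; linarith
  obtain ⟨α, hα⟩ : ∃ α, α = -Q.b * a1 + Q.a * a2 := ⟨_, rfl⟩
  have e3 : a1 = -Q.b * α := by rw [hα]; linear_combination (-a1) * hQ + Q.a * e1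
  have e4 : a2 = Q.a * α := by rw [hα]; linear_combination (-a2) * hQ + Q.b * e1
  have e5 : α * μ = k * (Q'.a * v2 - Q'.b * v1) := by
    rw [e3, e4] at e2
    rw [hμ]
    linear_combination e2
  have hα2 : l ≤ |α| := by
    refine hs.trans (sq_le_sq.1 ?_)
    have h3 : α ^ 2 = a1 ^ 2 + a2 ^ 2 := by
      rw [e3, e4]
      linear_combination (-α ^ 2) * hQ
    have h4 : s - s' = v1 * a1 + v2 * a2 := by
      rw [ha1, ha2]
      linear_combination (-(s - s')) * hv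
    rw [h3, h4]
    have : (v1 ^ 2 + v2 ^ 2) * (a1 ^ 2 + a2 ^ 2) =
      (v1 * a1 + v2 * a2) ^ 2 + (v1 * a2 - v2 * a1) ^ 2 := by ring
    rw [hv, one_mul] at this
    nlinarith [sq_nonneg (v1 * a2 - v2 * a1)]
  have hk2 : |k| ≤ Δ := by
    rw [abs_le, hk]
    constructor <;> linarith
  have hw : |Q'.a * v2 - Q'.b * v1| ≤ 1 := by
    apply abs_le_of_sq_le_sq _ (by norm_num)
    nlinarith [sq_nonneg (Q'.a * v1 + Q'.b * v2)]
  have hμ2 : |α| * |μ| ≤ Δ := by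
    rw [← abs_mul, e5, abs_mul]
    calc |k| * |Q'.a * v2 - Q'.b * v1| ≤ Δ * 1 :=
        mul_le_mul hk2 hw (abs_nonneg _) ((abs_nonneg _).trans hk2)
      _ = Δ := mul_one _
  have hκ : |Q.a * Q'.a + Q.b * Q'.b| ≤ 1 := by
    apply abs_le_of_sq_le_sq _ (by norm_num)
    nlinarith [sq_nonneg (Q.a * Q'.b - Q.b * Q'.a)]
  have h5 : rho Q Q' ≤ |μ| := by
    unfold rho
    rw [abs_mul]
    calc _ ≤ 1 * |Q.a * Q'.b - Q.b * Q'.a| :=
        mul_le_mul_of_nonneg_right hκ (abs_nonneg _)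
      _ = |μ| := by rw [one_mul]
  rw [le_div_iff₀ hl]
  calc rho Q Q' * l ≤ |μ| * |α| := mul_le_mul h5 hα2 hl.le (abs_nonneg _)
    _ ≤ Δ := by rw [mul_comm]; exact hμ2

end Contact

open Contact in
/-- T2: contact lemma for packings. -/
theorem contact_pk {ι : Type} [Fintype ι] (G : Set (ℝ × ℝ)) (hG : MeasurableSet G) (ω : ℝ)
    (hω : 0 ≤ ω) (hGω : volume G ≤ ENNReal.ofReal ω) (M : ℕ) (hM : Fintype.card ι ≤ M)
    (Fm : ι → USq) (S : Set (ℝ × ℝ)) (hS : Convex ℝ S)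
    (hcov : ∀ x ∈ S, x ∈ G ∨ ∃ i, x ∈ (Fm i).C)
    (hdisj : ∀ i j, i ≠ j → Disjoint (Fm i).O (Fm j).O)
    (T : Set ι) (A B : ι) (hA : A ∈ T) (hB : B ∉ T) (hAS : (Fm A).C ⊆ S) (hBS : (Fm B).C ⊆ S) :
    ∃ i ∈ T, ∃ j ∉ T, rho (Fm i) (Fm j) ≤ 2 * (64 * (M : ℝ) ^ 2 + 2) ^ 2 * ω := by
  obtain ⟨v, D, hv, hD, h1, h2⟩ := exists_frame ((Fm B).p - (Fm A).p) ((Fm B).q - (Fm A).q)
  set c : ℝ × ℝ := ((Fm A).p, (Fm A).q) with hc
  obtain ⟨hmeas, hint⟩ := fubini c v hv G hG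
  have hpos : (0 : ℝ) < 64 * (M : ℝ) ^ 2 + 2 := by positivity
  obtain ⟨l, hl⟩ : ∃ l : ℝ, l = 1 / (64 * (M : ℝ) ^ 2 + 2) := ⟨_, rfl⟩
  have hl0 : 0 < l := by rw [hl]; positivity
  have hl1 : (64 * (M : ℝ) ^ 2 + 2) * l = 1 := by rw [hl]; field_simp
  have hsl : ∀ m : Fin (16 * M ^ 2 + 1), ∃ s ∈ Set.Icc (-1 / 4 + 2 * (m : ℕ) * l)
      (-1 / 4 + 2 * (m : ℕ) * l + l), volume {t : ℝ | pt c v s t ∈ G} ≤ ENNReal.ofReal (ω / l) :=
    fun m => exists_slice _ hmeas ω hω (by rw [hint]; exact hGω) _ l hl0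
  choose s hs hsv using hsl
  have hs4 : ∀ m, |s m| ≤ 1 / 4 := by
    intro m
    have hm1 : ((m : ℕ) : ℝ) ≤ ((16 * M ^ 2 : ℕ) : ℝ) := by
      exact_mod_cast Nat.lt_succ_iff.mp m.2
    push_cast at hm1
    have h3 := hs m
    have h4 : ((m : ℕ) : ℝ) * l ≤ 16 * (M : ℝ) ^ 2 * l := mul_le_mul_of_nonneg_right hm1 hl0.le
    have h5 : 0 ≤ ((m : ℕ) : ℝ) * l := by positivity
    rw [abs_le]
    constructor
    · linarith [h3.1]
    · linarith [h3.2]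
  have key := fun m => contact_line G Fm S hS hcov hdisj T A B hA hB hAS hBS v D hv hD h1 h2
    (s m) (hs4 m)
  choose i hi j hj σ σ' t1 t0 ht hX1 hX0 hgap using key
  have hlen : ∀ m, t0 m - t1 m ≤ ω / l := by
    intro m
    have h3 : ENNReal.ofReal (t0 m - t1 m) ≤ ENNReal.ofReal (ω / l) := by
      rw [← Real.volume_Ioo]
      exact (measure_mono (fun t htm => hgap m t htm)).trans (hsv m)
    rwa [ENNReal.ofReal_le_ofReal_iff (by positivity)] at h3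
  have hcard : Fintype.card ((ι × Fin 4) × (ι × Fin 4)) < Fintype.card (Fin (16 * M ^ 2 + 1)) := by
    simp only [Fintype.card_prod, Fintype.card_fin]
    have := Nat.mul_le_mul hM hM
    nlinarith
  obtain ⟨m, m', hne, heq⟩ := Fintype.exists_ne_map_eq_of_card_lt
    (fun m => ((i m, σ m), (j m, σ' m))) hcard
  simp only [Prod.mk.injEq] at heq
  obtain ⟨⟨e1, e2⟩, e3, e4⟩ := heq
  have hsep : l ≤ |s m - s m'| := by
    have a1 := hs m
    have a2 := hs m'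
    have hne' : (m : ℕ) ≠ (m' : ℕ) := fun h => hne (Fin.ext h)
    rcases Nat.lt_or_gt_of_ne hne' with h | h
    · have h3 : ((m : ℕ) : ℝ) + 1 ≤ ((m' : ℕ) : ℝ) := by exact_mod_cast h
      have h4 := mul_le_mul_of_nonneg_right h3 hl0.le
      rw [abs_sub_comm]
      refine le_trans ?_ (le_abs_self _)
      linarith [a1.2, a2.1]
    · have h3 : ((m' : ℕ) : ℝ) + 1 ≤ ((m : ℕ) : ℝ) := by exact_mod_cast h
      have h4 := mul_le_mul_of_nonneg_right h3 hl0.le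
      refine le_trans ?_ (le_abs_self _)
      linarith [a2.2, a1.1]
  refine ⟨i m, hi m, j m, hj m, ?_⟩
  rw [← rho_iter _ _ (σ m) (σ' m)]
  have h1' := hX1 m'
  have h0' := hX0 m'
  rw [← e1, ← e2] at h1'
  rw [← e3, ← e4] at h0'
  refine (tilt _ _ c v hv (s m) (s m') (t0 m) (t1 m) (t0 m') (t1 m') l (ω / l) hl0 hsep (hX1 m)
    h1' (hX0 m) h0' (ht m) (ht m') (hlen m) (hlen m')).trans ?_
  have h6 : ω / l / l = (64 * (M : ℝ) ^ 2 + 2) ^ 2 * ω := by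
    rw [hl]; field_simp
  rw [h6]
  nlinarith [mul_nonneg (sq_nonneg (64 * (M : ℝ) ^ 2 + 2)) hω]

end H282R4.PK
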