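import Pool.Agent.H282R4.PK.Defs
import Pool.Agent.H282R4.PK.Contact

/-! Task 05 (helper446): `rho` is a pseudometric; clusters. -/

namespace H282R4.PK

open MeasureTheory
open scoped Real ENNReal
open H282R3.SQ (USq)

/-- T3 -/
theorem rho_comm (A B : USq) : rho A B = rho B A := by
  unfold rho
  rw [← abs_neg]
  congr 1
  ring

/-- T3 -/
theorem rho_self (A : USq) : rho A A = 0 := by
  unfold rho
  rw [show A.a * A.b - A.b * A.a = 0 by ring, mul_zero, abs_zero]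

/-- T3 -/
theorem rho_tri (A B C : USq) : rho A C ≤ rho A B + rho B C := by
  have hA := A.unit
  have hB := B.unit
  have hC := C.unit
  set κ1 := A.a * B.a + A.b * B.b with hκ1
  set μ1 := A.a * B.b - A.b * B.a with hμ1
  set κ2 := B.a * C.a + B.b * C.b with hκ2
  set μ2 := B.a * C.b - B.b * C.a with hμ2
  have h1 : κ1 ^ 2 + μ1 ^ 2 = 1 := by
    have : κ1 ^ 2 + μ1 ^ 2 = (A.a ^ 2 + A.b ^ 2) * (B.a ^ 2 + B.b ^ 2) := by
      rw [hκ1, hμ1]; ring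
    rw [this, hA, hB, one_mul]
  have h2 : κ2 ^ 2 + μ2 ^ 2 = 1 := by
    have : κ2 ^ 2 + μ2 ^ 2 = (B.a ^ 2 + B.b ^ 2) * (C.a ^ 2 + C.b ^ 2) := by
      rw [hκ2, hμ2]; ring
    rw [this, hB, hC, one_mul]
  have hκ : A.a * C.a + A.b * C.b = κ1 * κ2 - μ1 * μ2 := by
    have : κ1 * κ2 - μ1 * μ2 = (A.a * C.a + A.b * C.b) * (B.a ^ 2 + B.b ^ 2) := by
      rw [hκ1, hμ1, hκ2, hμ2]; ring
    rw [this, hB, mul_one]
  have hμ : A.a * C.b - A.b * C.a = μ1 * κ2 + κ1 * μ2 := by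
    have : μ1 * κ2 + κ1 * μ2 = (A.a * C.b - A.b * C.a) * (B.a ^ 2 + B.b ^ 2) := by
      rw [hκ1, hμ1, hκ2, hμ2]; ring
    rw [this, hB, mul_one]
  have e : rho A C = |κ1 * μ1 * (κ2 ^ 2 - μ2 ^ 2) + κ2 * μ2 * (κ1 ^ 2 - μ1 ^ 2)| := by
    unfold rho
    rw [hκ, hμ]
    congr 1
    ring
  have b1 : |κ1 ^ 2 - μ1 ^ 2| ≤ 1 := abs_le.mpr ⟨by nlinarith [sq_nonneg κ1], by nlinarith [sq_nonneg μ1]⟩
  have b2 : |κ2 ^ 2 - μ2 ^ 2| ≤ 1 := abs_le.mpr ⟨by nlinarith [sq_nonneg κ2], by nlinarith [sq_nonneg μ2]⟩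
  rw [e]
  refine (abs_add_le _ _).trans ?_
  rw [abs_mul, abs_mul (κ2 * μ2)]
  have r1 : rho A B = |κ1 * μ1| := rfl
  have r2 : rho B C = |κ2 * μ2| := rfl
  rw [r1, r2]
  exact add_le_add (mul_le_of_le_one_right (abs_nonneg _) b2)
    (mul_le_of_le_one_right (abs_nonneg _) b1)

/-- T3 (uses contact_pk) -/
theorem cluster_pk {ι : Type} [Fintype ι] (G : Set (ℝ × ℝ)) (hG : MeasurableSet G) (ω : ℝ)
    (hω : 0 ≤ ω) (hGω : volume G ≤ ENNReal.ofReal ω) (M : ℕ) (hM : Fintype.card ι ≤ M)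
    (Fm : ι → USq) (S : Set (ℝ × ℝ)) (hS : Convex ℝ S)
    (hcov : ∀ x ∈ S, x ∈ G ∨ ∃ i, x ∈ (Fm i).C)
    (hdisj : ∀ i j, i ≠ j → Disjoint (Fm i).O (Fm j).O)
    (A B : ι) (hAS : (Fm A).C ⊆ S) (hBS : (Fm B).C ⊆ S) :
    rho (Fm A) (Fm B) ≤ M * (2 * (64 * (M : ℝ) ^ 2 + 2) ^ 2 * ω) := by
  classical
  set δ : ℝ := 2 * (64 * (M : ℝ) ^ 2 + 2) ^ 2 * ω with hδ
  have hδ0 : 0 ≤ δ := by positivity
  let Γ : SimpleGraph ι :=
    { Adj := fun i j => i ≠ j ∧ rho (Fm i) (Fm j) ≤ δ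
      symm := ⟨fun i j h => ⟨h.1.symm, by rw [rho_comm]; exact h.2⟩⟩
      loopless := ⟨fun i h => h.1 rfl⟩ }
  have hreach : Γ.Reachable A B := by
    by_contra hne
    obtain ⟨i, hi, j, hj, hij⟩ := contact_pk G hG ω hω hGω M hM Fm S hS hcov hdisj
      {i | Γ.Reachable A i} A B (SimpleGraph.Reachable.refl A) hne hAS hBS
    apply hj
    have hne' : i ≠ j := by
      rintro rfl
      exact hj hi
    have : Γ.Adj i j := ⟨hne', hij⟩
    exact SimpleGraph.Reachable.trans hi this.reachable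
  have hwalk : ∀ (u v : ι) (p : Γ.Walk u v), rho (Fm u) (Fm v) ≤ p.length * δ := by
    intro u v p
    induction p with
    | nil => simp [rho_self]
    | @cons u v w h p ih =>
      rw [SimpleGraph.Walk.length_cons]
      push_cast
      have := rho_tri (Fm u) (Fm v) (Fm w)
      have h2 := h.2
      linarith
  obtain ⟨p, hp⟩ := hreach.exists_isPath
  have hlen : p.length < Fintype.card ι := hp.length_lt
  have h1 := hwalk A B p
  refine h1.trans (mul_le_mul_of_nonneg_right ?_ hδ0)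
  exact_mod_cast (hlen.le.trans hM)

end H282R4.PK
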