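import Pool.Agent.H282R4.PK.Defs

/-!
Project PK, module Geo: the mirror image of a packing, diameter of a unit square.
-/

namespace H282R4.PK

open MeasureTheory
open scoped Real ENNReal
open H282R3.SQ (USq)

namespace Geo

theorem X_tr (Q : USq) (z : ℝ × ℝ) : (tr Q).X z = Q.Y (z.2, z.1) := by
  simp only [USq.X, USq.Y, tr]
  ring

theorem Y_tr (Q : USq) (z : ℝ × ℝ) : (tr Q).Y z = Q.X (z.2, z.1) := by
  simp only [USq.X, USq.Y, tr]
  ring

theorem mem_box_swap (n : ℕ) (z : ℝ × ℝ) : z ∈ box n ↔ (z.2, z.1) ∈ box n := by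
  simp only [box, Set.mem_setOf_eq]
  tauto

end Geo

/-- T1a -/
theorem mem_tr_C (Q : USq) (z : ℝ × ℝ) : z ∈ (tr Q).C ↔ (z.2, z.1) ∈ Q.C := by
  simp only [USq.C, Set.mem_setOf_eq, Geo.X_tr, Geo.Y_tr]
  tauto

/-- T1a -/
theorem mem_tr_O (Q : USq) (z : ℝ × ℝ) : z ∈ (tr Q).O ↔ (z.2, z.1) ∈ Q.O := by
  simp only [USq.O, Set.mem_setOf_eq, Geo.X_tr, Geo.Y_tr]
  tauto

namespace Geo

theorem Gap_tr {ι : Type} (Q : ι → USq) :
    Gap (fun i => tr (Q i)) = Prod.swap ⁻¹' (Gap Q) := by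
  ext z
  simp only [Gap, Set.mem_compl_iff, Set.mem_iUnion, Set.mem_preimage, mem_tr_C]
  rfl

theorem volume_Gap_tr {ι : Type} (Q : ι → USq) :
    volume (Gap (fun i => tr (Q i))) = volume (Gap Q) := by
  rw [Gap_tr]
  have h : MeasurePreserving (MeasurableEquiv.prodComm : ℝ × ℝ ≃ᵐ ℝ × ℝ) volume volume := by
    have := Measure.measurePreserving_swap (μ := (volume : Measure ℝ)) (ν := (volume : Measure ℝ))
    exact this
  exact h.measure_preimage_equiv (Gap Q)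

end Geo

/-- T1a -/
theorem PP.trans {n : ℕ} {ι : Type} {Q : ι → USq} {W : ℝ} (h : PP n Q W) :
    PP n (fun i => tr (Q i)) W where
  norm i := by
    have := h.norm i
    show |-(Q i).b| ≤ (Q i).a
    rwa [abs_neg]
  disj i j hij := by
    rw [Set.disjoint_left]
    intro z hz hz'
    exact Set.disjoint_left.1 (h.disj i j hij) ((mem_tr_O _ _).1 hz) ((mem_tr_O _ _).1 hz')
  W_nonneg := h.W_nonneg
  gap := by
    rw [Geo.volume_Gap_tr]
    exact h.gap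
  out_cov z hz := by
    rw [Geo.mem_box_swap] at hz
    obtain ⟨i, hi⟩ := h.out_cov _ hz
    exact ⟨i, (mem_tr_C _ _).2 hi⟩
  out_ax i hi := by
    show -(Q i).b = 0
    rw [neg_eq_zero]
    apply h.out_ax i
    intro hs
    apply hi
    intro z hz
    rw [Geo.mem_box_swap]
    exact hs ((mem_tr_C _ _).1 hz)
  bottom i z hz h1 h2 h3 := h.left i (z.2, z.1) ((mem_tr_C _ _).1 hz) h1 h2 h3
  top i z hz h1 h2 h3 := h.right i (z.2, z.1) ((mem_tr_C _ _).1 hz) h1 h2 h3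
  left i z hz h1 h2 h3 := h.bottom i (z.2, z.1) ((mem_tr_C _ _).1 hz) h1 h2 h3
  right i z hz h1 h2 h3 := h.top i (z.2, z.1) ((mem_tr_C _ _).1 hz) h1 h2 h3

/-- T1a: two points of a unit square. -/
theorem diam (Q : USq) (x y : ℝ × ℝ) (hx : x ∈ Q.C) (hy : y ∈ Q.C) :
    |x.1 - y.1| < 3 / 2 ∧ |x.2 - y.2| < 3 / 2 := by
  have hu := Q.unit
  simp only [USq.C, Set.mem_setOf_eq] at hx hy
  obtain ⟨hx1, hx2⟩ := hx
  obtain ⟨hy1, hy2⟩ := hy
  rw [abs_le] at hx1 hx2 hy1 hy2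
  have hX : |Q.X x - Q.X y| ≤ 1 := by rw [abs_le]; constructor <;> linarith
  have hY : |Q.Y x - Q.Y y| ≤ 1 := by rw [abs_le]; constructor <;> linarith
  have e : (Q.X x - Q.X y) ^ 2 + (Q.Y x - Q.Y y) ^ 2 = (x.1 - y.1) ^ 2 + (x.2 - y.2) ^ 2 := by
    have : (Q.X x - Q.X y) ^ 2 + (Q.Y x - Q.Y y) ^ 2 =
        (Q.a ^ 2 + Q.b ^ 2) * ((x.1 - y.1) ^ 2 + (x.2 - y.2) ^ 2) := by
      simp only [USq.X, USq.Y]
      ring
    rw [this, hu, one_mul]
  have hX2 : (Q.X x - Q.X y) ^ 2 ≤ 1 := by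
    rw [← sq_abs]
    nlinarith [abs_nonneg (Q.X x - Q.X y)]
  have hY2 : (Q.Y x - Q.Y y) ^ 2 ≤ 1 := by
    rw [← sq_abs]
    nlinarith [abs_nonneg (Q.Y x - Q.Y y)]
  constructor
  · apply abs_lt_of_sq_lt_sq _ (by norm_num)
    nlinarith [sq_nonneg (x.2 - y.2)]
  · apply abs_lt_of_sq_lt_sq _ (by norm_num)
    nlinarith [sq_nonneg (x.1 - y.1)]

end H282R4.PK
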