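import Pool.Agent.H282R4.PK.Defs
import Pool.Agent.H282R3.SQ.Area
import Pool.Agent.H282R3.SQ.Contact
import Pool.Agent.H282R3.SQ.Waste
import Pool.Agent.H282R4.PK.Geo

/-! Module Fin: local finiteness of a packing, the gap is measurable. -/

namespace H282R4.PK

open MeasureTheory
open scoped Real ENNReal
open H282R3.SQ (USq)

namespace Fin

theorem volume_O (Q : USq) : volume Q.O = 1 := by
  set L := H282R3.SQ.linM Q.a Q.b (-Q.b) Q.a with hL
  have hdet : LinearMap.det L = 1 := by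
    rw [hL, H282R3.SQ.linM_det]; linarith [Q.unit]
  set v : ℝ × ℝ := L (Q.p, Q.q) with hv
  have hC : Q.O = L ⁻¹' ((fun w => w - v) ⁻¹' (Set.Ioo (-(1 / 2) : ℝ) (1 / 2) ×ˢ
      Set.Ioo (-(1 / 2) : ℝ) (1 / 2))) := by
    ext z
    simp only [USq.O, Set.mem_ofPred_eq, Set.mem_preimage, Set.mem_prod, Set.mem_Ioo, USq.X, USq.Y,
      hv, hL, H282R3.SQ.linM_apply, Prod.fst_sub, Prod.snd_sub, abs_lt]
    constructor
    · rintro ⟨⟨h1, h2⟩, h3, h4⟩
      refine ⟨⟨?_, ?_⟩, ?_, ?_⟩ <;> linarith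
    · rintro ⟨⟨h1, h2⟩, h3, h4⟩
      refine ⟨⟨?_, ?_⟩, ?_, ?_⟩ <;> linarith
  rw [hC, Measure.addHaar_preimage_linearMap volume (by rw [hdet]; exact one_ne_zero), hdet]
  have : (fun w : ℝ × ℝ => w - v) ⁻¹' (Set.Ioo (-(1 / 2) : ℝ) (1 / 2) ×ˢ
      Set.Ioo (-(1 / 2) : ℝ) (1 / 2)) = (fun w : ℝ × ℝ => w + (-v)) ⁻¹'
      (Set.Ioo (-(1 / 2) : ℝ) (1 / 2) ×ˢ Set.Ioo (-(1 / 2) : ℝ) (1 / 2)) := by
    ext w; simp [sub_eq_add_neg]
  rw [this, measure_preimage_add_right, Measure.volume_eq_prod, Measure.prod_prod,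
    Real.volume_Ioo]
  norm_num

theorem card_le {n : ℕ} {ι : Type} {Q : ι → USq} {W : ℝ} (h : PP n Q W) (R : Set (ℝ × ℝ))
    (I : Finset ι) (hI : ∀ i ∈ I, (Q i).C ⊆ R) : (I.card : ℝ≥0∞) ≤ volume R := by
  have h1 : volume (⋃ i ∈ I, (Q i).O) = ∑ i ∈ I, volume (Q i).O := by
    apply measure_biUnion_finset
    · intro i _ j _ hij
      exact h.disj i j hij
    · intro i _
      exact (H282R3.SQ.isOpen_O _).measurableSet
  have h2 : ∑ i ∈ I, volume (Q i).O = (I.card : ℝ≥0∞) := by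
    rw [Finset.sum_congr rfl fun i _ => volume_O (Q i)]
    simp
  rw [← h2, ← h1]
  apply measure_mono
  intro z hz
  simp only [Set.mem_iUnion] at hz
  obtain ⟨i, hi, hz⟩ := hz
  exact hI i hi (H282R3.SQ.O_subset_C _ hz)

theorem volume_Rg (c : ℤ × ℤ) : volume (Rg c) = 121 := by
  have h : Rg c = Set.Ico ((c.1 : ℝ) - 5) (c.1 + 6) ×ˢ Set.Ico ((c.2 : ℝ) - 5) (c.2 + 6) := by
    ext z
    simp only [Rg, Set.mem_ofPred_eq, Set.mem_prod, Set.mem_Ico]
    tauto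
  rw [h, Measure.volume_eq_prod, Measure.prod_prod, Real.volume_Ico, Real.volume_Ico]
  have e1 : (c.1 : ℝ) + 6 - (c.1 - 5) = 11 := by ring
  have e2 : (c.2 : ℝ) + 6 - (c.2 - 5) = 11 := by ring
  rw [e1, e2, ← ENNReal.ofReal_mul (by norm_num)]
  norm_num

end Fin

/-- T1a: local finiteness (area). -/
theorem fin_meet {n : ℕ} {ι : Type} {Q : ι → USq} {W : ℝ} (h : PP n Q W) (B : Set (ℝ × ℝ))
    (hB : Bornology.IsBounded B) : {i | ((Q i).C ∩ B).Nonempty}.Finite := by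
  obtain ⟨r, hr⟩ := hB.subset_closedBall 0
  by_contra hinf
  have hfin : volume (Metric.closedBall (0 : ℝ × ℝ) (r + 2)) ≠ ⊤ :=
    (Metric.isBounded_closedBall.measure_lt_top).ne
  obtain ⟨N, hN⟩ := ENNReal.exists_nat_gt hfin
  obtain ⟨I, hI, hcard⟩ := Set.Infinite.exists_subset_card_eq hinf N
  have h1 := Fin.card_le h (Metric.closedBall (0 : ℝ × ℝ) (r + 2)) I (by
    intro i hi z hz
    obtain ⟨y, hyC, hyB⟩ := hI hi
    have h2 := diam (Q i) z y hz hyC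
    have h3 := hr hyB
    rw [mem_closedBall_zero_iff, Prod.norm_def, max_le_iff, Real.norm_eq_abs, Real.norm_eq_abs,
      abs_le, abs_le] at h3 ⊢
    rw [abs_lt, abs_lt] at h2
    refine ⟨⟨?_, ?_⟩, ?_, ?_⟩ <;> linarith [h2.1.1, h2.1.2, h2.2.1, h2.2.2, h3.1.1, h3.1.2,
      h3.2.1, h3.2.2])
  rw [hcard] at h1
  exact absurd h1 (not_le.mpr hN)

/-- T1a: at most 121 squares in a window (area). -/
theorem card_Rg {n : ℕ} {ι : Type} {Q : ι → USq} {W : ℝ} (h : PP n Q W) (c : ℤ × ℤ)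
    (I : Finset ι) (hI : ∀ i ∈ I, (Q i).C ⊆ Rg c) : I.card ≤ 121 := by
  have h1 := Fin.card_le h (Rg c) I hI
  rw [Fin.volume_Rg] at h1
  exact_mod_cast h1

/-- T1a -/
theorem measurableSet_Gap {n : ℕ} {ι : Type} [Countable ι] {Q : ι → USq} {W : ℝ}
    (h : PP n Q W) : MeasurableSet (Gap Q) :=
  have _ := h
  (MeasurableSet.iUnion fun i => H282R3.SQ.measurableSet_C (Q i)).compl

/-- T1a -/
theorem exists_meet {n : ℕ} {ι : Type} {Q : ι → USq} {W : ℝ} (h : PP n Q W) (c : ℤ × ℤ)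
    (hc : om Q c < 1) : ∃ i, ((Q i).C ∩ cell c).Nonempty := by
  have _ := h
  by_contra hne
  push Not at hne
  have h1 : cell c ⊆ Gap Q ∩ Rg c := by
    intro z hz
    refine ⟨?_, ?_⟩
    · intro hz'
      simp only [Set.mem_iUnion] at hz'
      obtain ⟨i, hi⟩ := hz'
      have : z ∈ (Q i).C ∩ cell c := ⟨hi, hz⟩
      rw [hne i] at this
      exact this
    · obtain ⟨a1, a2, a3, a4⟩ := hz
      refine ⟨?_, ?_, ?_, ?_⟩ <;> linarith
  have h2 : volume (cell c) = 1 := H282R3.SQ.volume_cell c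
  have h3 : volume (Gap Q ∩ Rg c) ≠ ⊤ := by
    apply ne_top_of_le_ne_top _ (measure_mono Set.inter_subset_right)
    rw [Fin.volume_Rg]
    exact ENNReal.coe_ne_top
  have h4 : 1 ≤ om Q c := by
    unfold om
    have := ENNReal.toReal_mono h3 (measure_mono h1)
    rw [h2] at this
    simpa using this
  linarith

end H282R4.PK
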