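import Pool.Agent.H282R4.PK.Defs
import Pool.Agent.H282R4.PK.Cluster
import Pool.Agent.H282R4.PK.Fin
import Pool.Agent.H282R4.PK.Geo

/-! Rigidity: two squares in the same `7 × 7` block have the same tilt up to the local waste. -/

namespace H282R4.PK

open MeasureTheory
open scoped Real ENNReal
open H282R3.SQ (USq)

namespace Rig

theorem Kg_sub_Rg (c : ℤ × ℤ) : Kg c ⊆ Rg c := by
  intro z hz
  obtain ⟨h1, h2, h3, h4⟩ := hz
  refine ⟨?_, ?_, ?_, ?_⟩ <;> linarith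

theorem measurableSet_Rg (c : ℤ × ℤ) : MeasurableSet (Rg c) := by
  have : Rg c = Set.Ico ((c.1 : ℝ) - 5) (c.1 + 6) ×ˢ Set.Ico ((c.2 : ℝ) - 5) (c.2 + 6) := by
    ext z
    simp only [Rg, Set.mem_setOf_eq, Set.mem_prod, Set.mem_Ico]
    tauto
  rw [this]
  exact measurableSet_Ico.prod measurableSet_Ico

theorem isBounded_Rg (c : ℤ × ℤ) : Bornology.IsBounded (Rg c) := by
  have : Rg c ⊆ Set.Icc ((c.1 : ℝ) - 5) (c.1 + 6) ×ˢ Set.Icc ((c.2 : ℝ) - 5) (c.2 + 6) := by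
    intro z hz
    obtain ⟨h1, h2, h3, h4⟩ := hz
    exact ⟨⟨h1, h2.le⟩, ⟨h3, h4.le⟩⟩
  exact ((Metric.isBounded_Icc _ _).prod (Metric.isBounded_Icc _ _)).subset this

theorem convex_Kg (c : ℤ × ℤ) : Convex ℝ (Kg c) := by
  have : Kg c = Set.Icc ((c.1 : ℝ) - 3) (c.1 + 4) ×ˢ Set.Icc ((c.2 : ℝ) - 3) (c.2 + 4) := by
    ext z
    simp only [Kg, Set.mem_setOf_eq, Set.mem_prod, Set.mem_Icc]
    tauto
  rw [this]
  exact (convex_Icc _ _).prod (convex_Icc _ _)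

theorem centre_mem (Q : USq) : (Q.p, Q.q) ∈ Q.C := by
  simp [USq.C, USq.X, USq.Y]

end Rig

/-- T3: rigidity. -/
theorem rig {n : ℕ} {ι : Type} [Countable ι] {Q : ι → USq} {W : ℝ} (h : PP n Q W) (c : ℤ × ℤ)
    (i j : ι) (hi : (Q i).C ⊆ Kg c) (hj : (Q j).C ⊆ Kg c) :
    rho (Q i) (Q j) ≤ C0 * om Q c := by
  classical
  have hfin : {i | (Q i).C ⊆ Rg c}.Finite := by
    refine (fin_meet h (Rg c) (Rig.isBounded_Rg c)).subset ?_
    intro i hi
    exact ⟨_, Rig.centre_mem (Q i), hi (Rig.centre_mem (Q i))⟩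
  haveI : Fintype {i | (Q i).C ⊆ Rg c} := hfin.fintype
  have hcard : Fintype.card {i | (Q i).C ⊆ Rg c} ≤ 121 := by
    have := card_Rg h c (hfin.toFinset) (by intro i hi; simpa using hi)
    rw [hfin.card_toFinset] at this
    exact this
  have hω : 0 ≤ om Q c := ENNReal.toReal_nonneg
  have hGω : volume (Gap Q ∩ Rg c) ≤ ENNReal.ofReal (om Q c) := by
    unfold om
    rw [ENNReal.ofReal_toReal]
    exact ne_of_lt (lt_of_le_of_lt ((measure_mono Set.inter_subset_left).trans h.gap)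
      ENNReal.ofReal_lt_top)
  have key := cluster_pk (ι := {i | (Q i).C ⊆ Rg c}) (Gap Q ∩ Rg c)
    ((measurableSet_Gap h).inter (Rig.measurableSet_Rg c)) (om Q c) hω hGω 121 hcard
    (fun i => Q i.1) (Kg c) (Rig.convex_Kg c)
    (by
      intro x hx
      by_cases hxG : x ∈ Gap Q
      · exact Or.inl ⟨hxG, Rig.Kg_sub_Rg c hx⟩
      · right
        unfold Gap at hxG
        rw [Set.notMem_compl_iff, Set.mem_iUnion] at hxG
        obtain ⟨k, hk⟩ := hxG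
        refine ⟨⟨k, ?_⟩, hk⟩
        intro y hy
        obtain ⟨h1, h2⟩ := diam (Q k) x y hk hy
        obtain ⟨k1, k2, k3, k4⟩ := hx
        rw [abs_lt] at h1 h2
        refine ⟨?_, ?_, ?_, ?_⟩ <;> linarith [h1.1, h1.2, h2.1, h2.2])
    (by
      intro i j hij
      exact h.disj _ _ (fun h' => hij (Subtype.ext h')))
    ⟨i, hi.trans (Rig.Kg_sub_Rg c)⟩ ⟨j, hj.trans (Rig.Kg_sub_Rg c)⟩ hi hj
  refine key.trans ?_
  unfold C0
  have : ((121 : ℕ) : ℝ) * (2 * (64 * ((121 : ℕ) : ℝ) ^ 2 + 2) ^ 2 * om Q c)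
      = (121 * (2 * (64 * 121 ^ 2 + 2) ^ 2)) * om Q c := by push_cast; ring
  rw [this]
  exact mul_le_mul_of_nonneg_right (by norm_num) hω

end H282R4.PK
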