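import Pool.Agent.H282R4.PK.Defs

/-! Slopes of two squares of nearly equal tilt (pure algebra). Project PK, module SlopeLem. -/

namespace H282R4.PK

open MeasureTheory
open scoped Real ENNReal
open H282R3.SQ (USq)

private theorem bounds (Q Q' : USq) (h1 : |Q.b| ≤ Q.a) (h2 : |Q'.b| ≤ Q'.a)
    (hs : |slope Q| ≤ 1 / 4) :
    97 / 100 ≤ Q.a ∧ 7 / 10 ≤ Q'.a ∧ 1 / 2 ≤ Q.a * Q'.a + Q.b * Q'.b := by
  have u := Q.unit
  have u' := Q'.unit
  have hb := sq_abs Q.b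
  have hb' := sq_abs Q'.b
  have h0 := abs_nonneg Q.b
  have h0' := abs_nonneg Q'.b
  have ha0 : 0 < Q.a := by
    rcases lt_or_eq_of_le (h0.trans h1) with h | h
    · exact h
    · exfalso
      rw [← h] at h1 u
      nlinarith
  have ha0' : 0 < Q'.a := by
    rcases lt_or_eq_of_le (h0'.trans h2) with h | h
    · exact h
    · exfalso
      rw [← h] at h2 u'
      nlinarith
  have hb4 : |Q.b| ≤ Q.a / 4 := by
    unfold slope at hs
    rw [abs_div, abs_of_pos ha0, div_le_iff₀ ha0] at hs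
    linarith
  have ha : 97 / 100 ≤ Q.a := by
    by_contra hc
    push Not at hc
    nlinarith
  have ha' : 7 / 10 ≤ Q'.a := by
    by_contra hc
    push Not at hc
    nlinarith
  refine ⟨ha, ha', ?_⟩
  have h3 : -(|Q.b| * |Q'.b|) ≤ Q.b * Q'.b := by
    rw [← abs_mul]; exact neg_abs_le _
  have h4 : |Q.b| * |Q'.b| ≤ Q.a / 4 * Q'.a :=
    mul_le_mul hb4 h2 h0' (by linarith)
  have h5 : 97 / 100 * (7 / 10) ≤ Q.a * Q'.a := mul_le_mul ha ha' (by norm_num) ha0.le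
  linarith

/-- T4: the deviation is controlled by rho when the reference slope is at most 1/4. -/
theorem dev_le_rho (Q Q' : USq) (h1 : |Q.b| ≤ Q.a) (h2 : |Q'.b| ≤ Q'.a)
    (hs : |slope Q| ≤ 1 / 4) : |Q.a * Q'.b - Q.b * Q'.a| ≤ 2 * rho Q Q' := by
  obtain ⟨-, -, h⟩ := bounds Q Q' h1 h2 hs
  unfold rho
  rw [abs_mul, abs_of_nonneg (by linarith : 0 ≤ Q.a * Q'.a + Q.b * Q'.b)]
  have := abs_nonneg (Q.a * Q'.b - Q.b * Q'.a)
  nlinarith

/-- T4 -/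
theorem slope_lemma (Q Q' : USq) (h1 : |Q.b| ≤ Q.a) (h2 : |Q'.b| ≤ Q'.a)
    (hs : |slope Q| ≤ 1 / 4) (hr : rho Q Q' ≤ 1 / 16) :
    |slope Q' - slope Q| ≤ 2 * rho Q Q' := by
  obtain ⟨ha, ha', h⟩ := bounds Q Q' h1 h2 hs
  have hd := dev_le_rho Q Q' h1 h2 hs
  have u := Q.unit
  have u' := Q'.unit
  have hμ : |Q.a * Q'.b - Q.b * Q'.a| ≤ 1 / 8 := by linarith
  have hμ2 : (Q.a * Q'.b - Q.b * Q'.a) ^ 2 ≤ 1 / 64 := by
    rw [← sq_abs]
    nlinarith [abs_nonneg (Q.a * Q'.b - Q.b * Q'.a)]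
  have hid : (Q.a * Q'.a + Q.b * Q'.b) ^ 2 + (Q.a * Q'.b - Q.b * Q'.a) ^ 2 = 1 := by
    have : (Q.a * Q'.a + Q.b * Q'.b) ^ 2 + (Q.a * Q'.b - Q.b * Q'.a) ^ 2
        = (Q.a ^ 2 + Q.b ^ 2) * (Q'.a ^ 2 + Q'.b ^ 2) := by ring
    rw [this, u, u']; norm_num
  have hκ : 99 / 100 ≤ Q.a * Q'.a + Q.b * Q'.b := by
    by_contra hc
    push Not at hc
    nlinarith
  have hsl : slope Q' - slope Q = (Q.a * Q'.b - Q.b * Q'.a) / (Q.a * Q'.a) := by
    unfold slope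
    have : Q.a ≠ 0 := by linarith
    have : Q'.a ≠ 0 := by linarith
    field_simp
  have hpos : 0 < Q.a * Q'.a := mul_pos (by linarith) (by linarith)
  have haa : 97 / 100 * (7 / 10) ≤ Q.a * Q'.a := mul_le_mul ha ha' (by norm_num) (by linarith)
  rw [hsl, abs_div, abs_of_pos hpos, div_le_iff₀ hpos]
  unfold rho
  rw [abs_mul, abs_of_nonneg (by linarith : 0 ≤ Q.a * Q'.a + Q.b * Q'.b)]
  have hk : 1 ≤ 2 * (Q.a * Q'.a + Q.b * Q'.b) * (Q.a * Q'.a) := by nlinarith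
  have := abs_nonneg (Q.a * Q'.b - Q.b * Q'.a)
  nlinarith

end H282R4.PK
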