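import Pool.Agent.H282R4.PK.Defs

/-!
# Project PK, module EVar: two facts on the variation of real functions
-/

namespace H282R4.PK

open MeasureTheory
open scoped Real ENNReal
open H282R3.SQ (USq)

private theorem int_tv (κ : ℤ → ℝ) (x : ℤ) : ∀ y : ℤ, x ≤ y →
    |κ y - κ x| ≤ ∑ j ∈ Finset.Ico x y, |κ (j + 1) - κ j| := by
  intro y hy
  induction y, hy using Int.leInduction with
  | base => simp
  | succ y hy ih =>
    have h1 : Finset.Ico x (y + 1) = insert y (Finset.Ico x y) := by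
      ext j; simp only [Finset.mem_Ico, Finset.mem_insert]; omega
    rw [h1, Finset.sum_insert (by simp)]
    have h2 : κ (y + 1) - κ x = (κ (y + 1) - κ y) + (κ y - κ x) := by ring
    rw [h2]
    exact (abs_add_le _ _).trans (by linarith)

private theorem seq_tv (κ : ℤ → ℝ) (m : ℕ → ℤ) (hm : Monotone m) : ∀ r : ℕ,
    ∑ i ∈ Finset.range r, |κ (m (i + 1)) - κ (m i)| ≤
      ∑ j ∈ Finset.Ico (m 0) (m r), |κ (j + 1) - κ j| := by
  intro r
  induction r with
  | zero => simp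
  | succ r ih =>
    have h1 : m 0 ≤ m r := hm (Nat.zero_le r)
    have h2 : m r ≤ m (r + 1) := hm (Nat.le_succ r)
    rw [Finset.sum_range_succ, ← Finset.Ico_union_Ico_eq_Ico h1 h2,
      Finset.sum_union (Finset.Ico_disjoint_Ico_consecutive _ _ _)]
    exact add_le_add ih (int_tv κ _ _ h2)

/-- T15: variation of a sum. -/
theorem eVar_add (f g : ℝ → ℝ) (s : Set ℝ) :
    eVariationOn (fun x => f x + g x) s ≤ eVariationOn f s + eVariationOn g s := by
  refine iSup_le fun p => ?_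
  calc ∑ i ∈ Finset.range p.1, edist (f (p.2.1 (i + 1)) + g (p.2.1 (i + 1)))
        (f (p.2.1 i) + g (p.2.1 i))
      ≤ ∑ i ∈ Finset.range p.1, (edist (f (p.2.1 (i + 1))) (f (p.2.1 i)) +
          edist (g (p.2.1 (i + 1))) (g (p.2.1 i))) :=
        Finset.sum_le_sum fun i _ => edist_add_add_le _ _ _ _
    _ = ∑ i ∈ Finset.range p.1, edist (f (p.2.1 (i + 1))) (f (p.2.1 i)) +
          ∑ i ∈ Finset.range p.1, edist (g (p.2.1 (i + 1))) (g (p.2.1 i)) :=
        Finset.sum_add_distrib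
    _ ≤ _ := add_le_add (eVariationOn.sum_le p.2.2.1 p.2.2.2)
        (eVariationOn.sum_le p.2.2.1 p.2.2.2)

/-- T15: variation of a function of the integer part. -/
theorem eVar_floor (κ : ℤ → ℝ) (a b : ℤ) (s : Set ℝ) (hs : ∀ x ∈ s, a ≤ ⌊x⌋ ∧ ⌊x⌋ ≤ b) :
    eVariationOn (fun x => κ ⌊x⌋) s ≤
      ENNReal.ofReal (∑ j ∈ Finset.Icc a (b - 1), |κ (j + 1) - κ j|) := by
  refine iSup_le fun p => ?_
  obtain ⟨r, u, hu, us⟩ := p
  have hm : Monotone fun i => ⌊u i⌋ := fun i j hij => Int.floor_mono (hu hij)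
  have h1 : ∀ i, edist (κ ⌊u (i + 1)⌋) (κ ⌊u i⌋) =
      ENNReal.ofReal |κ ⌊u (i + 1)⌋ - κ ⌊u i⌋| := by
    intro i
    rw [edist_dist, Real.dist_eq]
  simp only [h1]
  rw [← ENNReal.ofReal_sum_of_nonneg (fun i _ => abs_nonneg _)]
  refine ENNReal.ofReal_le_ofReal ((seq_tv κ _ hm r).trans ?_)
  refine Finset.sum_le_sum_of_subset_of_nonneg ?_ (fun _ _ _ => abs_nonneg _)
  intro j hj
  rw [Finset.mem_Ico] at hj
  rw [Finset.mem_Icc]
  have h2 := (hs _ (us 0)).1
  have h3 := (hs _ (us r)).2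
  constructor <;> omega

end H282R4.PK
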