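import Mathlib

/-! Auxiliary lemmas for one step of the flow: transport by piecewise translations. -/

namespace H282R4.PK.FlowStep

open MeasureTheory
open scoped Real ENNReal

/-- core part of the cell `j` -/
def S (P : Set ℝ) (G : ℤ → Prop) (d : ℤ → ℝ) (j : ℤ) : Set ℝ :=
  {X | G j ∧ X ∈ P ∧ (j : ℝ) + d j ≤ X ∧ X < j + 1 - d j}

theorem measurableSet_S {P : Set ℝ} (hP : MeasurableSet P) (G : ℤ → Prop) (d : ℤ → ℝ) (j : ℤ) :
    MeasurableSet (S P G d j) := by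
  have : S P G d j = {_X | G j} ∩ (P ∩ Set.Ico ((j : ℝ) + d j) (j + 1 - d j)) := by
    ext X
    simp [S]
  rw [this]
  exact (MeasurableSet.const _).inter (hP.inter measurableSet_Ico)

theorem floor_S {P : Set ℝ} {G : ℤ → Prop} {d : ℤ → ℝ} (hd : ∀ j, 0 ≤ d j) {j : ℤ} {X : ℝ}
    (hX : X ∈ S P G d j) : ⌊X⌋ = j := by
  have := hd j
  rw [Int.floor_eq_iff]
  exact ⟨by linarith [hX.2.2.1], by linarith [hX.2.2.2]⟩

theorem disj_S {P : Set ℝ} {G : ℤ → Prop} {d : ℤ → ℝ} (hd : ∀ j, 0 ≤ d j) {i j : ℤ}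
    (hij : i ≠ j) : Disjoint (S P G d i) (S P G d j) := by
  rw [Set.disjoint_left]
  intro X hX hY
  exact hij ((floor_S hd hX).symm.trans (floor_S hd hY))

/-- translate by `-b j` -/
def T (S : ℤ → Set ℝ) (b : ℤ → ℝ) (j : ℤ) : Set ℝ := {X | X + b j ∈ S j}

theorem measurableSet_T {S : ℤ → Set ℝ} {j : ℤ} (hS : MeasurableSet (S j)) (b : ℤ → ℝ) :
    MeasurableSet (T S b j) :=
  hS.preimage (measurable_id.add_const _)

theorem order {P : Set ℝ} {G : ℤ → Prop} {d b : ℤ → ℝ} (hd : ∀ j, 0 ≤ d j)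
    (hb : ∀ j, |b j| ≤ 1 / 4) (hc : ∀ j, G j → G (j + 1) → |b j - b (j + 1)| ≤ d j + d (j + 1))
    {i j : ℤ} (hij : i < j) {X Y : ℝ} (hX : X ∈ T (S P G d) b i) (hY : Y ∈ T (S P G d) b j) :
    X < Y := by
  have hX' : X + b i ∈ S P G d i := hX
  have hY' : Y + b j ∈ S P G d j := hY
  rcases eq_or_lt_of_le (show i + 1 ≤ j by omega) with h | h
  · subst h
    have h1 := hc i hX'.1 hY'.1
    have h2 := (abs_le.1 h1).1
    have h3 := hX'.2.2.2
    have h4 := hY'.2.2.1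
    push_cast at h4
    linarith
  · have h1 : ((i : ℝ) + 1) + 1 ≤ j := by
      have : i + 1 + 1 ≤ j := by omega
      exact_mod_cast this
    have h3 := hX'.2.2.2
    have h4 := hY'.2.2.1
    have h5 := hd i
    have h6 := hd j
    have h7 := (abs_le.1 (hb i)).1
    have h8 := (abs_le.1 (hb j)).2
    linarith

theorem disj_T {P : Set ℝ} {G : ℤ → Prop} {d b : ℤ → ℝ} (hd : ∀ j, 0 ≤ d j)
    (hb : ∀ j, |b j| ≤ 1 / 4) (hc : ∀ j, G j → G (j + 1) → |b j - b (j + 1)| ≤ d j + d (j + 1))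
    {i j : ℤ} (hij : i ≠ j) : Disjoint (T (S P G d) b i) (T (S P G d) b j) := by
  rw [Set.disjoint_left]
  intro X hX hY
  rcases lt_or_gt_of_ne hij with h | h
  · exact lt_irrefl _ (order hd hb hc h hX hY)
  · exact lt_irrefl _ (order hd hb hc h hY hX)

/-- piecewise defined function -/
noncomputable def pw (J : Finset ℤ) (T : ℤ → Set ℝ) (f : ℤ → ℝ → ℝ) (X : ℝ) : ℝ :=
  ∑ j ∈ J, (T j).indicator (f j) X

theorem pw_eq {J : Finset ℤ} {T : ℤ → Set ℝ} (hd : ∀ i j, i ≠ j → Disjoint (T i) (T j))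
    (f : ℤ → ℝ → ℝ) {j : ℤ} (hj : j ∈ J) {X : ℝ} (hX : X ∈ T j) : pw J T f X = f j X := by
  unfold pw
  rw [Finset.sum_eq_single_of_mem j hj, Set.indicator_of_mem hX]
  intro i _ hij
  exact Set.indicator_of_notMem (Set.disjoint_left.1 (hd j i hij.symm) hX) _

theorem measurable_pw {J : Finset ℤ} {T : ℤ → Set ℝ} (hT : ∀ j, MeasurableSet (T j))
    {f : ℤ → ℝ → ℝ} (hf : ∀ j, Measurable (f j)) : Measurable (pw J T f) := by
  unfold pw
  exact Finset.measurable_fun_sum J fun j _ => (hf j).indicator (hT j)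

theorem lint_T {S : ℤ → Set ℝ} {b : ℤ → ℝ} {j : ℤ} (hS : MeasurableSet (S j))
    (g : ℝ → ℝ≥0∞) : ∫⁻ X in T S b j, g X = ∫⁻ X in S j, g (X - b j) := by
  rw [← lintegral_indicator (measurableSet_T hS b), ← lintegral_indicator hS,
    ← lintegral_sub_right_eq_self _ (b j)]
  congr 1
  ext X
  by_cases h : X ∈ S j
  · rw [Set.indicator_of_mem h, Set.indicator_of_mem]
    simpa [T] using h
  · rw [Set.indicator_of_notMem h, Set.indicator_of_notMem]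
    simpa [T] using h

theorem lint {J : Finset ℤ} {S : ℤ → Set ℝ} (hS : ∀ j, MeasurableSet (S j)) {b : ℤ → ℝ}
    (hd : ∀ i j, i ≠ j → Disjoint (T S b i) (T S b j)) (g : ℝ → ℝ≥0∞) :
    ∫⁻ X in ⋃ j ∈ J, T S b j, g X = ∑ j ∈ J, ∫⁻ X in S j, g (X - b j) := by
  rw [lintegral_biUnion_finset]
  · exact Finset.sum_congr rfl fun j _ => lint_T (hS j) g
  · exact fun i _ j _ hij => hd i j hij
  · exact fun j _ => measurableSet_T (hS j) b

theorem vol {J : Finset ℤ} {S : ℤ → Set ℝ} (hS : ∀ j, MeasurableSet (S j)) {b : ℤ → ℝ}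
    (hd : ∀ i j, i ≠ j → Disjoint (T S b i) (T S b j)) {A : Set ℝ} (hA : MeasurableSet A) :
    volume ((⋃ j ∈ J, T S b j) ∩ A) = ∑ j ∈ J, volume (S j ∩ {X | X - b j ∈ A}) := by
  have hU : MeasurableSet (⋃ j ∈ J, T S b j) :=
    Finset.measurableSet_biUnion _ fun j _ => measurableSet_T (hS j) b
  have h1 : volume ((⋃ j ∈ J, T S b j) ∩ A) =
      ∫⁻ X in ⋃ j ∈ J, T S b j, A.indicator 1 X := by
    rw [lintegral_indicator_one hA, Measure.restrict_apply hA, Set.inter_comm]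
  rw [h1, lint hS hd]
  refine Finset.sum_congr rfl fun j _ => ?_
  have hA' : MeasurableSet {X | X - b j ∈ A} := hA.preimage (measurable_id.sub_const _)
  have h2 : (fun X => A.indicator (1 : ℝ → ℝ≥0∞) (X - b j)) =
      {X | X - b j ∈ A}.indicator (1 : ℝ → ℝ≥0∞) := by
    ext X
    simp [Set.indicator]
  rw [h2, lintegral_indicator_one hA', Measure.restrict_apply hA', Set.inter_comm]

/-- sums over disjoint parts of a set -/
theorem sum_lint_le {J : Finset ℤ} {S : ℤ → Set ℝ} (hS : ∀ j, MeasurableSet (S j))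
    (hd : ∀ i j, i ≠ j → Disjoint (S i) (S j)) {P : Set ℝ} (hP : ∀ j, S j ⊆ P) (g : ℝ → ℝ≥0∞) :
    ∑ j ∈ J, ∫⁻ X in S j, g X ≤ ∫⁻ X in P, g X := by
  rw [← lintegral_biUnion_finset (fun i _ j _ hij => hd i j hij) (fun j _ => hS j)]
  exact lintegral_mono_set (Set.iUnion₂_subset fun j _ => hP j)

theorem sum_vol_le {J : Finset ℤ} {S : ℤ → Set ℝ} (hS : ∀ j, MeasurableSet (S j))
    (hd : ∀ i j, i ≠ j → Disjoint (S i) (S j)) {P : Set ℝ} (hP : ∀ j, S j ⊆ P) :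
    ∑ j ∈ J, volume (S j) ≤ volume P := by
  rw [← measure_biUnion_finset (fun i _ j _ hij => hd i j hij) (fun j _ => hS j)]
  exact measure_mono (Set.iUnion₂_subset fun j _ => hP j)

/-- `√(1+u²) - √(1+v²)` -/
theorem sqrt_diff {u v τ : ℝ} (hu : 0 ≤ u) (hv : 0 ≤ v) (hu' : u ≤ τ) (hv' : v ≤ τ) :
    |√(1 + u ^ 2) - √(1 + v ^ 2)| ≤ τ * |u - v| := by
  have h1 : 1 ≤ √(1 + u ^ 2) := Real.one_le_sqrt.2 (by nlinarith)
  have h2 : 1 ≤ √(1 + v ^ 2) := Real.one_le_sqrt.2 (by nlinarith)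
  have h3 : √(1 + u ^ 2) ^ 2 = 1 + u ^ 2 := Real.sq_sqrt (by positivity)
  have h4 : √(1 + v ^ 2) ^ 2 = 1 + v ^ 2 := Real.sq_sqrt (by positivity)
  have h5 : |√(1 + u ^ 2) - √(1 + v ^ 2)| * (√(1 + u ^ 2) + √(1 + v ^ 2)) = |u - v| * (u + v) := by
    have e1 : |√(1 + u ^ 2) - √(1 + v ^ 2)| * (√(1 + u ^ 2) + √(1 + v ^ 2)) =
        |(√(1 + u ^ 2) - √(1 + v ^ 2)) * (√(1 + u ^ 2) + √(1 + v ^ 2))| := by
      rw [abs_mul, abs_of_nonneg (show 0 ≤ √(1 + u ^ 2) + √(1 + v ^ 2) by linarith)]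
    have e2 : |u - v| * (u + v) = |(u - v) * (u + v)| := by
      rw [abs_mul, abs_of_nonneg (show 0 ≤ u + v by linarith)]
    rw [e1, e2]
    congr 1
    nlinarith
  have h6 : 0 ≤ |√(1 + u ^ 2) - √(1 + v ^ 2)| := abs_nonneg _
  have h7 : 0 ≤ |u - v| := abs_nonneg _
  nlinarith [mul_le_mul_of_nonneg_left (show u + v ≤ 2 * τ by linarith) h7,
    mul_le_mul_of_nonneg_left (show 2 ≤ √(1 + u ^ 2) + √(1 + v ^ 2) by linarith) h6]

end H282R4.PK.FlowStep
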