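import Pool.Agent.H282R4.PK.Defs
import Pool.Agent.H282R4.PK.Fin
import Pool.Agent.H282R4.PK.Geo
import Pool.Agent.H282R3.SQ.Area
import Pool.Agent.H282R3.SQ.Contact

/-!
Module Fmeas of project PK: the horizontal phase as a sum over the squares and the measurability
of the two phases.
-/

namespace H282R4.PK

open MeasureTheory
open scoped Real ENNReal
open H282R3.SQ (USq)

/-- T5 -/
theorem FH_eq {ι : Type} (Q : ι → USq) (z : ℝ × ℝ) :
    FH Q z = -1 + ∑ᶠ i, (Q i).C.indicator
      (fun z => Complex.exp (2 * π * Complex.I * (Q i).X z) + 1) z := by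
  unfold FH F
  congr 1
  apply finsum_congr
  intro i
  have hY : (tr (Q i)).Y (z.2, z.1) = (Q i).X z := by
    simp only [tr, USq.X, USq.Y]
    ring
  have hmem : ((z.2, z.1) : ℝ × ℝ) ∈ (tr (Q i)).C ↔ z ∈ (Q i).C := by
    rw [mem_tr_C]
  by_cases hz : z ∈ (Q i).C
  · rw [Set.indicator_of_mem (hmem.2 hz), Set.indicator_of_mem hz, hY]
  · rw [Set.indicator_of_notMem (fun h => hz (hmem.1 h)), Set.indicator_of_notMem hz]

/-- T5 -/
theorem measurable_F {n : ℕ} {ι : Type} [Countable ι] {Q : ι → USq} {W : ℝ} (h : PP n Q W) :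
    Measurable (F Q) := by
  unfold F
  apply Measurable.const_add
  have hfin : ∀ z : ℝ × ℝ, (Function.support fun i => (Q i).C.indicator
      (fun z => Complex.exp (2 * π * Complex.I * (Q i).Y z) + 1) z).Finite := by
    intro z
    apply (fin_meet h {z} Bornology.isBounded_singleton).subset
    intro i hi
    refine ⟨z, ?_, rfl⟩
    by_contra hz
    exact hi (Set.indicator_of_notMem hz _)
  apply measurable_of_tendsto_metrizable' (Filter.atTop : Filter (Finset ι))
    (f := fun s z => ∑ i ∈ s, (Q i).C.indicator
      (fun z => Complex.exp (2 * π * Complex.I * (Q i).Y z) + 1) z)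
  · intro s
    apply Finset.measurable_fun_sum
    intro i _
    apply Measurable.indicator _ (H282R3.SQ.measurableSet_C (Q i))
    have := H282R3.SQ.continuous_Y (Q i)
    apply Continuous.measurable
    fun_prop
  · rw [tendsto_pi_nhds]
    intro z
    have h1 := (summable_of_hasFiniteSupport (L := SummationFilter.unconditional ι)
      (hfin z)).hasSum
    rw [tsum_eq_finsum (hfin z)] at h1
    exact h1

/-- T5 -/
theorem measurable_FH {n : ℕ} {ι : Type} [Countable ι] {Q : ι → USq} {W : ℝ} (h : PP n Q W) :
    Measurable (FH Q) := by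
  have h1 := measurable_F h.trans
  exact h1.comp measurable_swap

end H282R4.PK
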