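import Pool.Agent.H282R4.PK.Defs
import Pool.Agent.H282R4.PK.LineInt
import Pool.Agent.H282R4.PK.Slopes
import Pool.Agent.H282R4.PK.Geo
import Pool.Agent.H282R4.PK.Fin

/-!
One step of the vertical flow.
-/

namespace H282R4.PK

open MeasureTheory
open scoped Real ENNReal
open H282R3.SQ (USq)

namespace OneStep

theorem a_pos {Q : USq} (h : |Q.b| ≤ Q.a) : 0 < Q.a := by
  have h0 : 0 ≤ Q.a := (abs_nonneg _).trans h
  rcases h0.lt_or_eq with h1 | h1
  · exact h1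
  · exfalso
    rw [← h1] at h
    have hb : Q.b = 0 := abs_nonpos_iff.1 h
    have := Q.unit
    rw [← h1, hb] at this
    norm_num at this

theorem dev_term {Q : USq} (hn : |Q.b| ≤ Q.a) (β r : ℝ) (hr : 1 ≤ r) :
    |Q.a * (-β / r) + Q.b * (1 / r)| ≤ |slope Q - β| := by
  have ha := a_pos hn
  have ha1 : Q.a ≤ 1 := by nlinarith [Q.unit, sq_nonneg Q.b]
  have hr0 : 0 < r := by linarith
  have h1 : Q.a * (-β / r) + Q.b * (1 / r) = (Q.a / r) * (slope Q - β) := by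
    unfold slope
    field_simp
    ring
  rw [h1, abs_mul]
  have h2 : |Q.a / r| ≤ 1 := by
    rw [abs_of_nonneg (by positivity), div_le_one hr0]
    linarith
  calc |Q.a / r| * |slope Q - β| ≤ 1 * |slope Q - β| :=
        mul_le_mul_of_nonneg_right h2 (abs_nonneg _)
    _ = _ := one_mul _

/-- the strip between two levels -/
def St (c : ℤ × ℤ) : Set (ℝ × ℝ) :=
  {z | (c.1 : ℝ) - 1 / 4 ≤ z.1 ∧ z.1 ≤ c.1 + 5 / 4 ∧ (c.2 : ℝ) ≤ z.2 ∧ z.2 ≤ c.2 + 1}

theorem St_eq (c : ℤ × ℤ) : St c =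
    Set.Icc ((c.1 : ℝ) - 1 / 4) (c.1 + 5 / 4) ×ˢ Set.Icc (c.2 : ℝ) (c.2 + 1) := by
  ext z
  simp only [St, Set.mem_ofPred_eq, Set.mem_prod, Set.mem_Icc]
  tauto

theorem measurableSet_St (c : ℤ × ℤ) : MeasurableSet (St c) := by
  rw [St_eq]
  exact measurableSet_Icc.prod measurableSet_Icc

theorem bounded_St (c : ℤ × ℤ) : Bornology.IsBounded (St c) := by
  rw [St_eq]
  exact (Metric.isBounded_Icc _ _).prod (Metric.isBounded_Icc _ _)

theorem sq_sub {Q : USq} {c : ℤ × ℤ} (h : (Q.C ∩ St c).Nonempty) : Q.C ⊆ Kg c ∧ Q.C ⊆ Rg c := by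
  obtain ⟨z, hz, hz1, hz2, hz3, hz4⟩ := h
  have key : ∀ x ∈ Q.C, (c.1 : ℝ) - 2 ≤ x.1 ∧ x.1 ≤ c.1 + 3 ∧ (c.2 : ℝ) - 2 ≤ x.2 ∧
      x.2 ≤ c.2 + 3 := by
    intro x hx
    obtain ⟨h1, h2⟩ := diam Q x z hx hz
    rw [abs_lt] at h1 h2
    refine ⟨?_, ?_, ?_, ?_⟩ <;> linarith [h1.1, h1.2, h2.1, h2.2]
  constructor
  · intro x hx
    obtain ⟨h1, h2, h3, h4⟩ := key x hx
    refine ⟨?_, ?_, ?_, ?_⟩ <;> linarith
  · intro x hx
    obtain ⟨h1, h2, h3, h4⟩ := key x hx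
    refine ⟨?_, ?_, ?_, ?_⟩ <;> linarith

theorem Dev_le {n : ℕ} {ι : Type} [Countable ι] {Q : ι → USq} {W : ℝ} (h : PP n Q W)
    (c : ℤ × ℤ) (hc : nice Q c) (r : ℝ) (hr : 1 ≤ r) :
    Dev Q (-(bet Q c) / r, 1 / r) (St c) ≤ 243 * C0 * om Q c := by
  have hom : 0 ≤ om Q c := ENNReal.toReal_nonneg
  have hC0 : (0 : ℝ) < C0 := by unfold C0; positivity
  have h1 : (volume (Gap Q ∩ St c)).toReal ≤ om Q c := by
    unfold om
    refine ENNReal.toReal_mono ?_ (measure_mono ?_)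
    · exact (lt_of_le_of_lt ((measure_mono Set.inter_subset_left).trans h.gap)
        ENNReal.ofReal_lt_top).ne
    · rintro x ⟨hx, hx1, hx2, hx3, hx4⟩
      refine ⟨hx, ?_, ?_, ?_, ?_⟩ <;> linarith
  have hfin := fin_meet h (St c) (bounded_St c)
  have h2 : ∑ᶠ i ∈ {i | ((Q i).C ∩ St c).Nonempty},
      |(Q i).a * (-(bet Q c) / r) + (Q i).b * (1 / r)| ≤ 121 * (2 * C0 * om Q c) := by
    rw [finsum_mem_eq_finite_toFinset_sum _ hfin]
    have hcard : hfin.toFinset.card ≤ 121 := by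
      refine card_Rg h c _ fun i hi => ?_
      rw [Set.Finite.mem_toFinset] at hi
      exact (sq_sub hi).2
    refine (Finset.sum_le_card_nsmul _ _ (2 * C0 * om Q c) fun i hi => ?_).trans ?_
    · rw [Set.Finite.mem_toFinset] at hi
      exact (dev_term (h.norm i) _ r hr).trans (slope_close h c hc i (sq_sub hi).1)
    · rw [nsmul_eq_mul]
      refine mul_le_mul_of_nonneg_right ?_ (by positivity)
      exact_mod_cast hcard
  have hC1 : 1 ≤ C0 := by unfold C0; norm_num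
  unfold Dev
  nlinarith [mul_le_mul_of_nonneg_right hC1 hom]

end OneStep

open OneStep

/-- T8: one step of the vertical flow. -/
theorem one_step {n : ℕ} {ι : Type} [Countable ι] {Q : ι → USq} {W : ℝ} (h : PP n Q W)
    (c : ℤ × ℤ) (hc : nice Q c) :
    ∫⁻ X in Set.Icc (c.1 : ℝ) (c.1 + 1),
      ‖F Q (X - bet Q c, (c.2 : ℝ) + 1) -
        Complex.exp (Complex.I * ((2 * π * (Real.sqrt (1 + bet Q c ^ 2) - 1) : ℝ) : ℂ)) *
          F Q (X, (c.2 : ℝ))‖ₑ ≤ ENNReal.ofReal (10 ^ 20 * om Q c) := by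
  have hβ := bet_le Q c
  have hβ' := abs_le.1 hβ
  set β := bet Q c with hβdef
  set r := Real.sqrt (1 + β ^ 2) with hr
  have hr2 : r ^ 2 = 1 + β ^ 2 := Real.sq_sqrt (by positivity)
  have hr1 : 1 ≤ r := by
    rw [hr]
    exact Real.one_le_sqrt.2 (by nlinarith)
  have hr0 : 0 < r := by linarith
  have hβ2 : β ^ 2 ≤ 1 / 16 := by nlinarith
  have hrJ : 97 / 100 * r ≤ 1 := by nlinarith
  have hw : (-β / r, 1 / r).1 ^ 2 + (-β / r, 1 / r).2 ^ 2 = (1 : ℝ) := by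
    show (-β / r) ^ 2 + (1 / r) ^ 2 = 1
    field_simp
    linarith
  have hw2 : |(-β / r, 1 / r).1| ≤ (-β / r, 1 / r).2 / 4 := by
    show |(-β / r)| ≤ 1 / r / 4
    rw [abs_div, abs_neg, abs_of_pos hr0, div_div, div_le_div_iff₀ hr0 (by positivity)]
    nlinarith
  have hJ : (97 / 100 : ℝ) ≤ |((1 : ℝ), (0 : ℝ)).1 * (-β / r, 1 / r).2 -
      ((1 : ℝ), (0 : ℝ)).2 * (-β / r, 1 / r).1| := by
    show (97 / 100 : ℝ) ≤ |1 * (1 / r) - 0 * (-β / r)|
    rw [one_mul, zero_mul, sub_zero, abs_of_pos (by positivity), le_div_iff₀ hr0]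
    exact hrJ
  have hmain := line_int h ((0 : ℝ), (c.2 : ℝ)) ((1 : ℝ), (0 : ℝ)) (-β / r, 1 / r) hw hw2
    (97 / 100) (by norm_num) hJ (c.1 : ℝ) (c.1 + 1) (fun _ => r) (fun _ => hr0.le) (St c)
    (measurableSet_St c) (bounded_St c) (by
      intro t ht s hs
      obtain ⟨ht1, ht2⟩ := ht
      obtain ⟨hs1, hs2⟩ := hs
      have e1 : |s * (-β / r)| ≤ 1 / 4 := by
        rw [abs_mul, abs_of_nonneg hs1]
        have : |(-β / r)| ≤ 1 / r / 4 := hw2
        calc s * |(-β / r)| ≤ r * (1 / r / 4) := by gcongr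
          _ = 1 / 4 := by field_simp
      have e2 : s * (1 / r) ≤ 1 := by
        rw [mul_one_div, div_le_one hr0]
        exact hs2
      have e3 : 0 ≤ s * (1 / r) := by positivity
      rw [abs_le] at e1
      show (c.1 : ℝ) - 1 / 4 ≤ 0 + t * 1 + s * (-β / r) ∧ 0 + t * 1 + s * (-β / r) ≤ c.1 + 5 / 4 ∧
        (c.2 : ℝ) ≤ c.2 + t * 0 + s * (1 / r) ∧ c.2 + t * 0 + s * (1 / r) ≤ (c.2 : ℝ) + 1
      refine ⟨?_, ?_, ?_, ?_⟩ <;> linarith [e1.1, e1.2])
  have hpt : ∀ X : ℝ, ‖F Q (X - β, (c.2 : ℝ) + 1) -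
        Complex.exp (Complex.I * ((2 * π * (r - 1) : ℝ) : ℂ)) * F Q (X, (c.2 : ℝ))‖ₑ =
      ‖F Q (((0 : ℝ), (c.2 : ℝ)) + X • ((1 : ℝ), (0 : ℝ)) + r • (-β / r, 1 / r)) *
        Complex.exp (-(2 * π * Complex.I * (r : ℝ))) -
          F Q (((0 : ℝ), (c.2 : ℝ)) + X • ((1 : ℝ), (0 : ℝ)))‖ₑ := by
    intro X
    have e1 : ((0 : ℝ), (c.2 : ℝ)) + X • ((1 : ℝ), (0 : ℝ)) + r • (-β / r, 1 / r) =
        (X - β, (c.2 : ℝ) + 1) := by
      ext
      · show 0 + X * 1 + r * (-β / r) = X - β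
        field_simp
        ring
      · show (c.2 : ℝ) + X * 0 + r * (1 / r) = c.2 + 1
        field_simp
        ring
    have e2 : ((0 : ℝ), (c.2 : ℝ)) + X • ((1 : ℝ), (0 : ℝ)) = (X, (c.2 : ℝ)) := by
      ext
      · show 0 + X * 1 = X
        ring
      · show (c.2 : ℝ) + X * 0 = c.2
        ring
    rw [e1, e2]
    set A := F Q (X - β, (c.2 : ℝ) + 1)
    set D := F Q (X, (c.2 : ℝ))
    have e3 : Complex.exp (Complex.I * ((2 * π * (r - 1) : ℝ) : ℂ)) =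
        Complex.exp (2 * π * Complex.I * (r : ℝ)) := by
      have : Complex.I * ((2 * π * (r - 1) : ℝ) : ℂ) =
          2 * π * Complex.I * (r : ℝ) - 2 * π * Complex.I := by
        push_cast
        ring
      rw [this, Complex.exp_sub, Complex.exp_two_pi_mul_I, div_one]
    have e4 : A - Complex.exp (2 * π * Complex.I * (r : ℝ)) * D =
        Complex.exp (2 * π * Complex.I * (r : ℝ)) *
          (A * Complex.exp (-(2 * π * Complex.I * (r : ℝ))) - D) := by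
      have e5 : Complex.exp (2 * π * Complex.I * (r : ℝ)) *
          Complex.exp (-(2 * π * Complex.I * (r : ℝ))) = 1 := by
        rw [← Complex.exp_add, add_neg_cancel, Complex.exp_zero]
      linear_combination (-A) * e5
    have e6 : ‖Complex.exp (2 * π * Complex.I * (r : ℝ))‖ₑ = 1 := by
      have : ‖Complex.exp (2 * π * Complex.I * (r : ℝ))‖ = 1 := by
        have e7 : 2 * π * Complex.I * (r : ℝ) = ((2 * π * r : ℝ) : ℂ) * Complex.I := by
          push_cast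
          ring
        rw [e7]
        exact Complex.norm_exp_ofReal_mul_I _
      rw [← ofReal_norm, this, ENNReal.ofReal_one]
    rw [e3, e4, enorm_mul, e6, one_mul]
  simp_rw [hpt]
  refine hmain.trans (ENNReal.ofReal_le_ofReal ?_)
  have hD := Dev_le h c hc r hr1
  rw [← hβdef] at hD
  have hom : 0 ≤ om Q c := ENNReal.toReal_nonneg
  have hC0 : C0 = 10 ^ 15 := rfl
  rw [hC0] at hD
  calc 20 / (97 / 100) * Dev Q (-β / r, 1 / r) (St c)
      ≤ 20 / (97 / 100) * (243 * 10 ^ 15 * om Q c) := by gcongr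
    _ ≤ 10 ^ 20 * om Q c := by nlinarith

end H282R4.PK
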