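import Pool.Agent.H282R4.PK.Defs
import Pool.Agent.H282R4.PK.FlowStepA
import Pool.Agent.H282R4.PK.OneStep
import Pool.Agent.H282R4.PK.Slopes
import Pool.Agent.H282R4.PK.EVar
import Pool.Agent.H282R4.PK.Fmeas

/-! One step of the flow. -/

namespace H282R4.PK

open MeasureTheory
open scoped Real ENNReal
open H282R3.SQ (USq)

namespace FlowStep

/-- good cells of level `k` -/
def G {ι : Type} (Q : ι → USq) (τ : ℝ) (k j : ℤ) : Prop := nice Q (j, k) ∧ gam Q (j, k) ≤ τ

/-- margins -/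
noncomputable def d {ι : Type} (Q : ι → USq) (k j : ℤ) : ℝ := 4 * C0 * om Q (j, k)

/-- slopes -/
noncomputable def b {ι : Type} (Q : ι → USq) (k j : ℤ) : ℝ := bet Q (j, k)

/-- phase gain -/
noncomputable def ka {ι : Type} (Q : ι → USq) (τ : ℝ) (k j : ℤ) : ℝ :=
  2 * π * (√(1 + (min (gam Q (j, k)) τ) ^ 2) - 1)

/-- relevant cells -/
noncomputable def J (n : ℕ) : Finset ℤ := Finset.Icc (-(n : ℤ) - 6) (2 * n + 7)

theorem C0_pos : 0 < C0 := by unfold C0; positivity

theorem om_nonneg {ι : Type} (Q : ι → USq) (c : ℤ × ℤ) : 0 ≤ om Q c := ENNReal.toReal_nonneg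

theorem lvl_nonneg (n : ℕ) {ι : Type} (Q : ι → USq) (k : ℤ) : 0 ≤ lvl n Q k :=
  Finset.sum_nonneg fun _ _ => om_nonneg Q _

theorem lvl_eq (n : ℕ) {ι : Type} (Q : ι → USq) (k : ℤ) : lvl n Q k = ∑ j ∈ J n, om Q (j, k) := rfl

theorem d_nonneg {ι : Type} (Q : ι → USq) (k j : ℤ) : 0 ≤ d Q k j :=
  mul_nonneg (mul_nonneg (by norm_num) C0_pos.le) (om_nonneg Q _)

theorem b_le {ι : Type} (Q : ι → USq) (k j : ℤ) : |b Q k j| ≤ 1 / 4 := bet_le Q _

theorem gam_good {ι : Type} {Q : ι → USq} {τ : ℝ} {k j : ℤ} (h : G Q τ k j) :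
    gam Q (j, k) = |bet Q (j, k)| := by
  unfold gam
  rw [if_pos h.1]

theorem good_of_le {ι : Type} {Q : ι → USq} {τ : ℝ} (h1 : τ < 1 / 4) {k j : ℤ}
    (h : gam Q (j, k) ≤ τ) : G Q τ k j := by
  refine ⟨?_, h⟩
  by_contra hn
  have : gam Q (j, k) = 1 / 4 := by
    unfold gam
    rw [if_neg hn]
  linarith

theorem ka_good {ι : Type} {Q : ι → USq} {τ : ℝ} {k j : ℤ} (h : G Q τ k j) :
    ka Q τ k j = 2 * π * (√(1 + bet Q (j, k) ^ 2) - 1) := by
  unfold ka
  rw [min_eq_left h.2, gam_good h, sq_abs]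

theorem ka_nonneg {ι : Type} (Q : ι → USq) (τ : ℝ) (k j : ℤ) : 0 ≤ ka Q τ k j := by
  have : 1 ≤ √(1 + (min (gam Q (j, k)) τ) ^ 2) := Real.one_le_sqrt.2 (by nlinarith [sq_nonneg (min (gam Q (j, k)) τ)])
  exact mul_nonneg (by positivity) (by linarith)

section

variable {n : ℕ} {ι : Type} [Countable ι] {Q : ι → USq} {W : ℝ}

theorem hc (h : PP n Q W) (τ : ℝ) (k j : ℤ) (h1 : G Q τ k j) (h2 : G Q τ k (j + 1)) :
    |b Q k j - b Q k (j + 1)| ≤ d Q k j + d Q k (j + 1) := by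
  have := bet_close h (j, k) (j + 1, k) (by simp) (by simp) h1.1 h2.1
  unfold b d
  linarith

/-- core sets -/
def SS (Q : ι → USq) (τ : ℝ) (k : ℤ) (P : Set ℝ) : ℤ → Set ℝ := S P (G Q τ k) (d Q k)

/-- translated core sets -/
def TT (Q : ι → USq) (τ : ℝ) (k : ℤ) (P : Set ℝ) : ℤ → Set ℝ := T (SS Q τ k P) (b Q k)

/-- new alive set -/
def P' (n : ℕ) (Q : ι → USq) (τ : ℝ) (k : ℤ) (P : Set ℝ) : Set ℝ := ⋃ j ∈ J n, TT Q τ k P j

/-- new piecewise function -/
noncomputable def pf (n : ℕ) (Q : ι → USq) (τ : ℝ) (k : ℤ) (P : Set ℝ) (f : ℤ → ℝ → ℝ) : ℝ → ℝ :=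
  pw (J n) (TT Q τ k P) f

omit [Countable ι] in
theorem meas_SS {P : Set ℝ} (hP : MeasurableSet P) (τ : ℝ) (k j : ℤ) :
    MeasurableSet (SS Q τ k P j) := measurableSet_S hP _ _ _

omit [Countable ι] in
theorem meas_TT {P : Set ℝ} (hP : MeasurableSet P) (τ : ℝ) (k j : ℤ) :
    MeasurableSet (TT Q τ k P j) := measurableSet_T (meas_SS hP τ k j) _

omit [Countable ι] in
theorem dSS {P : Set ℝ} {τ : ℝ} {k : ℤ} (i j : ℤ) (hij : i ≠ j) :
    Disjoint (SS Q τ k P i) (SS Q τ k P j) := disj_S (d_nonneg Q k) hij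

theorem dTT (h : PP n Q W) {P : Set ℝ} {τ : ℝ} {k : ℤ} (i j : ℤ) (hij : i ≠ j) :
    Disjoint (TT Q τ k P i) (TT Q τ k P j) := disj_T (d_nonneg Q k) (b_le Q k) (hc h τ k) hij

omit [Countable ι] in
theorem SS_sub {P : Set ℝ} {τ : ℝ} {k : ℤ} (j : ℤ) : SS Q τ k P j ⊆ P := fun _ hX => hX.2.1

omit [Countable ι] in
theorem SS_floor {P : Set ℝ} {τ : ℝ} {k j : ℤ} {X : ℝ} (hX : X ∈ SS Q τ k P j) : ⌊X⌋ = j :=
  floor_S (d_nonneg Q k) hX

omit [Countable ι] in
theorem SS_sub_Ico {P : Set ℝ} {τ : ℝ} {k : ℤ} (j : ℤ) : SS Q τ k P j ⊆ Set.Ico (j : ℝ) (j + 1) := by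
  intro X hX
  have := (Int.floor_eq_iff.1 (SS_floor hX))
  exact this

omit [Countable ι] in
theorem vol_SS {P : Set ℝ} {τ : ℝ} {k : ℤ} (j : ℤ) : volume (SS Q τ k P j) ≤ 1 := by
  calc volume (SS Q τ k P j) ≤ volume (Set.Ico (j : ℝ) (j + 1)) := measure_mono (SS_sub_Ico j)
    _ = 1 := by rw [Real.volume_Ico]; simp

theorem pf_eq (h : PP n Q W) {P : Set ℝ} {τ : ℝ} {k j : ℤ} (hj : j ∈ J n) {X : ℝ}
    (hX : X ∈ TT Q τ k P j) (f : ℤ → ℝ → ℝ) : pf n Q τ k P f X = f j X :=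
  pw_eq (fun i j hij => dTT h i j hij) f hj hX

omit [Countable ι] in
theorem meas_pf {P : Set ℝ} (hP : MeasurableSet P) (τ : ℝ) (k : ℤ) {f : ℤ → ℝ → ℝ}
    (hf : ∀ j, Measurable (f j)) : Measurable (pf n Q τ k P f) :=
  measurable_pw (fun j => meas_TT hP τ k j) hf

theorem lint_pf (h : PP n Q W) {P : Set ℝ} (hP : MeasurableSet P) (τ : ℝ) (k : ℤ)
    (f : ℤ → ℝ → ℝ) : ∫⁻ X in P' n Q τ k P, ENNReal.ofReal (pf n Q τ k P f X) =
      ∑ j ∈ J n, ∫⁻ X in SS Q τ k P j, ENNReal.ofReal (f j (X - b Q k j)) := by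
  unfold P' TT
  rw [lint (fun j => meas_SS hP τ k j) (fun i j hij => dTT h i j hij)]
  refine Finset.sum_congr rfl fun j hj => ?_
  refine setLIntegral_congr_fun (meas_SS hP τ k j) fun X hX => ?_
  have hX' : X - b Q k j ∈ TT Q τ k P j := by
    change X - b Q k j + b Q k j ∈ SS Q τ k P j
    simpa using hX
  simp only [pf_eq h hj hX' f]

theorem vol_P' (h : PP n Q W) {P : Set ℝ} (hP : MeasurableSet P) (τ : ℝ) (k : ℤ) :
    volume (P' n Q τ k P) = ∑ j ∈ J n, volume (SS Q τ k P j) := by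
  have := vol (J := J n) (S := SS Q τ k P) (b := b Q k) (fun j => meas_SS hP τ k j)
    (fun i j hij => dTT h i j hij) MeasurableSet.univ
  simpa [P', TT] using this

omit [Countable ι] in
theorem mem_P' {P : Set ℝ} {τ : ℝ} {k : ℤ} {X : ℝ} (hX : X ∈ P' n Q τ k P) :
    ∃ j ∈ J n, X ∈ TT Q τ k P j := by
  unfold P' at hX
  simpa using hX

/-! ### the fields -/

variable {τ : ℝ} {k : ℤ} {P : Set ℝ} {Λ Er m : ℝ → ℝ} {s e : ℝ}

omit [Countable ι] in
theorem measP' (hF : FS n Q τ k P Λ Er m s e) : MeasurableSet (P' n Q τ k P) :=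
  Finset.measurableSet_biUnion _ fun j _ => meas_TT hF.measP τ k j

/-- new phase -/
noncomputable def fΛ (Q : ι → USq) (τ : ℝ) (k : ℤ) (Λ : ℝ → ℝ) (j : ℤ) (X : ℝ) : ℝ :=
  Λ (X + b Q k j) + ka Q τ k j

/-- error of one step -/
noncomputable def step (Q : ι → USq) (τ : ℝ) (k : ℤ) (j : ℤ) (X : ℝ) : ℂ :=
  F Q (X - b Q k j, (k : ℝ) + 1) -
    Complex.exp (Complex.I * (ka Q τ k j : ℝ)) * F Q (X, (k : ℝ))

/-- new error -/
noncomputable def fE (Q : ι → USq) (τ : ℝ) (k : ℤ) (Er : ℝ → ℝ) (j : ℤ) (X : ℝ) : ℝ :=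
  Er (X + b Q k j) + ‖step Q τ k j (X + b Q k j)‖

/-- new potential -/
noncomputable def fm (Q : ι → USq) (k : ℤ) (m : ℝ → ℝ) (j : ℤ) (X : ℝ) : ℝ :=
  m (X + b Q k j) + 4 * C0 * (om Q (j, k) + om Q (⌊X⌋, k + 1))

omit [Countable ι] in
theorem meas_fΛ (hF : FS n Q τ k P Λ Er m s e) (j : ℤ) : Measurable (fΛ Q τ k Λ j) :=
  (hF.measΛ.comp (measurable_id.add_const _)).add_const _

theorem meas_step (h : PP n Q W) (τ : ℝ) (k j : ℤ) : Measurable (step Q τ k j) := by
  have hm := measurable_F h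
  unfold step
  exact (hm.comp ((measurable_id.sub_const _).prodMk measurable_const)).sub
    (measurable_const.mul (hm.comp (measurable_id.prodMk measurable_const)))

theorem meas_fE (h : PP n Q W) (hF : FS n Q τ k P Λ Er m s e) (j : ℤ) :
    Measurable (fE Q τ k Er j) :=
  (hF.measEr.comp (measurable_id.add_const _)).add
    ((meas_step h τ k j).comp (measurable_id.add_const _)).norm

omit [Countable ι] in
theorem meas_om (Q : ι → USq) (k : ℤ) (c : ℝ) : Measurable (fun X : ℝ => om Q (⌊X - c⌋, k)) :=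
  (measurable_of_countable (fun j : ℤ => om Q (j, k))).comp
    (Int.measurable_floor.comp (measurable_id.sub_const _))

omit [Countable ι] in
theorem meas_fm (hF : FS n Q τ k P Λ Er m s e) (j : ℤ) : Measurable (fm Q k m j) := by
  have := meas_om Q (k + 1) 0
  simp only [sub_zero] at this
  exact (hF.measm.comp (measurable_id.add_const _)).add
    (measurable_const.mul (measurable_const.add this))

omit [Countable ι] in
theorem mem_J_of_mem (hk : -1 ≤ k) (hk2 : k ≤ n + 1) (X : ℝ)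
    (h1 : -((k : ℝ) + 2) / 4 ≤ X) (h2 : X ≤ (n : ℝ) + 1 / 2 + ((k : ℝ) + 2) / 4) : ⌊X⌋ ∈ J n := by
  have hk' : (-1 : ℝ) ≤ k := by exact_mod_cast hk
  have hk2' : (k : ℝ) ≤ n + 1 := by exact_mod_cast hk2
  have hn : (0 : ℝ) ≤ n := Nat.cast_nonneg n
  unfold J
  rw [Finset.mem_Icc, Int.le_floor, ← Int.lt_add_one_iff, Int.floor_lt]
  push_cast
  constructor <;> linarith

omit [Countable ι] in
theorem sub_P' (hF : FS n Q τ k P Λ Er m s e) :
    P' n Q τ k P ⊆ Set.Icc (-((k : ℝ) + 2) / 4) ((n : ℝ) + 1 / 2 + ((k : ℝ) + 2) / 4) := by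
  intro X hX
  obtain ⟨j, _, hj⟩ := mem_P' hX
  have h1 : X + b Q k j ∈ P := SS_sub j hj
  have h2 := hF.sub h1
  have h3 := abs_le.1 (b_le Q k j)
  exact ⟨by linarith [h2.1], by linarith [h2.2]⟩

theorem Λ'_nonneg (h : PP n Q W) (hF : FS n Q τ k P Λ Er m s e) (X : ℝ)
    (hX : X ∈ P' n Q τ k P) : 0 ≤ pf n Q τ k P (fΛ Q τ k Λ) X := by
  obtain ⟨j, hJ, hj⟩ := mem_P' hX
  rw [pf_eq h hJ hj]
  exact add_nonneg (hF.Λ_nonneg _ (SS_sub j hj)) (ka_nonneg Q τ k j)

theorem Er'_nonneg (h : PP n Q W) (hF : FS n Q τ k P Λ Er m s e) (X : ℝ)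
    (hX : X ∈ P' n Q τ k P) : 0 ≤ pf n Q τ k P (fE Q τ k Er) X := by
  obtain ⟨j, hJ, hj⟩ := mem_P' hX
  rw [pf_eq h hJ hj]
  exact add_nonneg (hF.Er_nonneg _ (SS_sub j hj)) (norm_nonneg _)

theorem m'_ge (h : PP n Q W) (hF : FS n Q τ k P Λ Er m s e) (X : ℝ)
    (hX : X ∈ P' n Q τ k P) : gam Q (⌊X⌋, k + 1) ≤ pf n Q τ k P (fm Q k m) X := by
  obtain ⟨j, hJ, hj⟩ := mem_P' hX
  rw [pf_eq h hJ hj]
  have h1 := hF.m_ge _ (SS_sub j hj)
  have h0 : ⌊X + b Q k j⌋ = j := SS_floor hj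
  rw [h0] at h1
  have h2 := Int.floor_eq_iff.1 h0
  have h3 := abs_le.1 (b_le Q k j)
  have h4 : |j - ⌊X⌋| ≤ 1 := by
    rw [abs_le]
    constructor
    · have : ⌊X⌋ < j + 2 := by
        rw [Int.floor_lt]
        push_cast
        linarith [h2.2]
      omega
    · have : j - 1 ≤ ⌊X⌋ := by
        rw [Int.le_floor]
        push_cast
        linarith [h2.1]
      omega
  have h5 := gam_close h (j, k) (⌊X⌋, k + 1) h4 (by simp)
  have h6 := (abs_le.1 h5).1
  unfold fm
  linarith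

theorem phase' (h : PP n Q W) (hF : FS n Q τ k P Λ Er m s e) (X : ℝ)
    (hX : X ∈ P' n Q τ k P) :
    ‖F Q (X, (k : ℝ) + 1) + Complex.exp (Complex.I * (pf n Q τ k P (fΛ Q τ k Λ) X : ℝ))‖ ≤
      pf n Q τ k P (fE Q τ k Er) X := by
  obtain ⟨j, hJ, hj⟩ := mem_P' hX
  rw [pf_eq h hJ hj, pf_eq h hJ hj]
  have h1 := hF.phase _ (SS_sub j hj)
  unfold fΛ fE step
  have e1 : F Q (X, (k : ℝ) + 1) +
      Complex.exp (Complex.I * ((Λ (X + b Q k j) + ka Q τ k j : ℝ) : ℂ)) =
      Complex.exp (Complex.I * (ka Q τ k j : ℝ)) * (F Q (X + b Q k j, (k : ℝ)) +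
        Complex.exp (Complex.I * (Λ (X + b Q k j) : ℝ))) +
      (F Q (X + b Q k j - b Q k j, (k : ℝ) + 1) -
        Complex.exp (Complex.I * (ka Q τ k j : ℝ)) * F Q (X + b Q k j, (k : ℝ))) := by
    rw [add_sub_cancel_right]
    push_cast
    rw [mul_add Complex.I, Complex.exp_add]
    ring
  rw [e1]
  refine (norm_add_le _ _).trans (add_le_add ?_ le_rfl)
  rw [norm_mul]
  have e2 : ‖Complex.exp (Complex.I * (ka Q τ k j : ℝ))‖ = 1 := by
    rw [mul_comm, Complex.norm_exp_ofReal_mul_I]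
  rw [e2, one_mul]
  exact h1

theorem err' (h : PP n Q W) (hs : 0 ≤ s) (hF : FS n Q τ k P Λ Er m s e) :
    ∫⁻ X in P' n Q τ k P, ENNReal.ofReal (pf n Q τ k P (fE Q τ k Er) X) ≤
      ENNReal.ofReal (10 ^ 20 * (s + lvl n Q k)) := by
  rw [lint_pf h hF.measP]
  have h1 : ∀ j ∈ J n, ∫⁻ X in SS Q τ k P j, ENNReal.ofReal (fE Q τ k Er j (X - b Q k j)) ≤
      (∫⁻ X in SS Q τ k P j, ENNReal.ofReal (Er X)) + ENNReal.ofReal (10 ^ 20 * om Q (j, k)) := by
    intro j _
    have e1 : ∀ X, ENNReal.ofReal (fE Q τ k Er j (X - b Q k j)) ≤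
        ENNReal.ofReal (Er X) + ‖step Q τ k j X‖ₑ := by
      intro X
      unfold fE
      rw [sub_add_cancel, ← ofReal_norm]
      exact ENNReal.ofReal_add_le
    refine (lintegral_mono e1).trans ?_
    rw [lintegral_add_left hF.measEr.ennreal_ofReal]
    refine add_le_add le_rfl ?_
    by_cases hG : G Q τ k j
    · refine (lintegral_mono_set (t := Set.Icc (j : ℝ) (j + 1)) ?_).trans ?_
      · exact (SS_sub_Ico j).trans Set.Ico_subset_Icc_self
      · have := one_step h (j, k) hG.1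
        rw [← ka_good hG] at this
        exact this
    · have : SS Q τ k P j = ∅ := by
        ext X
        simp only [Set.mem_empty_iff_false, iff_false]
        exact fun hX => hG hX.1
      rw [this]
      simp
  refine (Finset.sum_le_sum h1).trans ?_
  rw [Finset.sum_add_distrib]
  have h2 := (sum_lint_le (J := J n) (S := SS Q τ k P) (P := P) (fun j => meas_SS hF.measP τ k j) (fun i j hij => dSS i j hij)
    (fun j => SS_sub j) (fun X => ENNReal.ofReal (Er X))).trans hF.err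
  have h3 : ∑ j ∈ J n, ENNReal.ofReal (10 ^ 20 * om Q (j, k)) =
      ENNReal.ofReal (10 ^ 20 * lvl n Q k) := by
    rw [lvl_eq, Finset.mul_sum, ENNReal.ofReal_sum_of_nonneg]
    exact fun j _ => mul_nonneg (by positivity) (om_nonneg Q _)
  rw [h3, mul_add, ENNReal.ofReal_add (by positivity)
    (mul_nonneg (by positivity) (lvl_nonneg n Q k))]
  exact add_le_add h2 le_rfl

theorem en' (h : PP n Q W) (he : 0 ≤ e) (hF : FS n Q τ k P Λ Er m s e) :
    ∫⁻ X in P' n Q τ k P, ENNReal.ofReal (pf n Q τ k P (fΛ Q τ k Λ) X) ≤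
      ENNReal.ofReal (π * (e + elvl n Q τ k)) := by
  classical
  rw [lint_pf h hF.measP]
  have h1 : ∀ j ∈ J n, ∫⁻ X in SS Q τ k P j, ENNReal.ofReal (fΛ Q τ k Λ j (X - b Q k j)) ≤
      (∫⁻ X in SS Q τ k P j, ENNReal.ofReal (Λ X)) +
        ENNReal.ofReal (π * (if nice Q (j, k) ∧ gam Q (j, k) ≤ τ then bet Q (j, k) ^ 2 else 0)) := by
    intro j _
    by_cases hG : G Q τ k j
    · have e1 : ∀ X, ENNReal.ofReal (fΛ Q τ k Λ j (X - b Q k j)) ≤
          ENNReal.ofReal (Λ X) + ENNReal.ofReal (ka Q τ k j) := by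
        intro X
        unfold fΛ
        rw [sub_add_cancel]
        exact ENNReal.ofReal_add_le
      refine (lintegral_mono e1).trans ?_
      rw [lintegral_add_left hF.measΛ.ennreal_ofReal, lintegral_const, Measure.restrict_apply_univ]
      refine add_le_add le_rfl ?_
      rw [if_pos (show nice Q (j, k) ∧ gam Q (j, k) ≤ τ from hG)]
      calc ENNReal.ofReal (ka Q τ k j) * volume (SS Q τ k P j) ≤ ENNReal.ofReal (ka Q τ k j) * 1 :=
            mul_le_mul_right (vol_SS j) _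
        _ = ENNReal.ofReal (ka Q τ k j) := mul_one _
        _ ≤ _ := by
          refine ENNReal.ofReal_le_ofReal ?_
          rw [ka_good hG]
          have := Real.sqrt_one_add_le (x := bet Q (j, k) ^ 2) (by nlinarith [sq_nonneg (bet Q (j, k))])
          nlinarith [Real.pi_pos]
    · have : SS Q τ k P j = ∅ := by
        ext X
        simp only [Set.mem_empty_iff_false, iff_false]
        exact fun hX => hG hX.1
      rw [this]
      simp
  refine (Finset.sum_le_sum h1).trans ?_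
  rw [Finset.sum_add_distrib]
  have h2 := (sum_lint_le (J := J n) (S := SS Q τ k P) (P := P) (fun j => meas_SS hF.measP τ k j) (fun i j hij => dSS i j hij)
    (fun j => SS_sub j) (fun X => ENNReal.ofReal (Λ X))).trans hF.en
  have h3 : ∑ j ∈ J n,
      ENNReal.ofReal (π * (if nice Q (j, k) ∧ gam Q (j, k) ≤ τ then bet Q (j, k) ^ 2 else 0)) =
      ENNReal.ofReal (π * elvl n Q τ k) := by
    unfold elvl
    rw [Finset.mul_sum, ENNReal.ofReal_sum_of_nonneg]
    · rfl
    · intro j _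
      refine mul_nonneg Real.pi_pos.le ?_
      split_ifs
      · positivity
      · exact le_rfl
  have h4 : 0 ≤ elvl n Q τ k := by
    unfold elvl
    refine Finset.sum_nonneg fun j _ => ?_
    split_ifs
    · positivity
    · exact le_rfl
  rw [h3, mul_add, ENNReal.ofReal_add (mul_nonneg Real.pi_pos.le he)
    (mul_nonneg Real.pi_pos.le h4)]
  exact add_le_add h2 le_rfl

theorem left' (h : PP n Q W) (hs : 0 ≤ s) (hF : FS n Q τ k P Λ Er m s e) :
    volume (P' n Q τ k P ∩ Set.Iio 0) ≤ ENNReal.ofReal (4 * C0 * (s + lvl n Q k)) := by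
  have h0 := vol (J := J n) (S := SS Q τ k P) (b := b Q k) (fun j => meas_SS hF.measP τ k j)
    (fun i j hij => dTT h i j hij) (measurableSet_Iio (a := (0 : ℝ)))
  unfold P' TT
  rw [h0]
  have h1 : ∀ j ∈ J n, volume (SS Q τ k P j ∩ {X | X - b Q k j ∈ Set.Iio 0}) ≤
      volume (SS Q τ k P j ∩ Set.Iio 0) + ENNReal.ofReal (4 * C0 * om Q (j, k)) := by
    intro j _
    have e1 : SS Q τ k P j ∩ {X | X - b Q k j ∈ Set.Iio 0} ⊆
        (SS Q τ k P j ∩ Set.Iio 0) ∪ (SS Q τ k P j ∩ Set.Ico 0 (b Q k j)) := by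
      rintro X ⟨hX1, hX2⟩
      simp only [Set.mem_ofPred_eq, Set.mem_Iio] at hX2
      rcases lt_or_ge X 0 with hX | hX
      · exact Or.inl ⟨hX1, hX⟩
      · exact Or.inr ⟨hX1, hX, by linarith⟩
    refine (measure_mono e1).trans ((measure_union_le _ _).trans (add_le_add le_rfl ?_))
    by_cases hj : j = 0
    · subst hj
      have hw := (wall h (0, k) (-1, (k : ℝ) + 1 / 2) (fun hz => by
        have := hz.1
        norm_num at this) (by norm_num) (by norm_num) (by simp; linarith) (by simp; linarith)).2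
      refine (measure_mono Set.inter_subset_right).trans ?_
      rw [Real.volume_Ico]
      refine ENNReal.ofReal_le_ofReal ?_
      have := le_abs_self (bet Q (0, k))
      unfold b
      linarith
    · have : SS Q τ k P j ∩ Set.Ico 0 (b Q k j) = ∅ := by
        ext X
        simp only [Set.mem_inter_iff, Set.mem_Ico, Set.mem_empty_iff_false, iff_false, not_and, not_lt]
        intro hX hX0
        by_contra hlt
        push Not at hlt
        have h2 := (abs_le.1 (b_le Q k j)).2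
        have h3 : ⌊X⌋ = 0 := by
          rw [Int.floor_eq_iff]
          push_cast
          exact ⟨hX0, by linarith⟩
        exact hj ((SS_floor hX).symm.trans h3)
      rw [this]
      simp
  refine (Finset.sum_le_sum h1).trans ?_
  rw [Finset.sum_add_distrib]
  have h2 : ∑ j ∈ J n, volume (SS Q τ k P j ∩ Set.Iio 0) ≤ volume (P ∩ Set.Iio 0) := by
    refine sum_vol_le (fun j => (meas_SS hF.measP τ k j).inter measurableSet_Iio)
      (fun i j hij => (dSS i j hij).mono Set.inter_subset_left Set.inter_subset_left) ?_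
    exact fun j => Set.inter_subset_inter_left _ (SS_sub j)
  have h3 : ∑ j ∈ J n, ENNReal.ofReal (4 * C0 * om Q (j, k)) =
      ENNReal.ofReal (4 * C0 * lvl n Q k) := by
    rw [lvl_eq, Finset.mul_sum, ENNReal.ofReal_sum_of_nonneg]
    exact fun j _ => d_nonneg Q k j
  have hC := C0_pos
  rw [h3, mul_add, ENNReal.ofReal_add (by positivity)
    (mul_nonneg (by positivity) (lvl_nonneg n Q k))]
  exact add_le_add (h2.trans hF.left) le_rfl

theorem right' (h : PP n Q W) (hs : 0 ≤ s) (hF : FS n Q τ k P Λ Er m s e) :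
    volume (P' n Q τ k P ∩ Set.Ioi ((n : ℝ) + 1 / 2)) ≤
      ENNReal.ofReal (4 * C0 * (s + lvl n Q k)) := by
  have h0 := vol (J := J n) (S := SS Q τ k P) (b := b Q k) (fun j => meas_SS hF.measP τ k j)
    (fun i j hij => dTT h i j hij) (measurableSet_Ioi (a := (n : ℝ) + 1 / 2))
  unfold P' TT
  rw [h0]
  have h1 : ∀ j ∈ J n, volume (SS Q τ k P j ∩ {X | X - b Q k j ∈ Set.Ioi ((n : ℝ) + 1 / 2)}) ≤
      volume (SS Q τ k P j ∩ Set.Ioi ((n : ℝ) + 1 / 2)) + ENNReal.ofReal (4 * C0 * om Q (j, k)) := by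
    intro j _
    have e1 : SS Q τ k P j ∩ {X | X - b Q k j ∈ Set.Ioi ((n : ℝ) + 1 / 2)} ⊆
        (SS Q τ k P j ∩ Set.Ioi ((n : ℝ) + 1 / 2)) ∪
          (SS Q τ k P j ∩ Set.Ioc ((n : ℝ) + 1 / 2 + b Q k j) ((n : ℝ) + 1 / 2)) := by
      rintro X ⟨hX1, hX2⟩
      simp only [Set.mem_ofPred_eq, Set.mem_Ioi] at hX2
      rcases lt_or_ge ((n : ℝ) + 1 / 2) X with hX | hX
      · exact Or.inl ⟨hX1, hX⟩
      · exact Or.inr ⟨hX1, by linarith, hX⟩
    refine (measure_mono e1).trans ((measure_union_le _ _).trans (add_le_add le_rfl ?_))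
    by_cases hj : j = n
    · subst hj
      have hw := (wall h ((n : ℤ), k) ((n : ℝ) + 1, (k : ℝ) + 1 / 2) (fun hz => by
        have := hz.2.1
        simp only at this
        linarith) (by push_cast; linarith) (by push_cast; linarith) (by simp; linarith)
        (by simp; linarith)).2
      refine (measure_mono Set.inter_subset_right).trans ?_
      rw [Real.volume_Ioc]
      refine ENNReal.ofReal_le_ofReal ?_
      have := neg_abs_le (bet Q ((n : ℤ), k))
      unfold b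
      linarith
    · have : SS Q τ k P j ∩ Set.Ioc ((n : ℝ) + 1 / 2 + b Q k j) ((n : ℝ) + 1 / 2) = ∅ := by
        ext X
        simp only [Set.mem_inter_iff, Set.mem_Ioc, Set.mem_empty_iff_false, iff_false, not_and, not_le]
        intro hX hX0
        by_contra hlt
        push Not at hlt
        have h2 := (abs_le.1 (b_le Q k j)).1
        have h3 : ⌊X⌋ = (n : ℤ) := by
          rw [Int.floor_eq_iff]
          push_cast
          exact ⟨by linarith, by linarith⟩
        exact hj ((SS_floor hX).symm.trans h3)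
      rw [this]
      simp
  refine (Finset.sum_le_sum h1).trans ?_
  rw [Finset.sum_add_distrib]
  have h2 : ∑ j ∈ J n, volume (SS Q τ k P j ∩ Set.Ioi ((n : ℝ) + 1 / 2)) ≤
      volume (P ∩ Set.Ioi ((n : ℝ) + 1 / 2)) := by
    refine sum_vol_le (fun j => (meas_SS hF.measP τ k j).inter measurableSet_Ioi)
      (fun i j hij => (dSS i j hij).mono Set.inter_subset_left Set.inter_subset_left) ?_
    exact fun j => Set.inter_subset_inter_left _ (SS_sub j)
  have h3 : ∑ j ∈ J n, ENNReal.ofReal (4 * C0 * om Q (j, k)) =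
      ENNReal.ofReal (4 * C0 * lvl n Q k) := by
    rw [lvl_eq, Finset.mul_sum, ENNReal.ofReal_sum_of_nonneg]
    exact fun j _ => d_nonneg Q k j
  have hC := C0_pos
  rw [h3, mul_add, ENNReal.ofReal_add (by positivity)
    (mul_nonneg (by positivity) (lvl_nonneg n Q k))]
  exact add_le_add (h2.trans hF.right) le_rfl

theorem pot_step1 (h : PP n Q W) (hk : -1 ≤ k) (hk2 : k ≤ n + 1) (hF : FS n Q τ k P Λ Er m s e) :
    ∫⁻ X in P' n Q τ k P, ENNReal.ofReal (pf n Q τ k P (fm Q k m) X) ≤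
      (∑ j ∈ J n, ∫⁻ X in SS Q τ k P j, ENNReal.ofReal (m X)) +
        ENNReal.ofReal (4 * C0 * lvl n Q k) + ENNReal.ofReal (4 * C0 * lvl n Q (k + 1)) := by
  have hC := C0_pos
  have hmo : Measurable (fun X : ℝ => ENNReal.ofReal (4 * C0 * om Q (⌊X⌋, k + 1))) := by
    have := meas_om Q (k + 1) 0
    simp only [sub_zero] at this
    exact (measurable_const.mul this).ennreal_ofReal
  rw [lint_pf h hF.measP]
  have h1 : ∀ j ∈ J n, ∫⁻ X in SS Q τ k P j, ENNReal.ofReal (fm Q k m j (X - b Q k j)) ≤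
      (∫⁻ X in SS Q τ k P j, ENNReal.ofReal (m X)) + ENNReal.ofReal (4 * C0 * om Q (j, k)) +
        ∫⁻ X in SS Q τ k P j, ENNReal.ofReal (4 * C0 * om Q (⌊X - b Q k j⌋, k + 1)) := by
    intro j _
    have e1 : ∀ X, ENNReal.ofReal (fm Q k m j (X - b Q k j)) ≤
        ENNReal.ofReal (m X) + ENNReal.ofReal (4 * C0 * om Q (j, k)) +
          ENNReal.ofReal (4 * C0 * om Q (⌊X - b Q k j⌋, k + 1)) := by
      intro X
      unfold fm
      rw [sub_add_cancel, mul_add, ← add_assoc]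
      exact ENNReal.ofReal_add_le.trans (add_le_add ENNReal.ofReal_add_le le_rfl)
    refine (lintegral_mono e1).trans ?_
    rw [lintegral_add_left (hF.measm.ennreal_ofReal.add_const _),
      lintegral_add_left hF.measm.ennreal_ofReal, lintegral_const, Measure.restrict_apply_univ]
    refine add_le_add (add_le_add le_rfl ?_) le_rfl
    calc _ ≤ ENNReal.ofReal (4 * C0 * om Q (j, k)) * 1 := mul_le_mul_right (vol_SS j) _
      _ = _ := mul_one _
  refine (Finset.sum_le_sum h1).trans ?_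
  rw [Finset.sum_add_distrib, Finset.sum_add_distrib]
  refine add_le_add (add_le_add le_rfl (le_of_eq ?_)) ?_
  · rw [lvl_eq, Finset.mul_sum, ENNReal.ofReal_sum_of_nonneg]
    exact fun j _ => d_nonneg Q k j
  · rw [← lint (J := J n) (S := SS Q τ k P) (b := b Q k) (fun j => meas_SS hF.measP τ k j)
      (fun i j hij => dTT h i j hij) (fun X => ENNReal.ofReal (4 * C0 * om Q (⌊X⌋, k + 1)))]
    have hsub : (⋃ j ∈ J n, T (SS Q τ k P) (b Q k) j) ⊆ ⋃ j ∈ J n, Set.Ico (j : ℝ) (j + 1) := by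
      intro X hX
      have h2 := sub_P' hF (show X ∈ P' n Q τ k P from hX)
      have h3 := mem_J_of_mem hk hk2 X h2.1 h2.2
      simp only [Set.mem_iUnion]
      exact ⟨⌊X⌋, h3, Int.floor_le X, Int.lt_floor_add_one X⟩
    refine (lintegral_mono_set hsub).trans ?_
    rw [lintegral_biUnion_finset]
    · rw [lvl_eq, Finset.mul_sum, ENNReal.ofReal_sum_of_nonneg]
      · refine Finset.sum_le_sum fun j _ => ?_
        have e2 : ∫⁻ X in Set.Ico (j : ℝ) (j + 1), ENNReal.ofReal (4 * C0 * om Q (⌊X⌋, k + 1)) =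
            ∫⁻ _X in Set.Ico (j : ℝ) (j + 1), ENNReal.ofReal (4 * C0 * om Q (j, k + 1)) := by
          refine setLIntegral_congr_fun measurableSet_Ico fun X hX => ?_
          have : ⌊X⌋ = j := Int.floor_eq_iff.2 hX
          simp only [this]
        rw [e2, lintegral_const, Measure.restrict_apply_univ, Real.volume_Ico]
        simp
      · exact fun j _ => d_nonneg Q (k + 1) j
    · intro i _ j _ hij
      simp only [Function.onFun]
      rw [Set.disjoint_left]
      intro X hX hY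
      exact hij ((Int.floor_eq_iff.2 hX).symm.trans (Int.floor_eq_iff.2 hY))
    · exact fun j _ => measurableSet_Ico

omit [Countable ι] in
/-- bad part -/
def K1 (Q : ι → USq) (τ : ℝ) (k : ℤ) (P : Set ℝ) : Set ℝ := {X | X ∈ P ∧ τ < gam Q (⌊X⌋, k)}

omit [Countable ι] in
theorem meas_K1 (hP : MeasurableSet P) : MeasurableSet (K1 Q τ k P) := by
  have h1 : Measurable (fun X : ℝ => gam Q (⌊X⌋, k)) :=
    (measurable_of_countable (fun j : ℤ => gam Q (j, k))).comp Int.measurable_floor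
  exact hP.inter (measurableSet_lt measurable_const h1)

omit [Countable ι] in
theorem pot_step2 (h1 : τ < 1 / 4) (hk : -1 ≤ k) (hk2 : k ≤ n + 1)
    (hF : FS n Q τ k P Λ Er m s e) :
    volume P ≤ (∑ j ∈ J n, volume (SS Q τ k P j)) + volume (K1 Q τ k P) +
      ENNReal.ofReal (8 * C0 * lvl n Q k) := by
  have hC := C0_pos
  have hsub : P ⊆ (⋃ j ∈ J n, SS Q τ k P j) ∪ K1 Q τ k P ∪
      ⋃ j ∈ J n, (Set.Ico (j : ℝ) (j + d Q k j) ∪ Set.Ico ((j : ℝ) + 1 - d Q k j) (j + 1)) := by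
    intro X hX
    have h2 := hF.sub hX
    have h3 : ⌊X⌋ ∈ J n := mem_J_of_mem hk hk2 X (by linarith [h2.1]) (by linarith [h2.2])
    have h4 := Int.floor_le X
    have h5 := Int.lt_floor_add_one X
    rcases le_or_gt (gam Q (⌊X⌋, k)) τ with h6 | h6
    · by_cases h7 : (⌊X⌋ : ℝ) + d Q k ⌊X⌋ ≤ X ∧ X < ⌊X⌋ + 1 - d Q k ⌊X⌋
      · refine Or.inl (Or.inl ?_)
        simp only [Set.mem_iUnion]
        exact ⟨⌊X⌋, h3, good_of_le h1 h6, hX, h7.1, h7.2⟩
      · refine Or.inr ?_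
        simp only [Set.mem_iUnion]
        refine ⟨⌊X⌋, h3, ?_⟩
        rw [not_and_or, not_le, not_lt] at h7
        rcases h7 with h7 | h7
        · exact Or.inl ⟨h4, h7⟩
        · exact Or.inr ⟨h7, h5⟩
    · exact Or.inl (Or.inr ⟨hX, h6⟩)
  refine (measure_mono hsub).trans ((measure_union_le _ _).trans ?_)
  refine add_le_add ((measure_union_le _ _).trans (add_le_add (measure_biUnion_finset_le _ _) le_rfl)) ?_
  refine (measure_biUnion_finset_le _ _).trans ?_
  rw [lvl_eq, Finset.mul_sum, ENNReal.ofReal_sum_of_nonneg (fun j _ => by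
    have := om_nonneg Q (j, k)
    positivity)]
  refine Finset.sum_le_sum fun j _ => (measure_union_le _ _).trans ?_
  rw [Real.volume_Ico, Real.volume_Ico, ← ENNReal.ofReal_add]
  · refine ENNReal.ofReal_le_ofReal ?_
    unfold d
    linarith
  · linarith [d_nonneg Q k j]
  · linarith [d_nonneg Q k j]

omit [Countable ι] in
theorem pot_step3 (hF : FS n Q τ k P Λ Er m s e) :
    (∑ j ∈ J n, ∫⁻ X in SS Q τ k P j, ENNReal.ofReal (m X)) +
      ENNReal.ofReal τ * volume (K1 Q τ k P) ≤ ∫⁻ X in P, ENNReal.ofReal (m X) := by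
  have h1 : ENNReal.ofReal τ * volume (K1 Q τ k P) ≤
      ∫⁻ X in K1 Q τ k P, ENNReal.ofReal (m X) := by
    rw [← setLIntegral_const]
    refine setLIntegral_mono hF.measm.ennreal_ofReal fun X hX => ENNReal.ofReal_le_ofReal ?_
    exact hX.2.le.trans (hF.m_ge X hX.1)
  refine (add_le_add le_rfl h1).trans ?_
  rw [← lintegral_biUnion_finset (fun i _ j _ hij => dSS i j hij)
    (fun j _ => meas_SS hF.measP τ k j), ← lintegral_union (meas_K1 hF.measP)]
  · refine lintegral_mono_set (Set.union_subset (Set.iUnion₂_subset fun j _ => SS_sub j) ?_)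
    exact fun X hX => hX.1
  · rw [Set.disjoint_left]
    intro X hX hY
    simp only [Set.mem_iUnion] at hX
    obtain ⟨j, _, hj⟩ := hX
    have h2 := hY.2
    rw [SS_floor hj] at h2
    exact absurd hj.1.2 (not_le.2 h2)

theorem pot' (h : PP n Q W) (h0 : 0 < τ) (h1 : τ < 1 / 4) (hk : -1 ≤ k) (hk2 : k ≤ n + 1)
    (hs : 0 ≤ s) (hF : FS n Q τ k P Λ Er m s e) :
    (∫⁻ X in P' n Q τ k P, ENNReal.ofReal (pf n Q τ k P (fm Q k m) X)) +
        ENNReal.ofReal (τ * (n + 1 / 2)) ≤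
      ENNReal.ofReal τ * volume (P' n Q τ k P) +
        ENNReal.ofReal (10 * C0 * (s + lvl n Q k) + 4 * C0 * lvl n Q (k + 1)) := by
  have hC := C0_pos
  have hl := lvl_nonneg n Q k
  have hl' := lvl_nonneg n Q (k + 1)
  have s1 := pot_step1 h hk hk2 hF
  have s2 := pot_step2 h1 hk hk2 hF
  have s3 := pot_step3 hF
  have s4 := hF.pot
  rw [vol_P' h hF.measP]
  set a := ∑ j ∈ J n, ∫⁻ X in SS Q τ k P j, ENNReal.ofReal (m X) with ha
  set v := ∑ j ∈ J n, volume (SS Q τ k P j) with hv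
  set vK := volume (K1 Q τ k P) with hvK
  have hfin : ENNReal.ofReal τ * vK ≠ ⊤ := by
    refine ENNReal.mul_ne_top ENNReal.ofReal_ne_top ?_
    refine ne_of_lt (lt_of_le_of_lt (measure_mono (t := Set.Icc (-((k : ℝ) + 1) / 4)
      ((n : ℝ) + 1 / 2 + ((k : ℝ) + 1) / 4)) (fun X hX => hF.sub hX.1)) ?_)
    rw [Real.volume_Icc]
    exact ENNReal.ofReal_lt_top
  have t1 : a + ENNReal.ofReal (τ * (n + 1 / 2)) + ENNReal.ofReal τ * vK ≤
      ENNReal.ofReal τ * v + ENNReal.ofReal (2 * C0 * lvl n Q k) +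
        ENNReal.ofReal (10 * C0 * s + 4 * C0 * lvl n Q k) + ENNReal.ofReal τ * vK := by
    calc a + ENNReal.ofReal (τ * (n + 1 / 2)) + ENNReal.ofReal τ * vK
        = (a + ENNReal.ofReal τ * vK) + ENNReal.ofReal (τ * (n + 1 / 2)) := by ring
      _ ≤ (∫⁻ X in P, ENNReal.ofReal (m X)) + ENNReal.ofReal (τ * (n + 1 / 2)) :=
          add_le_add s3 le_rfl
      _ ≤ _ := s4
      _ ≤ ENNReal.ofReal τ * (v + vK + ENNReal.ofReal (8 * C0 * lvl n Q k)) +
          ENNReal.ofReal (10 * C0 * s + 4 * C0 * lvl n Q k) :=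
          add_le_add (mul_le_mul_right s2 _) le_rfl
      _ = ENNReal.ofReal τ * v + ENNReal.ofReal τ * ENNReal.ofReal (8 * C0 * lvl n Q k) +
          ENNReal.ofReal (10 * C0 * s + 4 * C0 * lvl n Q k) + ENNReal.ofReal τ * vK := by ring
      _ ≤ _ := by
          refine add_le_add (add_le_add (add_le_add le_rfl ?_) le_rfl) le_rfl
          rw [← ENNReal.ofReal_mul h0.le]
          refine ENNReal.ofReal_le_ofReal ?_
          have : 0 ≤ C0 * lvl n Q k := mul_nonneg hC.le hl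
          nlinarith
  have t2 : a + ENNReal.ofReal (τ * (n + 1 / 2)) ≤ ENNReal.ofReal τ * v +
      ENNReal.ofReal (2 * C0 * lvl n Q k) + ENNReal.ofReal (10 * C0 * s + 4 * C0 * lvl n Q k) :=
    (ENNReal.add_le_add_iff_right hfin).1 t1
  calc _ ≤ a + ENNReal.ofReal (4 * C0 * lvl n Q k) + ENNReal.ofReal (4 * C0 * lvl n Q (k + 1)) +
        ENNReal.ofReal (τ * (n + 1 / 2)) := add_le_add s1 le_rfl
    _ = (a + ENNReal.ofReal (τ * (n + 1 / 2))) + ENNReal.ofReal (4 * C0 * lvl n Q k) +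
        ENNReal.ofReal (4 * C0 * lvl n Q (k + 1)) := by ring
    _ ≤ (ENNReal.ofReal τ * v + ENNReal.ofReal (2 * C0 * lvl n Q k) +
        ENNReal.ofReal (10 * C0 * s + 4 * C0 * lvl n Q k)) + ENNReal.ofReal (4 * C0 * lvl n Q k) +
        ENNReal.ofReal (4 * C0 * lvl n Q (k + 1)) :=
        add_le_add (add_le_add t2 le_rfl) le_rfl
    _ = ENNReal.ofReal τ * v + (ENNReal.ofReal (2 * C0 * lvl n Q k) +
        ENNReal.ofReal (10 * C0 * s + 4 * C0 * lvl n Q k) + ENNReal.ofReal (4 * C0 * lvl n Q k) +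
        ENNReal.ofReal (4 * C0 * lvl n Q (k + 1))) := by ring
    _ = _ := by
        congr 1
        rw [← ENNReal.ofReal_add (by positivity) (by positivity),
          ← ENNReal.ofReal_add (by positivity) (by positivity),
          ← ENNReal.ofReal_add (by positivity) (by positivity)]
        congr 1
        ring

theorem var' (h : PP n Q W) (h0 : 0 < τ) (hk : -1 ≤ k) (hk2 : k ≤ n + 1)
    (hs : 0 ≤ s) (hF : FS n Q τ k P Λ Er m s e) :
    eVariationOn (pf n Q τ k P (fΛ Q τ k Λ)) (P' n Q τ k P) ≤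
      ENNReal.ofReal (100 * τ * C0 * (s + lvl n Q k)) := by
  have hC := C0_pos
  have hl := lvl_nonneg n Q k
  let φ : ℝ → ℝ := pf n Q τ k P (fun j X => X + b Q k j)
  have hφ : ∀ j ∈ J n, ∀ X ∈ TT Q τ k P j, φ X = X + b Q k j := fun j hj X hX =>
    pf_eq h hj hX (fun j X => X + b Q k j)
  have hmaps : Set.MapsTo φ (P' n Q τ k P) P := by
    intro X hX
    obtain ⟨j, hJ, hj⟩ := mem_P' hX
    rw [hφ j hJ X hj]
    exact SS_sub j hj
  have hmono : MonotoneOn φ (P' n Q τ k P) := by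
    intro X hX Y hY hXY
    obtain ⟨i, hI, hi⟩ := mem_P' hX
    obtain ⟨j, hJ, hj⟩ := mem_P' hY
    rw [hφ i hI X hi, hφ j hJ Y hj]
    rcases lt_trichotomy i j with hij | hij | hij
    · have h2 := SS_sub_Ico i hi
      have h3 := SS_sub_Ico j hj
      have h4 : (i : ℝ) + 1 ≤ j := by exact_mod_cast hij
      linarith [h2.2, h3.1]
    · subst hij
      linarith
    · exact absurd (order (d_nonneg Q k) (b_le Q k) (hc h τ k) hij hj hi) (not_lt.2 hXY)
  have e1 : eVariationOn (pf n Q τ k P (fΛ Q τ k Λ)) (P' n Q τ k P) =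
      eVariationOn (fun X => (Λ ∘ φ) X + ((fun x => ka Q τ k ⌊x⌋) ∘ φ) X) (P' n Q τ k P) := by
    refine eVariationOn.congr fun X hX => ?_
    obtain ⟨j, hJ, hj⟩ := mem_P' hX
    rw [pf_eq h hJ hj]
    simp only [Function.comp, hφ j hJ X hj]
    unfold fΛ
    rw [SS_floor hj]
  rw [e1]
  refine (eVar_add _ _ _).trans ?_
  have h1 : eVariationOn (Λ ∘ φ) (P' n Q τ k P) ≤ ENNReal.ofReal (100 * τ * C0 * s) :=
    (eVariationOn.comp_le_of_monotoneOn Λ φ hmono hmaps).trans hF.var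
  have h2 : eVariationOn ((fun x => ka Q τ k ⌊x⌋) ∘ φ) (P' n Q τ k P) ≤
      ENNReal.ofReal (100 * τ * C0 * lvl n Q k) := by
    refine (eVariationOn.comp_le_of_monotoneOn _ φ hmono hmaps).trans ?_
    refine (eVar_floor (ka Q τ k) (-(n : ℤ) - 6) (2 * n + 7) P ?_).trans ?_
    · intro X hX
      have h3 := hF.sub hX
      have h4 : ⌊X⌋ ∈ J n := mem_J_of_mem hk hk2 X (by linarith [h3.1]) (by linarith [h3.2])
      exact Finset.mem_Icc.1 h4
    · refine ENNReal.ofReal_le_ofReal ?_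
      have h5 : ∀ j ∈ Finset.Icc (-(n : ℤ) - 6) (2 * n + 7 - 1),
          |ka Q τ k (j + 1) - ka Q τ k j| ≤
            8 * π * τ * C0 * om Q (j, k) + 8 * π * τ * C0 * om Q (j + 1, k) := by
        intro j _
        have g1 := gam_close h (j + 1, k) (j, k) (by simp) (by simp)
        have g2 : |min (gam Q (j + 1, k)) τ - min (gam Q (j, k)) τ| ≤
            |gam Q (j + 1, k) - gam Q (j, k)| := by
          have := abs_min_sub_min_le_max (gam Q (j + 1, k)) τ (gam Q (j, k)) τ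
          simpa using this
        have g3 := sqrt_diff (u := min (gam Q (j + 1, k)) τ) (v := min (gam Q (j, k)) τ) (τ := τ)
          (le_min (gam_nonneg Q _) h0.le) (le_min (gam_nonneg Q _) h0.le) (min_le_right _ _)
          (min_le_right _ _)
        have g4 : |ka Q τ k (j + 1) - ka Q τ k j| =
            2 * π * |√(1 + (min (gam Q (j + 1, k)) τ) ^ 2) - √(1 + (min (gam Q (j, k)) τ) ^ 2)| := by
          unfold ka
          rw [← mul_sub, abs_mul, abs_of_nonneg (show (0 : ℝ) ≤ 2 * π by positivity)]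
          congr 2
          ring
        rw [g4]
        have g5 : |√(1 + (min (gam Q (j + 1, k)) τ) ^ 2) - √(1 + (min (gam Q (j, k)) τ) ^ 2)| ≤
            τ * (4 * C0 * (om Q (j + 1, k) + om Q (j, k))) :=
          g3.trans (mul_le_mul_of_nonneg_left (g2.trans g1) h0.le)
        calc _ ≤ 2 * π * (τ * (4 * C0 * (om Q (j + 1, k) + om Q (j, k)))) :=
              mul_le_mul_of_nonneg_left g5 (by positivity)
          _ = _ := by ring
      refine (Finset.sum_le_sum h5).trans ?_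
      rw [Finset.sum_add_distrib, ← Finset.mul_sum, ← Finset.mul_sum]
      have h6 : ∑ j ∈ Finset.Icc (-(n : ℤ) - 6) (2 * n + 7 - 1), om Q (j, k) ≤ lvl n Q k := by
        refine Finset.sum_le_sum_of_subset_of_nonneg ?_ fun j _ _ => om_nonneg Q _
        exact Finset.Icc_subset_Icc le_rfl (by omega)
      have h7 : ∑ j ∈ Finset.Icc (-(n : ℤ) - 6) (2 * n + 7 - 1), om Q (j + 1, k) ≤ lvl n Q k := by
        rw [← Finset.sum_image (s := Finset.Icc (-(n : ℤ) - 6) (2 * n + 7 - 1))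
          (g := fun j : ℤ => j + 1) (f := fun j => om Q (j, k))
          (fun i _ j _ hij => by simpa using hij)]
        refine Finset.sum_le_sum_of_subset_of_nonneg ?_ fun j _ _ => om_nonneg Q _
        intro j hj
        rw [Finset.mem_image] at hj
        obtain ⟨i, hi, rfl⟩ := hj
        rw [Finset.mem_Icc] at hi ⊢
        omega
      have h8 : 0 ≤ τ * C0 * lvl n Q k := by positivity
      calc _ ≤ 8 * π * τ * C0 * lvl n Q k + 8 * π * τ * C0 * lvl n Q k :=
            add_le_add (mul_le_mul_of_nonneg_left h6 (by positivity))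
              (mul_le_mul_of_nonneg_left h7 (by positivity))
        _ = 16 * π * (τ * C0 * lvl n Q k) := by ring
        _ ≤ 100 * (τ * C0 * lvl n Q k) :=
            mul_le_mul_of_nonneg_right (by nlinarith [Real.pi_lt_four]) h8
        _ = _ := by ring
  refine (add_le_add h1 h2).trans (le_of_eq ?_)
  rw [← ENNReal.ofReal_add (by positivity) (by positivity)]
  congr 1
  ring

end

end FlowStep

open FlowStep in
/-- T16b: one step of the flow. -/
theorem flow_step {n : ℕ} {ι : Type} [Countable ι] {Q : ι → USq} {W : ℝ} (h : PP n Q W)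
    (τ : ℝ) (h0 : 0 < τ) (h1 : τ < 1 / 4) (k : ℤ) (hk : -1 ≤ k) (hk2 : k ≤ n + 1)
    (P : Set ℝ) (Λ Er m : ℝ → ℝ) (s e : ℝ) (hs : 0 ≤ s) (he : 0 ≤ e)
    (hF : FS n Q τ k P Λ Er m s e) :
    ∃ (P' : Set ℝ) (Λ' Er' m' : ℝ → ℝ),
      FS n Q τ (k + 1) P' Λ' Er' m' (s + lvl n Q k) (e + elvl n Q τ k) := by
  refine ⟨FlowStep.P' n Q τ k P, pf n Q τ k P (fΛ Q τ k Λ), pf n Q τ k P (fE Q τ k Er),
    pf n Q τ k P (fm Q k m), ?_⟩
  exact
    { measP := measP' hF
      measΛ := meas_pf hF.measP τ k fun j => meas_fΛ hF j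
      measEr := meas_pf hF.measP τ k fun j => meas_fE h hF j
      measm := meas_pf hF.measP τ k fun j => meas_fm hF j
      sub := by
        intro X hX
        have := sub_P' hF hX
        push_cast
        exact ⟨by linarith [this.1], by linarith [this.2]⟩
      Λ_nonneg := Λ'_nonneg h hF
      Er_nonneg := Er'_nonneg h hF
      m_ge := m'_ge h hF
      phase := by
        intro X hX
        have := phase' h hF X hX
        push_cast
        exact this
      err := err' h hs hF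
      pot := pot' h h0 h1 hk hk2 hs hF
      left := left' h hs hF
      right := right' h hs hF
      var := var' h h0 hk hk2 hs hF
      en := en' h he hF }

end H282R4.PK
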