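import Pool.Agent.H282R4.PK.Defs

/-! Module SumOm (helper927): the windows of a finite set of cells waste at most `121 W`. -/

namespace H282R4.PK

open MeasureTheory
open scoped Real ENNReal
open H282R3.SQ (USq)

private lemma measurable_cell (c : ℤ × ℤ) : MeasurableSet (cell c) := by
  have h1 : MeasurableSet {z : ℝ × ℝ | (c.1 : ℝ) ≤ z.1} :=
    measurableSet_le measurable_const measurable_fst
  have h2 : MeasurableSet {z : ℝ × ℝ | z.1 < c.1 + 1} :=
    measurableSet_lt measurable_fst measurable_const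
  have h3 : MeasurableSet {z : ℝ × ℝ | (c.2 : ℝ) ≤ z.2} :=
    measurableSet_le measurable_const measurable_snd
  have h4 : MeasurableSet {z : ℝ × ℝ | z.2 < c.2 + 1} :=
    measurableSet_lt measurable_snd measurable_const
  have : cell c = {z : ℝ × ℝ | (c.1 : ℝ) ≤ z.1} ∩ ({z : ℝ × ℝ | z.1 < c.1 + 1} ∩
      ({z : ℝ × ℝ | (c.2 : ℝ) ≤ z.2} ∩ {z : ℝ × ℝ | z.2 < c.2 + 1})) := by
    ext z; simp [cell]
  rw [this]
  exact h1.inter (h2.inter (h3.inter h4))

private lemma mem_cell_floor {c : ℤ × ℤ} {z : ℝ × ℝ} (h : z ∈ cell c) :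
    c = (⌊z.1⌋, ⌊z.2⌋) := by
  obtain ⟨h1, h2, h3, h4⟩ := h
  have e1 : ⌊z.1⌋ = c.1 := Int.floor_eq_iff.2 ⟨h1, h2⟩
  have e2 : ⌊z.2⌋ = c.2 := Int.floor_eq_iff.2 ⟨h3, h4⟩
  rw [e1, e2]

private lemma Rg_subset (c : ℤ × ℤ) :
    Rg c ⊆ ⋃ d ∈ (Finset.Icc (-5 : ℤ) 5 ×ˢ Finset.Icc (-5 : ℤ) 5), cell (c + d) := by
  intro z hz
  obtain ⟨h1, h2, h3, h4⟩ := hz
  have f1 := Int.floor_le z.1
  have f2 := Int.lt_floor_add_one z.1
  have f3 := Int.floor_le z.2
  have f4 := Int.lt_floor_add_one z.2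
  have g1 : c.1 - 5 ≤ ⌊z.1⌋ := by
    apply Int.le_floor.2; push_cast; linarith
  have g2 : ⌊z.1⌋ < c.1 + 6 := by
    apply Int.floor_lt.2; push_cast; linarith
  have g3 : c.2 - 5 ≤ ⌊z.2⌋ := by
    apply Int.le_floor.2; push_cast; linarith
  have g4 : ⌊z.2⌋ < c.2 + 6 := by
    apply Int.floor_lt.2; push_cast; linarith
  simp only [Set.mem_iUnion]
  refine ⟨(⌊z.1⌋ - c.1, ⌊z.2⌋ - c.2), ?_, ?_⟩
  · simp only [Finset.mem_product, Finset.mem_Icc]
    omega
  · simp only [cell, Set.mem_ofPred_eq, Prod.fst_add, Prod.snd_add]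
    push_cast
    refine ⟨by linarith, by linarith, by linarith, by linarith⟩

private lemma sum_cell (G : Set (ℝ × ℝ)) (Z : Finset (ℤ × ℤ)) (d : ℤ × ℤ) :
    ∑ c ∈ Z, volume (G ∩ cell (c + d)) ≤ volume G := by
  have h1 : ∀ c ∈ Z, volume (G ∩ cell (c + d)) = (volume.restrict G) (cell (c + d)) := by
    intro c _
    rw [Measure.restrict_apply (measurable_cell _), Set.inter_comm]
  rw [Finset.sum_congr rfl h1]
  have h2 : (volume.restrict G) (⋃ c ∈ Z, cell (c + d)) =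
      ∑ c ∈ Z, (volume.restrict G) (cell (c + d)) := by
    apply measure_biUnion_finset
    · intro a _ b _ hab
      apply Set.disjoint_left.2
      intro z hza hzb
      apply hab
      have := (mem_cell_floor hza).trans (mem_cell_floor hzb).symm
      exact add_right_cancel this
    · intro c _
      exact measurable_cell _
  rw [← h2]
  calc (volume.restrict G) (⋃ c ∈ Z, cell (c + d)) ≤ (volume.restrict G) Set.univ :=
        measure_mono (Set.subset_univ _)
    _ = volume G := Measure.restrict_apply_univ G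

/-- T1a: every point of the gap lies in 121 windows. -/
theorem sum_om {n : ℕ} {ι : Type} [Countable ι] {Q : ι → USq} {W : ℝ} (h : PP n Q W)
    (Z : Finset (ℤ × ℤ)) : ∑ c ∈ Z, om Q c ≤ 121 * W := by
  have hfin : volume (Gap Q) ≠ ∞ := ne_top_of_le_ne_top ENNReal.ofReal_ne_top h.gap
  have hfin' : ∀ c, volume (Gap Q ∩ Rg c) ≠ ∞ := fun c =>
    ne_top_of_le_ne_top hfin (measure_mono Set.inter_subset_left)
  have e1 : ∑ c ∈ Z, om Q c = (∑ c ∈ Z, volume (Gap Q ∩ Rg c)).toReal := by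
    rw [ENNReal.toReal_sum (fun c _ => hfin' c)]
    rfl
  have e2 : ∑ c ∈ Z, volume (Gap Q ∩ Rg c) ≤ 121 * volume (Gap Q) := by
    calc ∑ c ∈ Z, volume (Gap Q ∩ Rg c)
        ≤ ∑ c ∈ Z, ∑ d ∈ (Finset.Icc (-5 : ℤ) 5 ×ˢ Finset.Icc (-5 : ℤ) 5),
            volume (Gap Q ∩ cell (c + d)) := by
          apply Finset.sum_le_sum
          intro c _
          calc volume (Gap Q ∩ Rg c) ≤ volume (⋃ d ∈ (Finset.Icc (-5 : ℤ) 5 ×ˢ
                Finset.Icc (-5 : ℤ) 5), Gap Q ∩ cell (c + d)) := by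
                apply measure_mono
                rw [← Set.inter_iUnion₂]
                exact Set.inter_subset_inter_right _ (Rg_subset c)
            _ ≤ _ := measure_biUnion_finset_le _ _
      _ = ∑ d ∈ (Finset.Icc (-5 : ℤ) 5 ×ˢ Finset.Icc (-5 : ℤ) 5), ∑ c ∈ Z,
            volume (Gap Q ∩ cell (c + d)) := Finset.sum_comm
      _ ≤ ∑ d ∈ (Finset.Icc (-5 : ℤ) 5 ×ˢ Finset.Icc (-5 : ℤ) 5), volume (Gap Q) :=
          Finset.sum_le_sum (fun d _ => sum_cell _ _ _)
      _ = 121 * volume (Gap Q) := by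
          rw [Finset.sum_const, nsmul_eq_mul]
          simp
  rw [e1]
  calc (∑ c ∈ Z, volume (Gap Q ∩ Rg c)).toReal ≤ (121 * ENNReal.ofReal W).toReal := by
        apply ENNReal.toReal_mono
        · exact ENNReal.mul_ne_top (by simp) ENNReal.ofReal_ne_top
        · exact e2.trans (by gcongr; exact h.gap)
    _ = 121 * W := by
        rw [ENNReal.toReal_mul, ENNReal.toReal_ofReal h.W_nonneg]
        simp

end H282R4.PK
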