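import Pool.Agent.H282R4.PK.Defs
import Pool.Agent.H282R4.PK.FlowStart
import Pool.Agent.H282R4.PK.FlowStep
import Pool.Agent.H282R4.PK.SumOm

/-! The flow at all levels (induction on the level). -/

namespace H282R4.PK

open MeasureTheory
open scoped Real ENNReal
open H282R3.SQ (USq)

/-- the levels `-1, ..., t - 2` -/
private noncomputable def lv (t : ℕ) : Finset ℤ := Finset.Ico (-1) ((t : ℤ) - 1)

private theorem lv_succ (t : ℕ) : lv (t + 1) = insert ((t : ℤ) - 1) (lv t) := by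
  ext x
  simp only [lv, Finset.mem_Ico, Finset.mem_insert]
  push_cast
  omega

private theorem lv_notMem (t : ℕ) : ((t : ℤ) - 1) ∉ lv t := by
  simp [lv]

private theorem om_nonneg {ι : Type} (Q : ι → USq) (c : ℤ × ℤ) : 0 ≤ om Q c :=
  ENNReal.toReal_nonneg

private theorem lvl_nonneg {ι : Type} (n : ℕ) (Q : ι → USq) (k : ℤ) : 0 ≤ lvl n Q k :=
  Finset.sum_nonneg fun _ _ => om_nonneg _ _

private theorem elvl_nonneg {ι : Type} (n : ℕ) (Q : ι → USq) (τ : ℝ) (k : ℤ) :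
    0 ≤ elvl n Q τ k := by
  unfold elvl
  refine Finset.sum_nonneg fun j _ => ?_
  split_ifs <;> positivity

private theorem flow_aux {n : ℕ} {ι : Type} [Countable ι] {Q : ι → USq} {W : ℝ} (h : PP n Q W)
    (τ : ℝ) (h0 : 0 < τ) (h1 : τ < 1 / 4) (t : ℕ) (ht : (t : ℤ) - 1 ≤ n + 2) :
    ∃ (P : Set ℝ) (Λ Er m : ℝ → ℝ), FS n Q τ ((t : ℤ) - 1) P Λ Er m
      (∑ k ∈ lv t, lvl n Q k) (∑ k ∈ lv t, elvl n Q τ k) := by
  induction t with
  | zero =>
    have : lv 0 = ∅ := by simp [lv]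
    rw [this]
    simpa using flow_start h τ h0 h1
  | succ t ih =>
    obtain ⟨P, Λ, Er, m, hF⟩ := ih (by push_cast at ht; omega)
    have hs : 0 ≤ ∑ k ∈ lv t, lvl n Q k := Finset.sum_nonneg fun _ _ => lvl_nonneg _ _ _
    have he : 0 ≤ ∑ k ∈ lv t, elvl n Q τ k := Finset.sum_nonneg fun _ _ => elvl_nonneg _ _ _ _
    obtain ⟨P', Λ', Er', m', hF'⟩ := flow_step h τ h0 h1 ((t : ℤ) - 1) (by omega)
      (by push_cast at ht; omega) P Λ Er m _ _ hs he hF
    refine ⟨P', Λ', Er', m', ?_⟩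
    rw [lv_succ, Finset.sum_insert (lv_notMem t), Finset.sum_insert (lv_notMem t),
      add_comm (lvl n Q _), add_comm (elvl n Q τ _)]
    have e : ((t + 1 : ℕ) : ℤ) - 1 = (t : ℤ) - 1 + 1 := by push_cast; ring
    rw [e]
    exact hF'

/-- T16c: the flow at level `k`. -/
theorem flow {n : ℕ} {ι : Type} [Countable ι] {Q : ι → USq} {W : ℝ} (h : PP n Q W)
    (τ : ℝ) (h0 : 0 < τ) (h1 : τ < 1 / 4) (k : ℤ) (hk : -1 ≤ k) (hk2 : k ≤ n + 2) :
    ∃ (P : Set ℝ) (Λ Er m : ℝ → ℝ) (s e : ℝ), FS n Q τ k P Λ Er m s e ∧ 0 ≤ s ∧ 0 ≤ e ∧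
      s ≤ 121 * W ∧ lvl n Q k ≤ 121 * W ∧ e ≤ energy n Q τ := by
  obtain ⟨t, ht⟩ : ∃ t : ℕ, (t : ℤ) - 1 = k := ⟨(k + 1).toNat, by omega⟩
  subst ht
  obtain ⟨P, Λ, Er, m, hF⟩ := flow_aux h τ h0 h1 t hk2
  refine ⟨P, Λ, Er, m, _, _, hF, Finset.sum_nonneg fun _ _ => lvl_nonneg _ _ _,
    Finset.sum_nonneg fun _ _ => elvl_nonneg _ _ _ _, ?_, ?_, ?_⟩
  · have := sum_om h (Finset.Icc (-(n : ℤ) - 6) (2 * n + 7) ×ˢ lv t)
    rw [Finset.sum_product_right] at this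
    exact this
  · have := sum_om h (Finset.Icc (-(n : ℤ) - 6) (2 * n + 7) ×ˢ {(t : ℤ) - 1})
    rw [Finset.sum_product_right, Finset.sum_singleton] at this
    exact this
  · unfold energy cells
    rw [Finset.sum_product_right]
    unfold elvl
    refine Finset.sum_le_sum_of_subset_of_nonneg ?_ ?_
    · intro x hx
      simp only [lv, Finset.mem_Ico, Finset.mem_Icc] at hx ⊢
      omega
    · intro k _ _
      refine Finset.sum_nonneg fun j _ => ?_
      split_ifs <;> positivity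

end H282R4.PK
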