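import Pool.Agent.H282R4.PK.Defs
import Pool.Agent.H282R4.PK.Flow
import Pool.Agent.H282R4.PK.Fends

/-! Module Energy of project PK. -/

set_option autoImplicit false

namespace H282R4.PK

open MeasureTheory
open scoped Real ENNReal
open H282R3.SQ (USq)

namespace Energy

theorem phase_ge {Λ r : ℝ} (h0 : 0 ≤ Λ) (hr : r < 1)
    (h : ‖(1 : ℂ) + Complex.exp (Complex.I * (Λ : ℝ))‖ ≤ r) : 2 ≤ Λ := by
  by_contra hcon
  push Not at hcon
  have hpi := Real.pi_gt_three
  have h1 : -(1 / 2 : ℝ) < Real.cos Λ := by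
    have h2 : Real.cos (π - π / 3) < Real.cos Λ :=
      Real.cos_lt_cos_of_nonneg_of_le_pi h0 (by linarith) (by linarith)
    rw [Real.cos_pi_sub, Real.cos_pi_div_three] at h2
    exact h2
  have h3 : ‖(1 : ℂ) + Complex.exp (Complex.I * (Λ : ℝ))‖ ^ 2 = 2 + 2 * Real.cos Λ := by
    rw [mul_comm Complex.I, ← Complex.normSq_eq_norm_sq, Complex.normSq_apply]
    simp only [Complex.add_re, Complex.one_re, Complex.add_im, Complex.one_im,
      Complex.exp_ofReal_mul_I_re, Complex.exp_ofReal_mul_I_im]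
    have := Real.sin_sq_add_cos_sq Λ
    nlinarith
  have h4 : ‖(1 : ℂ) + Complex.exp (Complex.I * (Λ : ℝ))‖ ^ 2 < 1 := by
    have h5 : ‖(1 : ℂ) + Complex.exp (Complex.I * (Λ : ℝ))‖ < 1 := lt_of_le_of_lt h hr
    have h6 := norm_nonneg ((1 : ℂ) + Complex.exp (Complex.I * (Λ : ℝ)))
    nlinarith
  linarith

end Energy

/-- T18 -/
theorem energy_lower {n : ℕ} {ι : Type} [Countable ι] {Q : ι → USq} {W : ℝ} (h : PP n Q W)
    (τ : ℝ) (h0 : 0 < τ) (h1 : τ < 1 / 4) (hτ : 10 ^ 22 * W ≤ τ * (n + 1 / 2)) :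
    ((n : ℝ) + 1 / 2) / 20 ≤ energy n Q τ := by
  obtain ⟨P, Λ, Er, m, s, e, hFS, hs, he, hs1, hl1, he1⟩ :=
    flow h τ h0 h1 ((n : ℤ) + 2) (by omega) le_rfl
  refine le_trans ?_ he1
  obtain ⟨x, hx⟩ : ∃ x : ℝ, x = (n : ℝ) + 1 / 2 := ⟨_, rfl⟩
  have hpot := hFS.pot
  have hright := hFS.right
  have hleft := hFS.left
  have htop := F_top h
  rw [← hx] at hpot hright hτ htop ⊢
  have hx0 : 0 < x := by
    rw [hx]
    have : (0:ℝ) ≤ n := Nat.cast_nonneg _
    linarith
  have hW := h.W_nonneg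
  have hτx : τ * x ≤ x / 4 := by nlinarith
  have hτx0 : 0 < τ * x := by positivity
  -- the measure of `P` is finite
  have hPfin : volume P ≠ ⊤ := by
    refine ne_top_of_le_ne_top ?_ (measure_mono hFS.sub)
    rw [Real.volume_Icc]
    exact ENNReal.ofReal_ne_top
  obtain ⟨p, hp⟩ : ∃ p : ℝ, p = (volume P).toReal := ⟨_, rfl⟩
  have hpE : volume P = ENNReal.ofReal p := by rw [hp, ENNReal.ofReal_toReal hPfin]
  have hp0 : 0 ≤ p := by rw [hp]; exact ENNReal.toReal_nonneg
  -- lower bound for `p`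
  have hp1 : 0.999 * x ≤ p := by
    have a1 : ENNReal.ofReal (τ * x) ≤ ENNReal.ofReal τ * volume P +
        ENNReal.ofReal (10 * C0 * s + 4 * C0 * lvl n Q ((n : ℤ) + 2)) := le_trans le_add_self hpot
    rw [hpE, ← ENNReal.ofReal_mul h0.le] at a1
    have a2 : 10 * C0 * s + 4 * C0 * lvl n Q ((n : ℤ) + 2) ≤ 1694 * 10 ^ 15 * W := by
      unfold C0
      nlinarith
    have a3 := a1.trans (add_le_add_right (ENNReal.ofReal_le_ofReal a2) _)
    rw [← ENNReal.ofReal_add (by positivity) (by positivity),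
      ENNReal.ofReal_le_ofReal_iff (by positivity)] at a3
    have a4 : 1694 * 10 ^ 15 * W ≤ τ * (0.001 * x) := by nlinarith
    have a5 : τ * (0.999 * x) ≤ τ * p := by linarith
    exact le_of_mul_le_mul_left a5 h0
  have hside : ENNReal.ofReal (4 * C0 * s) ≤ ENNReal.ofReal (0.001 * x) := by
    refine ENNReal.ofReal_le_ofReal ?_
    unfold C0
    nlinarith
  -- the bad set
  have hEr : volume (P ∩ {X | 1 ≤ Er X}) ≤ ENNReal.ofReal (0.31 * x) := by
    have a1 : volume (P ∩ {X | 1 ≤ Er X}) ≤ ∫⁻ X in P, ENNReal.ofReal (Er X) := by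
      have a2 := mul_meas_ge_le_lintegral₀ (μ := volume.restrict P)
        (f := fun X => ENNReal.ofReal (Er X)) (hFS.measEr.ennreal_ofReal.aemeasurable) 1
      rw [one_mul] at a2
      refine le_trans ?_ a2
      rw [Measure.restrict_apply (measurableSet_le measurable_const hFS.measEr.ennreal_ofReal)]
      refine measure_mono ?_
      intro X hX
      refine ⟨?_, hX.1⟩
      simp only [Set.mem_ofPred_eq]
      exact ENNReal.one_le_ofReal.mpr hX.2
    refine a1.trans (hFS.err.trans (ENNReal.ofReal_le_ofReal ?_))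
    nlinarith
  -- the good set
  obtain ⟨G, hG⟩ : ∃ G : Set ℝ, G = (P ∩ Set.Ioo 0 x) ∩ {X | Er X < 1} := ⟨_, rfl⟩
  have hGmeas : MeasurableSet G := by
    rw [hG]
    exact (hFS.measP.inter measurableSet_Ioo).inter (measurableSet_lt hFS.measEr measurable_const)
  have hcover : P ⊆ (P ∩ Set.Iio 0) ∪ ((P ∩ Set.Ioi x) ∪ (({0} ∪ {x}) ∪
      ((P ∩ {X | 1 ≤ Er X}) ∪ G))) := by
    intro X hX
    rcases lt_trichotomy X 0 with a | a | a
    · exact Or.inl ⟨hX, a⟩
    · exact Or.inr (Or.inr (Or.inl (Or.inl a)))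
    rcases lt_trichotomy X x with b | b | b
    · rcases le_or_gt 1 (Er X) with c | c
      · exact Or.inr (Or.inr (Or.inr (Or.inl ⟨hX, c⟩)))
      · refine Or.inr (Or.inr (Or.inr (Or.inr ?_)))
        rw [hG]
        exact ⟨⟨hX, a, b⟩, c⟩
    · exact Or.inr (Or.inr (Or.inl (Or.inr b)))
    · exact Or.inr (Or.inl ⟨hX, b⟩)
  have hvol : ENNReal.ofReal p ≤ ENNReal.ofReal (0.001 * x) + (ENNReal.ofReal (0.001 * x) +
      (0 + (ENNReal.ofReal (0.31 * x) + volume G))) := by
    rw [← hpE]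
    refine (measure_mono hcover).trans ?_
    refine (measure_union_le _ _).trans (add_le_add (hleft.trans hside) ?_)
    refine (measure_union_le _ _).trans (add_le_add (hright.trans hside) ?_)
    refine (measure_union_le _ _).trans (add_le_add ?_ ?_)
    · refine (measure_union_le _ _).trans ?_
      simp
    · exact (measure_union_le _ _).trans (add_le_add hEr le_rfl)
  have hGfin : volume G ≠ ⊤ := by
    refine ne_top_of_le_ne_top hPfin (measure_mono ?_)
    rw [hG]
    exact fun X hX => hX.1.1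
  obtain ⟨g, hg⟩ : ∃ g : ℝ, g = (volume G).toReal := ⟨_, rfl⟩
  have hgE : volume G = ENNReal.ofReal g := by rw [hg, ENNReal.ofReal_toReal hGfin]
  have hg0 : 0 ≤ g := by rw [hg]; exact ENNReal.toReal_nonneg
  have hg1 : 0.6 * x ≤ g := by
    rw [hgE, zero_add, ← ENNReal.ofReal_add (by positivity) hg0,
      ← ENNReal.ofReal_add (by positivity) (by positivity),
      ← ENNReal.ofReal_add (by positivity) (by positivity),
      ENNReal.ofReal_le_ofReal_iff (by positivity)] at hvol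
    linarith
  -- the phase on the good set
  have hint : ENNReal.ofReal 2 * volume G ≤ ∫⁻ X in P, ENNReal.ofReal (Λ X) := by
    have hGP : G ⊆ P := by rw [hG]; exact fun X hX => hX.1.1
    refine le_trans ?_ (lintegral_mono_set hGP)
    rw [← setLIntegral_const]
    refine lintegral_mono_ae ?_
    rw [ae_restrict_iff' hGmeas]
    filter_upwards [htop] with X hX hXG
    rw [hG] at hXG
    refine ENNReal.ofReal_le_ofReal ?_
    have b1 := hFS.phase X hXG.1.1
    have b2 := hX hXG.1.2.1 hXG.1.2.2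
    have b3 : (((n : ℤ) + 2 : ℤ) : ℝ) = (n : ℝ) + 2 := by push_cast; ring
    rw [b3, b2] at b1
    exact Energy.phase_ge (hFS.Λ_nonneg X hXG.1.1) hXG.2 b1
  have hfin := hint.trans hFS.en
  rw [hgE, ← ENNReal.ofReal_mul (by norm_num), ENNReal.ofReal_le_ofReal_iff (by positivity)] at hfin
  have hpi := Real.pi_lt_four
  nlinarith

end H282R4.PK
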