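import Pool.Agent.H282R4.PK.LineF

/-! T9 (helper58): identity along one line in the row direction. -/

namespace H282R4.PK

open MeasureTheory
open scoped Real ENNReal
open H282R3.SQ (USq)

namespace LineG

open Set LineF

theorem FH_line {ι : Type} (Q : ι → USq) (I : Finset ι) (z : ℝ × ℝ)
    (hI : ∀ i, z ∈ (Q i).C → i ∈ I) :
    FH Q z = -1 + ∑ i ∈ I, (Q i).C.indicator
      (fun z => Complex.exp (2 * π * Complex.I * (Q i).X z) + 1) z := by
  have hY : ∀ i, (tr (Q i)).Y (z.2, z.1) = (Q i).X z := by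
    intro i; simp only [tr, USq.X, USq.Y]; ring
  have hX : ∀ i, (tr (Q i)).X (z.2, z.1) = (Q i).Y z := by
    intro i; simp only [tr, USq.X, USq.Y]; ring
  have hC : ∀ i, (z.2, z.1) ∈ (tr (Q i)).C ↔ z ∈ (Q i).C := by
    intro i
    show (|(tr (Q i)).X (z.2, z.1)| ≤ 1 / 2 ∧ |(tr (Q i)).Y (z.2, z.1)| ≤ 1 / 2) ↔
      (|(Q i).X z| ≤ 1 / 2 ∧ |(Q i).Y z| ≤ 1 / 2)
    rw [hX, hY]
    exact and_comm
  unfold FH
  rw [F_line (fun i => tr (Q i)) I (z.2, z.1) (fun i hi => hI i ((hC i).1 hi))]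
  congr 1
  apply Finset.sum_congr rfl
  intro i _
  by_cases h : z ∈ (Q i).C
  · rw [indicator_of_mem h, indicator_of_mem ((hC i).2 h), hY]
  · rw [indicator_of_notMem h, indicator_of_notMem (fun h' => h ((hC i).1 h'))]

theorem conj_exp (x : ℝ) : (starRingEnd ℂ) (Complex.exp (2 * π * Complex.I * x)) =
    Complex.exp (-(2 * π * Complex.I * x)) := by
  rw [← Complex.exp_conj]
  congr 1
  simp only [map_mul, Complex.conj_ofReal, Complex.conj_I, map_ofNat]
  ring

theorem exp_neg_half (y : ℝ) (hy : |y| = 1 / 2) :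
    Complex.exp (-(2 * π * Complex.I * y)) = -1 := by
  rw [← conj_exp, exp_half y hy]
  simp

/-- `Gf` at a generic point as a finite sum -/
theorem Gf_line {ι : Type} (Q : ι → USq) (I : Finset ι) (z : ℝ × ℝ)
    (hI : ∀ i, z ∈ (Q i).C → i ∈ I)
    (hg : ∀ i j, z ∈ (Q i).C → z ∈ (Q j).C → i = j ∨ (|(Q i).X z| = 1 / 2 ∧ |(Q j).X z| = 1 / 2)) :
    Gf Q z = ∑ i ∈ I, (Q i).C.indicator (fun z => Complex.exp (2 * π * Complex.I * (Q i).Y z) *
      (1 + Complex.exp (-(2 * π * Complex.I * (Q i).X z)))) z := by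
  classical
  unfold Gf
  rw [F_line Q I z hI, FH_line Q I z hI]
  by_cases h1 : ∃ i, z ∈ (Q i).C
  · obtain ⟨i, hi⟩ := h1
    by_cases h2 : ∀ j, z ∈ (Q j).C → j = i
    · have hs : ∀ f : ι → (ℝ × ℝ) → ℂ, ∑ j ∈ I, (Q j).C.indicator (f j) z = f i z := by
        intro f
        rw [Finset.sum_eq_single i, indicator_of_mem hi]
        · intro j _ hji
          exact indicator_of_notMem (fun h => hji (h2 j h)) _
        · intro h; exact absurd (hI i hi) h
      rw [hs (fun j z => Complex.exp (2 * π * Complex.I * (Q j).Y z) + 1),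
        hs (fun j z => Complex.exp (2 * π * Complex.I * (Q j).X z) + 1),
        hs (fun j z => Complex.exp (2 * π * Complex.I * (Q j).Y z) *
          (1 + Complex.exp (-(2 * π * Complex.I * (Q j).X z))))]
      simp only [map_add, map_neg, map_one, conj_exp]
      ring
    · push Not at h2
      obtain ⟨j, hj, hji⟩ := h2
      have hX : ∀ k, z ∈ (Q k).C → |(Q k).X z| = 1 / 2 := by
        intro k hk
        by_cases hki : k = i
        · rcases hg k j hk hj with h | h
          · exact absurd (h.symm.trans hki) hji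
          · exact h.1
        · rcases hg k i hk hi with h | h
          · exact absurd h hki
          · exact h.1
      have e1 : ∑ k ∈ I, (Q k).C.indicator
          (fun z => Complex.exp (2 * π * Complex.I * (Q k).X z) + 1) z = 0 := by
        apply Finset.sum_eq_zero
        intro k _
        by_cases hk : z ∈ (Q k).C
        · rw [indicator_of_mem hk, exp_half _ (hX k hk)]; ring
        · exact indicator_of_notMem hk _
      have e2 : ∑ k ∈ I, (Q k).C.indicator (fun z => Complex.exp (2 * π * Complex.I * (Q k).Y z) *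
          (1 + Complex.exp (-(2 * π * Complex.I * (Q k).X z)))) z = 0 := by
        apply Finset.sum_eq_zero
        intro k _
        by_cases hk : z ∈ (Q k).C
        · rw [indicator_of_mem hk, exp_neg_half _ (hX k hk)]; ring
        · exact indicator_of_notMem hk _
      rw [e1, e2]
      simp
  · push Not at h1
    have e0 : ∀ f : ι → (ℝ × ℝ) → ℂ, ∑ k ∈ I, (Q k).C.indicator (f k) z = 0 := by
      intro f
      apply Finset.sum_eq_zero
      intro k _
      exact indicator_of_notMem (h1 k) _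
    rw [e0 (fun k z => Complex.exp (2 * π * Complex.I * (Q k).X z) + 1),
      e0 (fun j z => Complex.exp (2 * π * Complex.I * (Q j).Y z) *
          (1 + Complex.exp (-(2 * π * Complex.I * (Q j).X z))))]
    simp

end LineG

open LineF LineG in
/-- T9: identity along one line in the row direction `u = (w.2, -w.1)`. -/
theorem line_G {n : ℕ} {ι : Type} [Countable ι] {Q : ι → USq} {W : ℝ} (h : PP n Q W)
    (z0 w : ℝ × ℝ) (hw : w.1 ^ 2 + w.2 ^ 2 = 1) (hw2 : |w.1| ≤ w.2 / 4) (ℓ : ℝ) (hℓ : 0 ≤ ℓ)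
    (I : Finset ι)
    (hI : ∀ i, ∀ s ∈ Set.Icc 0 ℓ, z0 + s • (w.2, -w.1) ∈ (Q i).C → i ∈ I)
    (hgen : ∀ᵐ s : ℝ, s ∈ Set.Icc 0 ℓ → ∀ i j, z0 + s • (w.2, -w.1) ∈ (Q i).C →
      z0 + s • (w.2, -w.1) ∈ (Q j).C → i = j)
    (hgen0 : ∀ i j, z0 ∈ (Q i).C → z0 ∈ (Q j).C →
      i = j ∨ (|(Q i).X z0| = 1 / 2 ∧ |(Q j).X z0| = 1 / 2))
    (hgen1 : ∀ i j, z0 + ℓ • (w.2, -w.1) ∈ (Q i).C → z0 + ℓ • (w.2, -w.1) ∈ (Q j).C →
      i = j ∨ (|(Q i).X (z0 + ℓ • (w.2, -w.1))| = 1 / 2 ∧
        |(Q j).X (z0 + ℓ • (w.2, -w.1))| = 1 / 2)) :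
    ‖Gf Q (z0 + ℓ • (w.2, -w.1)) * Complex.exp (2 * π * Complex.I * ℓ) - Gf Q z0 -
        2 * π * Complex.I * ∫ s in (0 : ℝ)..ℓ,
          Complex.exp (2 * π * Complex.I * s) * F Q (z0 + s • (w.2, -w.1))‖ ≤
      2 * π * (volume {s : ℝ | s ∈ Set.Icc 0 ℓ ∧ z0 + s • (w.2, -w.1) ∈ Gap Q}).toReal +
      ∑ i ∈ I, (6 * π * |(Q i).a * w.1 + (Q i).b * w.2| *
          (volume {s : ℝ | s ∈ Set.Icc 0 ℓ ∧ z0 + s • (w.2, -w.1) ∈ (Q i).C}).toReal +
        {i | ∃ s ∈ Set.Icc 0 ℓ, z0 + s • (w.2, -w.1) ∈ (Q i).C ∧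
          |(Q i).Y (z0 + s • (w.2, -w.1))| = 1 / 2}.indicator (fun _ => (4 : ℝ)) i) := by
  classical
  set u : ℝ × ℝ := (w.2, -w.1) with hu
  set κ : ι → ℝ := fun i => (Q i).a * u.1 + (Q i).b * u.2 with hκ
  set σ : ι → ℝ := fun i => -(Q i).b * u.1 + (Q i).a * u.2 with hσ
  set ψ : ι → ℝ → ℂ := fun i s =>
    Complex.exp (2 * π * Complex.I * (Q i).Y (z0 + s • u)) *
      (1 + Complex.exp (-(2 * π * Complex.I * (Q i).X (z0 + s • u)))) *
      Complex.exp (2 * π * Complex.I * s) with hψ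
  set D0 : ℝ → ℂ := fun s => 2 * π * Complex.I * Complex.exp (2 * π * Complex.I * s) with hD0
  set D : ι → ℝ → ℂ := fun i s => 2 * π * Complex.I * Complex.exp (2 * π * Complex.I * s) *
    Complex.exp (2 * π * Complex.I * (Q i).Y (z0 + s • u)) with hD
  set ψ' : ι → ℝ → ℂ := fun i s =>
    ((2 * π * Complex.I * σ i) * Complex.exp (2 * π * Complex.I * (Q i).Y (z0 + s • u)) *
      (1 + Complex.exp (-(2 * π * Complex.I * (Q i).X (z0 + s • u)))) +
      Complex.exp (2 * π * Complex.I * (Q i).Y (z0 + s • u)) *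
      (-(2 * π * Complex.I * κ i) *
        Complex.exp (-(2 * π * Complex.I * (Q i).X (z0 + s • u))))) *
      Complex.exp (2 * π * Complex.I * s) +
    Complex.exp (2 * π * Complex.I * (Q i).Y (z0 + s • u)) *
      (1 + Complex.exp (-(2 * π * Complex.I * (Q i).X (z0 + s • u)))) *
      (2 * π * Complex.I * Complex.exp (2 * π * Complex.I * s)) with hψ'
  have hYc : ∀ i, Continuous fun s : ℝ => (Q i).Y (z0 + s • u) := fun i =>
    (H282R3.SQ.continuous_Y (Q i)).comp (continuous_line z0 u)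
  have hXc : ∀ i, Continuous fun s : ℝ => (Q i).X (z0 + s • u) := fun i =>
    (H282R3.SQ.continuous_X (Q i)).comp (continuous_line z0 u)
  have hexpd : ∀ s : ℝ, HasDerivAt (fun s : ℝ => Complex.exp (2 * π * Complex.I * s))
      (2 * π * Complex.I * Complex.exp (2 * π * Complex.I * s)) s := by
    intro s
    have h1 : HasDerivAt (fun s : ℝ => (s : ℂ)) 1 s := Complex.ofRealCLM.hasDerivAt
    have h2 : HasDerivAt (fun s : ℝ => 2 * (π : ℂ) * Complex.I * s)
        (2 * (π : ℂ) * Complex.I * 1) s := h1.const_mul (2 * (π : ℂ) * Complex.I)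
    refine HasDerivAt.congr_deriv h2.cexp ?_
    ring
  have hder : ∀ i s, HasDerivAt (ψ i) (ψ' i s) s := by
    intro i s
    have h0 : HasDerivAt (fun s : ℝ => ((Q i).Y z0 + s * σ i : ℝ)) (σ i) s := by
      simpa using ((hasDerivAt_id s).mul_const (σ i)).const_add ((Q i).Y z0)
    have h1 : HasDerivAt (fun s : ℝ => (((Q i).Y (z0 + s • u) : ℝ) : ℂ)) (σ i : ℂ) s := by
      have := h0.ofReal_comp
      simpa only [Y_line] using this
    have h0' : HasDerivAt (fun s : ℝ => ((Q i).X z0 + s * κ i : ℝ)) (κ i) s := by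
      simpa using ((hasDerivAt_id s).mul_const (κ i)).const_add ((Q i).X z0)
    have h1' : HasDerivAt (fun s : ℝ => (((Q i).X (z0 + s • u) : ℝ) : ℂ)) (κ i : ℂ) s := by
      have := h0'.ofReal_comp
      simpa only [X_line] using this
    have h3 : HasDerivAt (fun s : ℝ => -(2 * (π : ℂ) * Complex.I *
        (((Q i).X (z0 + s • u) : ℝ) : ℂ))) (-(2 * (π : ℂ) * Complex.I * κ i)) s :=
      (h1'.const_mul (2 * (π : ℂ) * Complex.I)).neg
    have h4 := (((h1.const_mul (2 * (π : ℂ) * Complex.I)).cexp).mul (h3.cexp.const_add 1)).mul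
      (hexpd s)
    refine HasDerivAt.congr_deriv h4 ?_
    simp only [hψ', Pi.mul_apply]
    ring
  have hD0c : Continuous D0 := by
    rw [hD0]; fun_prop
  have hDc : ∀ i, Continuous (D i) := by
    intro i
    have := hYc i
    simp only [hD]
    fun_prop
  have hψ'c : ∀ i, Continuous (ψ' i) := by
    intro i
    have := hYc i
    have := hXc i
    simp only [hψ']
    fun_prop
  have hD0n : ∀ s, ‖D0 s‖ ≤ 2 * π := by
    intro s
    simp only [hD0]
    rw [norm_mul, norm_exp, mul_one, norm_mul, norm_mul, Complex.norm_I, mul_one]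
    simp [abs_of_pos Real.pi_pos]
  have hκσ : ∀ i, |1 - κ i| ≤ |σ i| := by
    intro i
    have h1 := (Q i).unit
    have h2 : κ i ^ 2 + σ i ^ 2 = 1 := by
      simp only [hκ, hσ, hu]
      calc ((Q i).a * w.2 + (Q i).b * -w.1) ^ 2 + (-(Q i).b * w.2 + (Q i).a * -w.1) ^ 2
          = ((Q i).a ^ 2 + (Q i).b ^ 2) * (w.1 ^ 2 + w.2 ^ 2) := by ring
        _ = 1 := by rw [h1, hw]; ring
    have h3 : 0 ≤ κ i := by
      simp only [hκ, hu]
      have hn := h.norm i
      have hw0 : |w.1| ≤ w.2 := by linarith [abs_nonneg w.1]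
      have e1 : (Q i).b * w.1 ≤ |(Q i).b| * |w.1| := by
        rw [← abs_mul]; exact le_abs_self _
      have e2 : |(Q i).b| * |w.1| ≤ (Q i).a * w.2 :=
        mul_le_mul hn hw0 (abs_nonneg _) ((abs_nonneg _).trans hn)
      linarith
    have h4 : κ i ≤ 1 := by nlinarith [sq_nonneg (σ i)]
    have h5 : |σ i| ≤ 1 := by
      rw [← sq_le_one_iff_abs_le_one]; nlinarith [sq_nonneg (κ i)]
    rw [abs_of_nonneg (by linarith)]
    have h6 : σ i ^ 2 = |σ i| ^ 2 := (sq_abs _).symm
    nlinarith [abs_nonneg (σ i)]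
  have hchord : ∀ i, ‖(K (Q i) z0 u).indicator (ψ i) ℓ - (K (Q i) z0 u).indicator (ψ i) 0 -
      ∫ s in (0 : ℝ)..ℓ, (K (Q i) z0 u).indicator (D i) s‖ ≤
      (6 * π * |(Q i).a * w.1 + (Q i).b * w.2|) *
        (volume {s : ℝ | s ∈ Set.Icc (0 : ℝ) ℓ ∧ s ∈ K (Q i) z0 u}).toReal +
      {i | ∃ s ∈ Set.Icc 0 ℓ, z0 + s • u ∈ (Q i).C ∧ |(Q i).Y (z0 + s • u)| = 1 / 2}.indicator
          (fun _ => (4 : ℝ)) i := by
    intro i
    have hσe : |(Q i).a * w.1 + (Q i).b * w.2| = |σ i| := by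
      rw [← abs_neg]; congr 1; simp only [hσ, hu]; ring
    rw [hσe]
    refine LineAux.chord (K (Q i) z0 u) {s : ℝ | z0 + s • u ∈ (Q i).O}
      {s : ℝ | |(Q i).Y (z0 + s • u)| = 1 / 2} (isClosed_K _ _ _) (ordConnected_K _ _ _)
      (isOpen_KO _ _ _) (fun s hs => H282R3.SQ.O_subset_C _ hs) (ψ i) (ψ' i) (D i) (hder i)
      (hψ'c i) (hDc i) _ ?_ ?_ ?_ ℓ hℓ _ ?_ ?_
    · intro s
      have : ψ' i s - D i s = (2 * π * Complex.I) *
          (Complex.exp (2 * π * Complex.I * (Q i).Y (z0 + s • u)) *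
            Complex.exp (2 * π * Complex.I * s)) *
          (((1 - κ i : ℝ) : ℂ) * Complex.exp (-(2 * π * Complex.I * (Q i).X (z0 + s • u))) +
            (σ i : ℂ) * (1 + Complex.exp (-(2 * π * Complex.I * (Q i).X (z0 + s • u))))) := by
        simp only [hψ', hD]
        push_cast
        ring
      rw [this, norm_mul, norm_mul, norm_mul, norm_mul _ (Complex.exp (2 * π * Complex.I * s)),
        norm_exp, norm_exp, Complex.norm_I]
      have hb : ‖((1 - κ i : ℝ) : ℂ) * Complex.exp (-(2 * π * Complex.I * (Q i).X (z0 + s • u))) +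
            (σ i : ℂ) * (1 + Complex.exp (-(2 * π * Complex.I * (Q i).X (z0 + s • u))))‖ ≤
            3 * |σ i| := by
        refine (norm_add_le _ _).trans ?_
        rw [norm_mul, norm_mul, norm_exp_neg, Complex.norm_real, Complex.norm_real,
          Real.norm_eq_abs, Real.norm_eq_abs, mul_one]
        have : ‖1 + Complex.exp (-(2 * π * Complex.I * (Q i).X (z0 + s • u)))‖ ≤ 2 := by
          refine (norm_add_le _ _).trans ?_
          rw [norm_exp_neg]; norm_num
        have := mul_le_mul_of_nonneg_left this (abs_nonneg (σ i))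
        linarith [hκσ i]
      have h2π : ‖2 * (π : ℂ)‖ = 2 * π := by
        rw [norm_mul, Complex.norm_real, Real.norm_eq_abs, abs_of_pos Real.pi_pos]; simp
      rw [h2π]
      have := mul_le_mul_of_nonneg_left hb (by positivity : (0 : ℝ) ≤ 2 * π)
      linarith
    · intro s hs hsO hsC
      have hX : |(Q i).X (z0 + s • u)| = 1 / 2 := by
        by_contra hcon
        exact hsO ⟨lt_of_le_of_ne hs.1 hcon, lt_of_le_of_ne hs.2 hsC⟩
      simp only [hψ]
      rw [exp_neg_half _ hX]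
      ring
    · intro s
      simp only [hψ]
      rw [norm_mul, norm_exp, mul_one, norm_mul, norm_exp, one_mul]
      refine (norm_add_le _ _).trans ?_
      rw [norm_exp_neg]
      norm_num
    · apply Set.indicator_nonneg
      intro _ _; norm_num
    · rintro ⟨s, hs1, hs2, hs3⟩
      exact Set.indicator_of_mem (s := {i | ∃ s ∈ Set.Icc 0 ℓ, z0 + s • u ∈ (Q i).C ∧
        |(Q i).Y (z0 + s • u)| = 1 / 2}) ⟨s, hs1, hs2, hs3⟩ _
  have hGe : ∀ s : ℝ, Gf Q (z0 + s • u) = ∑ i ∈ I, (Q i).C.indicator (fun z =>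
      Complex.exp (2 * π * Complex.I * (Q i).Y z) *
      (1 + Complex.exp (-(2 * π * Complex.I * (Q i).X z)))) (z0 + s • u) →
      Gf Q (z0 + s • u) * Complex.exp (2 * π * Complex.I * s) =
        ∑ i ∈ I, (K (Q i) z0 u).indicator (ψ i) s := by
    intro s hs
    rw [hs, Finset.sum_mul]
    apply Finset.sum_congr rfl
    intro i _
    by_cases hi : z0 + s • u ∈ (Q i).C
    · rw [Set.indicator_of_mem hi, Set.indicator_of_mem (show s ∈ K (Q i) z0 u from hi)]
    · rw [Set.indicator_of_notMem hi, Set.indicator_of_notMem (show s ∉ K (Q i) z0 u from hi),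
        zero_mul]
  have hG1 := hGe ℓ (Gf_line Q I _ (fun i hi => hI i ℓ ⟨hℓ, le_refl _⟩ hi) hgen1)
  have hG0 : Gf Q z0 = ∑ i ∈ I, (K (Q i) z0 u).indicator (ψ i) 0 := by
    have e : z0 + (0 : ℝ) • u = z0 := by simp
    have := hGe 0 (Gf_line Q I _ (fun i hi => hI i 0 ⟨le_refl _, hℓ⟩ hi) (by rw [e]; exact hgen0))
    rw [e] at this
    simpa using this
  have hKi : ∀ i (f : ℝ → ℂ), Continuous f →
      IntervalIntegrable ((K (Q i) z0 u).indicator f) volume 0 ℓ := by
    intro i f hf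
    have := (hf.intervalIntegrable (0 : ℝ) ℓ (μ := volume))
    exact ⟨this.1.indicator (isClosed_K _ _ _).measurableSet,
      this.2.indicator (isClosed_K _ _ _).measurableSet⟩
  have hFint : 2 * π * Complex.I * ∫ s in (0 : ℝ)..ℓ,
      Complex.exp (2 * π * Complex.I * s) * F Q (z0 + s • u) =
      (∑ i ∈ I, ∫ s in (0 : ℝ)..ℓ, (K (Q i) z0 u).indicator (D i) s) +
      (∑ i ∈ I, ∫ s in (0 : ℝ)..ℓ, (K (Q i) z0 u).indicator D0 s) - ∫ s in (0 : ℝ)..ℓ, D0 s := by
    rw [← intervalIntegral.integral_const_mul, ← Finset.sum_add_distrib]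
    have e1 : ∀ i ∈ I, (∫ s in (0 : ℝ)..ℓ, (K (Q i) z0 u).indicator (D i) s) +
        (∫ s in (0 : ℝ)..ℓ, (K (Q i) z0 u).indicator D0 s) =
        ∫ s in (0 : ℝ)..ℓ, ((K (Q i) z0 u).indicator (D i) s +
          (K (Q i) z0 u).indicator D0 s) := by
      intro i _
      rw [intervalIntegral.integral_add (hKi i _ (hDc i)) (hKi i _ hD0c)]
    rw [Finset.sum_congr rfl e1, ← intervalIntegral.integral_finsetSum
      (fun i _ => (hKi i _ (hDc i)).add (hKi i _ hD0c)),
      ← intervalIntegral.integral_sub (by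
        have := IntervalIntegrable.sum I (fun i _ => (hKi i _ (hDc i)).add (hKi i _ hD0c))
        have h2 : (fun x => ∑ i ∈ I, ((K (Q i) z0 u).indicator (D i) x +
            (K (Q i) z0 u).indicator D0 x)) =
            ∑ i ∈ I, ((K (Q i) z0 u).indicator (D i) + (K (Q i) z0 u).indicator D0) := by
          ext x; rw [Finset.sum_apply]; rfl
        rw [h2]; exact this) (hD0c.intervalIntegrable _ _)]
    apply intervalIntegral.integral_congr
    intro s hs
    rw [Set.uIcc_of_le hℓ] at hs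
    simp only
    rw [F_line Q I (z0 + s • u) (fun i hi => hI i s hs hi)]
    have e2 : ∀ i ∈ I, (K (Q i) z0 u).indicator (D i) s + (K (Q i) z0 u).indicator D0 s =
        D0 s * (Q i).C.indicator
          (fun z => Complex.exp (2 * π * Complex.I * (Q i).Y z) + 1) (z0 + s • u) := by
      intro i _
      by_cases hi : z0 + s • u ∈ (Q i).C
      · rw [Set.indicator_of_mem hi, Set.indicator_of_mem (show s ∈ K (Q i) z0 u from hi),
          Set.indicator_of_mem (show s ∈ K (Q i) z0 u from hi)]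
        simp only [hD, hD0]
        ring
      · rw [Set.indicator_of_notMem hi, Set.indicator_of_notMem (show s ∉ K (Q i) z0 u from hi),
          Set.indicator_of_notMem (show s ∉ K (Q i) z0 u from hi)]
        ring
    rw [Finset.sum_congr rfl e2, ← Finset.mul_sum]
    simp only [hD0]
    ring
  have hgap := LineAux.gap_part I (fun i => K (Q i) z0 u) (fun i => isClosed_K _ _ _) ℓ hℓ
    {s : ℝ | z0 + s • u ∈ Gap Q} (by
      intro s hs
      constructor
      · intro hG i _ hiK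
        exact hG (Set.mem_iUnion.2 ⟨i, hiK⟩)
      · intro hall hU
        obtain ⟨i, hi⟩ := Set.mem_iUnion.1 hU
        exact hall i (hI i s hs hi) hi) (by
      filter_upwards [hgen] with s hs hsI i _ j _ hi hj
      exact hs hsI i j hi hj) D0 hD0c (2 * π) hD0n
  have hkey : Gf Q (z0 + ℓ • u) * Complex.exp (2 * π * Complex.I * ℓ) - Gf Q z0 -
        2 * π * Complex.I * ∫ s in (0 : ℝ)..ℓ,
          Complex.exp (2 * π * Complex.I * s) * F Q (z0 + s • u) =
      -(∑ i ∈ I, (∫ s in (0 : ℝ)..ℓ, (K (Q i) z0 u).indicator D0 s) - ∫ s in (0 : ℝ)..ℓ, D0 s) +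
      ∑ i ∈ I, ((K (Q i) z0 u).indicator (ψ i) ℓ - (K (Q i) z0 u).indicator (ψ i) 0 -
        ∫ s in (0 : ℝ)..ℓ, (K (Q i) z0 u).indicator (D i) s) := by
    rw [hG1, hG0, hFint, Finset.sum_sub_distrib, Finset.sum_sub_distrib]
    ring
  rw [hkey]
  refine (norm_add_le _ _).trans (add_le_add (by rw [norm_neg]; exact hgap) ?_)
  refine (norm_sum_le _ _).trans (Finset.sum_le_sum fun i _ => ?_)
  exact hchord i

end H282R4.PK
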