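import Pool.Agent.H282R4.PK.Defs
import Pool.Agent.H282R3.SQ.Area
import Pool.Agent.H282R3.SQ.Contact
import Pool.Agent.H282R4.PK.LineG
import Pool.Agent.H282R4.PK.Fin

/-!
Module LineId of project PK: the identity along the rows, integrated over the starting point.
-/

namespace H282R4.PK

open MeasureTheory
open scoped Real ENNReal
open H282R3.SQ (USq)

namespace LineId

/-- an open square is disjoint from the closed square when the open squares are disjoint -/
theorem disj_O_C (A B : USq) (h : Disjoint A.O B.O) (z : ℝ × ℝ) (hA : z ∈ A.O)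
    (hB : z ∈ B.C) : False := by
  set f : ℝ → ℝ × ℝ := fun ε => (z.1 + ε * (B.p - z.1), z.2 + ε * (B.q - z.2)) with hf
  have hc : Continuous f := by rw [hf]; fun_prop
  have h0 : f 0 = z := by simp [hf]
  have h1 : ∀ᶠ ε in nhdsWithin (0 : ℝ) (Set.Ioi 0), f ε ∈ A.O := by
    apply (hc.tendsto 0).mono_left nhdsWithin_le_nhds
    rw [h0]
    exact (H282R3.SQ.isOpen_O A).mem_nhds hA
  have h2 : ∀ᶠ ε in nhdsWithin (0 : ℝ) (Set.Ioi 0), ε ∈ Set.Ioo (0 : ℝ) 1 :=
    Ioo_mem_nhdsGT one_pos
  obtain ⟨ε, h3, h4, h5⟩ := (h1.and h2).exists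
  have h6 : f ε ∈ B.O := by
    have hX : B.X (f ε) = (1 - ε) * B.X z := by
      simp only [hf, USq.X]
      ring
    have hY : B.Y (f ε) = (1 - ε) * B.Y z := by
      simp only [hf, USq.Y]
      ring
    have h7 := hB.1
    have h8 := hB.2
    refine ⟨?_, ?_⟩
    · rw [hX, abs_mul, abs_of_pos (by linarith)]
      nlinarith [abs_nonneg (B.X z)]
    · rw [hY, abs_mul, abs_of_pos (by linarith)]
      nlinarith [abs_nonneg (B.Y z)]
  exact Set.disjoint_left.1 h h3 h6

theorem fin_aff (c d : ℝ) (hd : d ≠ 0) : {s : ℝ | |c + s * d| = 1 / 2}.Finite := by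
  refine Set.Finite.subset (Set.toFinite ({(1 / 2 - c) / d, (-(1 / 2) - c) / d} : Set ℝ)) ?_
  intro s hs
  have hs' : |c + s * d| = 1 / 2 := hs
  rcases (abs_eq (by norm_num : (0 : ℝ) ≤ 1 / 2)).1 hs' with h | h
  · left
    rw [eq_div_iff hd]
    linarith
  · right
    rw [Set.mem_singleton_iff, eq_div_iff hd]
    linarith

theorem coordX (Q : USq) (z0 w : ℝ × ℝ) (t s : ℝ) :
    Q.X (z0 + t • w + s • (w.2, -w.1)) =
      Q.X z0 + t * (Q.a * w.1 + Q.b * w.2) + s * (Q.a * w.2 - Q.b * w.1) := by
  simp only [USq.X, Prod.fst_add, Prod.snd_add, Prod.smul_fst, Prod.smul_snd, smul_eq_mul]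
  ring

theorem coordY (Q : USq) (z0 w : ℝ × ℝ) (t s : ℝ) :
    Q.Y (z0 + t • w + s • (w.2, -w.1)) =
      Q.Y z0 + t * (Q.a * w.2 - Q.b * w.1) + s * (-(Q.a * w.1 + Q.b * w.2)) := by
  simp only [USq.Y, Prod.fst_add, Prod.snd_add, Prod.smul_fst, Prod.smul_snd, smul_eq_mul]
  ring

theorem fub (z0 w : ℝ × ℝ) (hw : w.1 ^ 2 + w.2 ^ 2 = 1) (A : Set (ℝ × ℝ))
    (hA : MeasurableSet A) :
    (Measurable fun t : ℝ => volume {s : ℝ | z0 + t • w + s • (w.2, -w.1) ∈ A}) ∧
    ∫⁻ t : ℝ, volume {s : ℝ | z0 + t • w + s • (w.2, -w.1) ∈ A} = volume A := by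
  set L := H282R3.SQ.linM w.1 w.2 w.2 (-w.1) with hL
  have hdet : LinearMap.det L = -1 := by
    rw [hL, H282R3.SQ.linM_det]; linarith
  have hLc : Continuous L := L.continuous_of_finiteDimensional
  set S : Set (ℝ × ℝ) := L ⁻¹' ((fun x => z0 + x) ⁻¹' A) with hS
  have hS1 : MeasurableSet ((fun x : ℝ × ℝ => z0 + x) ⁻¹' A) := by
    exact (measurable_const_add z0) hA
  have hSm : MeasurableSet S := hLc.measurable hS1
  have hslice : ∀ t : ℝ, {s : ℝ | z0 + t • w + s • (w.2, -w.1) ∈ A} = Prod.mk t ⁻¹' S := by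
    intro t
    ext s
    simp only [Set.mem_ofPred_eq, Set.mem_preimage, hS, hL, H282R3.SQ.linM_apply]
    have : z0 + t • w + s • (w.2, -w.1) = z0 + (w.1 * t + w.2 * s, w.2 * t + -w.1 * s) := by
      ext
      · simp only [Prod.fst_add, Prod.smul_fst, smul_eq_mul]; ring
      · simp only [Prod.snd_add, Prod.smul_snd, smul_eq_mul]; ring
    rw [this]
  simp only [hslice]
  refine ⟨measurable_measure_prodMk_left hSm, ?_⟩
  rw [← Measure.prod_apply hSm, ← Measure.volume_eq_prod, hS,
    Measure.addHaar_preimage_linearMap volume (by rw [hdet]; norm_num), hdet,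
    measure_preimage_add]
  norm_num

end LineId

open LineId in
/-- T10: integrated version. -/
theorem line_id {n : ℕ} {ι : Type} [Countable ι] {Q : ι → USq} {W : ℝ} (h : PP n Q W)
    (z0 w : ℝ × ℝ) (hw : w.1 ^ 2 + w.2 ^ 2 = 1) (hw2 : |w.1| ≤ w.2 / 4) (t1 t2 ℓ : ℝ)
    (hℓ : 0 ≤ ℓ) (B : Set (ℝ × ℝ)) (hBm : MeasurableSet B) (hB : Bornology.IsBounded B)
    (hsub : ∀ t ∈ Set.Icc t1 t2, ∀ s ∈ Set.Icc 0 ℓ, z0 + t • w + s • (w.2, -w.1) ∈ B) :
    ∫⁻ t in Set.Icc t1 t2, ‖Gf Q (z0 + t • w + ℓ • (w.2, -w.1)) *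
        Complex.exp (2 * π * Complex.I * ℓ) - Gf Q (z0 + t • w) -
        2 * π * Complex.I * ∫ s in (0 : ℝ)..ℓ,
          Complex.exp (2 * π * Complex.I * s) * F Q (z0 + t • w + s • (w.2, -w.1))‖ₑ ≤
      ENNReal.ofReal (40 * Dev Q w B) := by
  classical
  -- constants of the squares
  set σ : ι → ℝ := fun i => (Q i).a * w.1 + (Q i).b * w.2 with hσ
  set κ : ι → ℝ := fun i => (Q i).a * w.2 - (Q i).b * w.1 with hκ
  have hw2pos : 0 < w.2 := by
    rw [abs_le] at hw2
    nlinarith [hw2.1, hw2.2]
  have hκpos : ∀ i, 0 < κ i := by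
    intro i
    have h1 := h.norm i
    have h2 := (Q i).unit
    rw [abs_le] at h1 hw2
    have ha : 0 < (Q i).a := by nlinarith [h1.1, h1.2]
    have h3 : |(Q i).b * w.1| ≤ (Q i).a * (w.2 / 4) := by
      rw [abs_mul]
      exact mul_le_mul (abs_le.2 h1) (abs_le.2 hw2) (abs_nonneg _) ha.le
    rw [abs_le] at h3
    have h4 : 0 < (Q i).a * w.2 := mul_pos ha hw2pos
    simp only [hκ]
    nlinarith [h3.1, h3.2]
  have hone : ∀ i, σ i ^ 2 + κ i ^ 2 = 1 := by
    intro i
    have : σ i ^ 2 + κ i ^ 2 = ((Q i).a ^ 2 + (Q i).b ^ 2) * (w.1 ^ 2 + w.2 ^ 2) := by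
      simp only [hσ, hκ]
      ring
    rw [this, (Q i).unit, hw, one_mul]
  have cX : ∀ i t s, (Q i).X (z0 + t • w + s • (w.2, -w.1)) =
      (Q i).X z0 + t * σ i + s * κ i := fun i t s => coordX (Q i) z0 w t s
  have cY : ∀ i t s, (Q i).Y (z0 + t • w + s • (w.2, -w.1)) =
      (Q i).Y z0 + t * κ i + s * (-σ i) := fun i t s => coordY (Q i) z0 w t s
  have hz0 : ∀ t : ℝ, z0 + t • w = z0 + t • w + (0 : ℝ) • (w.2, -w.1) := by
    intro t
    rw [zero_smul, add_zero]
  -- the finitely many squares meeting `B`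
  have hfin := fin_meet h B hB
  set I : Finset ι := hfin.toFinset with hI
  -- exceptional parameters
  have hexc : ∀ᵐ t : ℝ, ∀ i, |(Q i).Y z0 + t * κ i + (0 : ℝ) * (-σ i)| ≠ 1 / 2 ∧
      |(Q i).Y z0 + t * κ i + ℓ * (-σ i)| ≠ 1 / 2 := by
    rw [ae_all_iff]
    intro i
    have h1 : ∀ c : ℝ, ∀ᵐ t : ℝ, |(Q i).Y z0 + t * κ i + c| ≠ 1 / 2 := by
      intro c
      have h2 := (fin_aff ((Q i).Y z0 + c) (κ i) (hκpos i).ne').countable.ae_notMem volume
      filter_upwards [h2] with t ht heq
      apply ht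
      show |(Q i).Y z0 + c + t * κ i| = 1 / 2
      rw [← heq]
      congr 1
      ring
    filter_upwards [h1 (0 * (-σ i)), h1 (ℓ * (-σ i))] with t h3 h4
    exact ⟨h3, h4⟩
  -- two squares at a point off the top and bottom sides
  have hpair : ∀ (z : ℝ × ℝ) (i j : ι), |(Q i).Y z| ≠ 1 / 2 → |(Q j).Y z| ≠ 1 / 2 →
      z ∈ (Q i).C → z ∈ (Q j).C → i = j ∨ (|(Q i).X z| = 1 / 2 ∧ |(Q j).X z| = 1 / 2) := by
    intro z i j hi hj hzi hzj
    by_cases hij : i = j
    · exact Or.inl hij
    · right
      constructor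
      · by_contra hne
        exact disj_O_C (Q i) (Q j) (h.disj i j hij) z
          ⟨lt_of_le_of_ne hzi.1 hne, lt_of_le_of_ne hzi.2 hi⟩ hzj
      · by_contra hne
        exact disj_O_C (Q j) (Q i) (h.disj j i (Ne.symm hij)) z
          ⟨lt_of_le_of_ne hzj.1 hne, lt_of_le_of_ne hzj.2 hj⟩ hzi
  -- the pointwise bound
  set G1 : ℝ → ℝ≥0∞ := fun t => volume {s : ℝ | z0 + t • w + s • (w.2, -w.1) ∈ Gap Q ∩ B}
    with hG1
  set Gi : ι → ℝ → ℝ≥0∞ := fun i t =>
    volume {s : ℝ | z0 + t • w + s • (w.2, -w.1) ∈ (Q i).C} with hGi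
  set m1 : ι → ℝ := fun i => κ i / 2 - σ i * (Q i).X z0 - κ i * (Q i).Y z0 with hm1
  set m2 : ι → ℝ := fun i => -(κ i / 2) - σ i * (Q i).X z0 - κ i * (Q i).Y z0 with hm2
  set T : ι → Set ℝ := fun i => Set.Icc (m1 i - |σ i| / 2) (m1 i + |σ i| / 2) ∪
    Set.Icc (m2 i - |σ i| / 2) (m2 i + |σ i| / 2) with hT
  have hTm : ∀ i, MeasurableSet (T i) := fun i => measurableSet_Icc.union measurableSet_Icc
  have hTv : ∀ i, volume (T i) ≤ ENNReal.ofReal (2 * |σ i|) := by
    intro i
    refine (measure_union_le _ _).trans ?_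
    rw [Real.volume_Icc, Real.volume_Icc, ← ENNReal.ofReal_add (by
      have := abs_nonneg (σ i); linarith) (by have := abs_nonneg (σ i); linarith)]
    apply le_of_eq
    congr 1
    ring
  have hbound : ∀ᵐ t : ℝ ∂(volume.restrict (Set.Icc t1 t2)),
      ‖Gf Q (z0 + t • w + ℓ • (w.2, -w.1)) *
        Complex.exp (2 * π * Complex.I * ℓ) - Gf Q (z0 + t • w) -
        2 * π * Complex.I * ∫ s in (0 : ℝ)..ℓ,
          Complex.exp (2 * π * Complex.I * s) * F Q (z0 + t • w + s • (w.2, -w.1))‖ₑ ≤
      ENNReal.ofReal (2 * π) * G1 t + ∑ i ∈ I, (ENNReal.ofReal (6 * π * |σ i|) * Gi i t +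
        4 * (T i).indicator (fun _ => (1 : ℝ≥0∞)) t) := by
    rw [ae_restrict_iff' measurableSet_Icc]
    filter_upwards [hexc] with t ht htI
    have hl := line_G h (z0 + t • w) w hw hw2 ℓ hℓ I ?_ ?_ ?_ ?_
    · rw [← ofReal_norm]
      refine (ENNReal.ofReal_le_ofReal hl).trans ?_
      refine (ENNReal.ofReal_add_le).trans ?_
      refine add_le_add ?_ ?_
      · rw [ENNReal.ofReal_mul (by positivity)]
        refine mul_le_mul' le_rfl ?_
        refine ENNReal.ofReal_toReal_le.trans ?_
        refine measure_mono ?_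
        rintro s ⟨hs1, hs2⟩
        exact ⟨hs2, hsub t htI s hs1⟩
      · rw [ENNReal.ofReal_sum_of_nonneg]
        · refine Finset.sum_le_sum fun i _ => ?_
          refine (ENNReal.ofReal_add_le).trans ?_
          refine add_le_add ?_ ?_
          · rw [ENNReal.ofReal_mul (by positivity)]
            refine mul_le_mul' le_rfl ?_
            refine ENNReal.ofReal_toReal_le.trans ?_
            refine measure_mono ?_
            rintro s ⟨hs1, hs2⟩
            exact hs2
          · by_cases hmem : i ∈ {i | ∃ s ∈ Set.Icc 0 ℓ, z0 + t • w + s • (w.2, -w.1) ∈ (Q i).C ∧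
                |(Q i).Y (z0 + t • w + s • (w.2, -w.1))| = 1 / 2}
            · rw [Set.indicator_of_mem hmem]
              have htT : t ∈ T i := by
                obtain ⟨s, hs, hzC, hY⟩ := hmem
                have hX := hzC.1
                rw [cX] at hX
                rw [cY] at hY
                have h1 : t = σ i * ((Q i).X z0 + t * σ i + s * κ i) +
                    κ i * ((Q i).Y z0 + t * κ i + s * (-σ i)) - σ i * (Q i).X z0 -
                    κ i * (Q i).Y z0 := by
                  linear_combination (-t) * hone i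
                have h2 : |σ i * ((Q i).X z0 + t * σ i + s * κ i)| ≤ |σ i| / 2 := by
                  rw [abs_mul]
                  have := mul_le_mul_of_nonneg_left hX (abs_nonneg (σ i))
                  linarith
                rw [abs_le] at h2
                rcases (abs_eq (by norm_num : (0 : ℝ) ≤ 1 / 2)).1 hY with h3 | h3
                · left
                  rw [h3] at h1
                  constructor
                  · rw [hm1]
                    simp only
                    linarith [h2.1]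
                  · rw [hm1]
                    simp only
                    linarith [h2.2]
                · right
                  rw [h3] at h1
                  constructor
                  · rw [hm2]
                    simp only
                    linarith [h2.1]
                  · rw [hm2]
                    simp only
                    linarith [h2.2]
              rw [Set.indicator_of_mem htT, mul_one]
              norm_num
            · rw [Set.indicator_of_notMem hmem]
              simp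
        · intro i _
          refine add_nonneg (mul_nonneg (by positivity) ENNReal.toReal_nonneg) ?_
          exact Set.indicator_nonneg (fun _ _ => by norm_num) i
    · intro i s hs hz
      rw [hI, Set.Finite.mem_toFinset]
      exact ⟨_, hz, hsub t htI s hs⟩
    · -- a.e. uniqueness on the line
      have h1 : ∀ᵐ s : ℝ, ∀ i, |(Q i).X z0 + t * σ i + s * κ i| ≠ 1 / 2 ∧
          |(Q i).Y z0 + t * κ i + s * (-σ i)| ≠ 1 / 2 := by
        rw [ae_all_iff]
        intro i
        have h2 := (fin_aff ((Q i).X z0 + t * σ i) (κ i) (hκpos i).ne').countable.ae_notMem volume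
        by_cases hσ0 : σ i = 0
        · filter_upwards [h2] with s hs
          refine ⟨hs, ?_⟩
          have h3 := (ht i).1
          rw [hσ0] at h3 ⊢
          simpa using h3
        · have h3 := (fin_aff ((Q i).Y z0 + t * κ i) (-σ i)
            (neg_ne_zero.2 hσ0)).countable.ae_notMem volume
          filter_upwards [h2, h3] with s hs hs'
          exact ⟨hs, hs'⟩
      filter_upwards [h1] with s hs _ i j hi hj
      rcases hpair _ i j (by rw [cY]; exact (hs i).2) (by rw [cY]; exact (hs j).2) hi hj with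
        h4 | h4
      · exact h4
      · have h5 := h4.1
        rw [cX] at h5
        exact absurd h5 (hs i).1
    · intro i j hi hj
      have e1 : ∀ i, |(Q i).Y (z0 + t • w)| ≠ 1 / 2 := by
        intro i
        rw [hz0 t, cY]
        exact (ht i).1
      exact hpair _ i j (e1 i) (e1 j) hi hj
    · intro i j hi hj
      have e1 : ∀ i, |(Q i).Y (z0 + t • w + ℓ • (w.2, -w.1))| ≠ 1 / 2 := by
        intro i
        rw [cY]
        exact (ht i).2
      exact hpair _ i j (e1 i) (e1 j) hi hj
  have hGm : MeasurableSet (Gap Q ∩ B) := (measurableSet_Gap h).inter hBm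
  have f1 := fub z0 w hw (Gap Q ∩ B) hGm
  have f2 := fun i => fub z0 w hw (Q i).C (H282R3.SQ.measurableSet_C (Q i))
  have hfinv : volume (Gap Q ∩ B) ≠ ⊤ :=
    ((measure_mono Set.inter_subset_right).trans_lt hB.measure_lt_top).ne
  calc _ ≤ ∫⁻ t in Set.Icc t1 t2, (ENNReal.ofReal (2 * π) * G1 t +
        ∑ i ∈ I, (ENNReal.ofReal (6 * π * |σ i|) * Gi i t +
        4 * (T i).indicator (fun _ => (1 : ℝ≥0∞)) t)) := lintegral_mono_ae hbound
    _ ≤ ∫⁻ t, (ENNReal.ofReal (2 * π) * G1 t +
        ∑ i ∈ I, (ENNReal.ofReal (6 * π * |σ i|) * Gi i t +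
        4 * (T i).indicator (fun _ => (1 : ℝ≥0∞)) t)) := setLIntegral_le_lintegral _ _
    _ = ENNReal.ofReal (2 * π) * volume (Gap Q ∩ B) +
        ∑ i ∈ I, (ENNReal.ofReal (6 * π * |σ i|) * 1 + 4 * volume (T i)) := by
        rw [lintegral_add_left (f1.1.const_mul _), lintegral_const_mul _ f1.1, f1.2,
          lintegral_finsetSum']
        · congr 1
          refine Finset.sum_congr rfl fun i _ => ?_
          rw [lintegral_add_left ((f2 i).1.const_mul _), lintegral_const_mul _ (f2 i).1,
            (f2 i).2, H282R3.SQ.volume_C, lintegral_const_mul _ (measurable_const.indicator (hTm i)),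
            lintegral_indicator (hTm i)]
          simp
        · intro i _
          exact (((f2 i).1.const_mul _).add
            ((measurable_const.indicator (hTm i)).const_mul _)).aemeasurable
    _ ≤ ENNReal.ofReal (2 * π) * ENNReal.ofReal (volume (Gap Q ∩ B)).toReal +
        ∑ i ∈ I, (ENNReal.ofReal (6 * π * |σ i|) + 4 * ENNReal.ofReal (2 * |σ i|)) := by
        rw [ENNReal.ofReal_toReal hfinv]
        refine add_le_add le_rfl (Finset.sum_le_sum fun i _ => ?_)
        rw [mul_one]
        exact add_le_add le_rfl (mul_le_mul' le_rfl (hTv i))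
    _ = ENNReal.ofReal (2 * π * (volume (Gap Q ∩ B)).toReal +
        ∑ i ∈ I, (6 * π * |σ i| + 4 * (2 * |σ i|))) := by
        have e1 : ENNReal.ofReal (2 * π) * ENNReal.ofReal (volume (Gap Q ∩ B)).toReal =
            ENNReal.ofReal (2 * π * (volume (Gap Q ∩ B)).toReal) :=
          (ENNReal.ofReal_mul (by positivity)).symm
        have e2 : ∑ i ∈ I, (ENNReal.ofReal (6 * π * |σ i|) + 4 * ENNReal.ofReal (2 * |σ i|)) =
            ENNReal.ofReal (∑ i ∈ I, (6 * π * |σ i| + 4 * (2 * |σ i|))) := by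
          rw [ENNReal.ofReal_sum_of_nonneg (fun i _ => by positivity)]
          refine Finset.sum_congr rfl fun i _ => ?_
          rw [ENNReal.ofReal_add (by positivity) (by positivity)]
          congr 1
          rw [ENNReal.ofReal_mul (show (0 : ℝ) ≤ 4 by norm_num)]
          norm_num
        rw [e1, e2, ← ENNReal.ofReal_add (by positivity) (Finset.sum_nonneg fun i _ => by positivity)]
    _ ≤ ENNReal.ofReal (40 * Dev Q w B) := by
        apply ENNReal.ofReal_le_ofReal
        unfold Dev
        rw [finsum_mem_eq_finite_toFinset_sum _ hfin, mul_add, Finset.mul_sum]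
        have hpi := Real.pi_lt_d2
        have hpi0 := Real.pi_pos
        refine add_le_add ?_ ?_
        · exact mul_le_mul_of_nonneg_right (by linarith) ENNReal.toReal_nonneg
        · apply Finset.sum_le_sum
          intro i _
          have h1 : 0 ≤ |σ i| := abs_nonneg _
          have h2 : 6 * π * |σ i| ≤ 6 * 3.15 * |σ i| :=
            mul_le_mul_of_nonneg_right (by linarith) h1
          show 6 * π * |σ i| + 4 * (2 * |σ i|) ≤ 40 * |σ i|
          linarith

end H282R4.PK
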