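import Pool.Agent.H282R4.PK.Defs
import Pool.Agent.H282R4.PK.Rig
import Pool.Agent.H282R4.PK.SlopeLem
import Pool.Agent.H282R4.PK.Fin
import Pool.Agent.H282R4.PK.Geo
import Pool.Agent.H282R4.PK.Cluster

/-! Total deviation in a box. -/

namespace H282R4.PK

open MeasureTheory
open scoped Real ENNReal
open H282R3.SQ (USq)

namespace DevBound

variable {n : ℕ} {ι : Type} {Q : ι → USq} {W : ℝ}

theorem om_nonneg (Q : ι → USq) (c : ℤ × ℤ) : 0 ≤ om Q c := ENNReal.toReal_nonneg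

theorem pathsum_nonneg (Q : ι → USq) (z c : ℤ × ℤ) : 0 ≤ pathsum Q z c :=
  add_nonneg (Finset.sum_nonneg fun _ _ => om_nonneg _ _)
    (Finset.sum_nonneg fun _ _ => om_nonneg _ _)

/-- a square meeting a neighbouring cell lies in the block -/
theorem inKg (Q : ι → USq) (c c' : ℤ × ℤ) (h1 : |c'.1 - c.1| ≤ 1) (h2 : |c'.2 - c.2| ≤ 1) (i : ι)
    (hi : ((Q i).C ∩ cell c').Nonempty) : (Q i).C ⊆ Kg c := by
  obtain ⟨x, hx, hxc⟩ := hi
  intro y hy
  obtain ⟨d1, d2⟩ := diam (Q i) x y hx hy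
  obtain ⟨e1, e2, e3, e4⟩ := hxc
  rw [abs_lt] at d1 d2
  rw [abs_le] at h1 h2
  have a1 : (c.1 : ℝ) - 1 ≤ c'.1 := by
    have : c.1 - 1 ≤ c'.1 := by omega
    exact_mod_cast this
  have a2 : (c'.1 : ℝ) ≤ c.1 + 1 := by
    have : c'.1 ≤ c.1 + 1 := by omega
    exact_mod_cast this
  have a3 : (c.2 : ℝ) - 1 ≤ c'.2 := by
    have : c.2 - 1 ≤ c'.2 := by omega
    exact_mod_cast this
  have a4 : (c'.2 : ℝ) ≤ c.2 + 1 := by
    have : c'.2 ≤ c.2 + 1 := by omega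
    exact_mod_cast this
  refine ⟨?_, ?_, ?_, ?_⟩ <;> linarith

theorem inRg (Q : ι → USq) (c : ℤ × ℤ) (i : ι)
    (hi : ((Q i).C ∩ cell c).Nonempty) : (Q i).C ⊆ Rg c := by
  obtain ⟨x, hx, hxc⟩ := hi
  intro y hy
  obtain ⟨d1, d2⟩ := diam (Q i) x y hx hy
  obtain ⟨e1, e2, e3, e4⟩ := hxc
  rw [abs_lt] at d1 d2
  refine ⟨?_, ?_, ?_, ?_⟩ <;> linarith

/-- the walk -/
theorem walk [Countable ι] (h : PP n Q W) (e : ℕ → ℤ × ℤ)
    (he : ∀ k, |(e k).1 - (e (k + 1)).1| ≤ 1 ∧ |(e k).2 - (e (k + 1)).2| ≤ 1) (i0 : ι)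
    (h0 : ((Q i0).C ∩ cell (e 0)).Nonempty) (m : ℕ) :
    (∀ k ≤ m, om Q (e k) < 1) → ∀ i, ((Q i).C ∩ cell (e m)).Nonempty →
      rho (Q i0) (Q i) ≤ C0 * ∑ k ∈ Finset.range (m + 1), om Q (e k) := by
  induction m with
  | zero =>
    intro _ i hi
    have h1 := rig h (e 0) i0 i (inKg Q _ _ (by simp) (by simp) i0 h0)
      (inKg Q _ _ (by simp) (by simp) i hi)
    simpa using h1
  | succ m ih =>
    intro hlt i hi
    obtain ⟨r, hr⟩ := exists_meet h (e m) (hlt m (by omega))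
    have h1 := ih (fun k hk => hlt k (by omega)) r hr
    have h2 := rig h (e (m + 1)) r i (inKg Q _ _ (he m).1 (he m).2 r hr)
      (inKg Q _ _ (by simp) (by simp) i hi)
    have h3 := rho_tri (Q i0) (Q r) (Q i)
    rw [Finset.sum_range_succ, mul_add]
    linarith

/-- sums along a segment -/
theorem seg_sum (f : ℤ → ℝ) (hf : ∀ j, 0 ≤ f j) (a b : ℤ) :
    ∑ k ∈ Finset.range ((b - a).natAbs + 1), f (a + (b - a).sign * k) ≤
      ∑ j ∈ Finset.uIcc a b, f j := by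
  classical
  have hinj : Set.InjOn (fun k : ℕ => a + (b - a).sign * (k : ℤ))
      (Finset.range ((b - a).natAbs + 1) : Finset ℕ) := by
    intro k hk l hl hkl
    simp only [Finset.coe_range, Set.mem_Iio] at hk hl
    by_cases h0 : b - a = 0
    · rw [h0] at hk hl
      simp at hk hl
      omega
    · have hs : (b - a).sign ≠ 0 := by
        intro hs
        exact h0 (Int.sign_eq_zero_iff_zero.1 hs)
      have : (b - a).sign * (k : ℤ) = (b - a).sign * (l : ℤ) := by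
        simpa using hkl
      have := mul_left_cancel₀ hs this
      exact_mod_cast this
  rw [← Finset.sum_image (f := f) (g := fun k : ℕ => a + (b - a).sign * (k : ℤ)) (s :=
    Finset.range ((b - a).natAbs + 1)) hinj]
  refine Finset.sum_le_sum_of_subset_of_nonneg ?_ fun j _ _ => hf j
  intro j hj
  rw [Finset.mem_image] at hj
  obtain ⟨k, hk, rfl⟩ := hj
  rw [Finset.mem_range] at hk
  rw [Finset.mem_uIcc]
  rcases lt_trichotomy (b - a) 0 with h | h | h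
  · rw [Int.sign_eq_neg_one_of_neg h]
    omega
  · rw [h, Int.sign_zero, zero_mul]
    omega
  · rw [Int.sign_eq_one_of_pos h]
    omega

/-- the deviation of a square from a nice cell -/
theorem rho_path [Countable ι] (h : PP n Q W) (z c : ℤ × ℤ) (i0 i : ι)
    (h0 : ((Q i0).C ∩ cell z).Nonempty) (hi : ((Q i).C ∩ cell c).Nonempty)
    (hlt : pathsum Q z c < 1) : rho (Q i0) (Q i) ≤ C0 * pathsum Q z c := by
  have hn1 : 0 ≤ ∑ j ∈ Finset.uIcc z.1 c.1, om Q (j, z.2) :=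
    Finset.sum_nonneg fun _ _ => om_nonneg _ _
  have hn2 : 0 ≤ ∑ j ∈ Finset.uIcc z.2 c.2, om Q (c.1, j) :=
    Finset.sum_nonneg fun _ _ => om_nonneg _ _
  unfold pathsum at hlt ⊢
  have s1 := seg_sum (fun j => om Q (j, z.2)) (fun _ => om_nonneg _ _) z.1 c.1
  have s2 := seg_sum (fun j => om Q (c.1, j)) (fun _ => om_nonneg _ _) z.2 c.2
  -- horizontal
  set e1 : ℕ → ℤ × ℤ := fun k => (z.1 + (c.1 - z.1).sign * k, z.2) with he1
  set e2 : ℕ → ℤ × ℤ := fun k => (c.1, z.2 + (c.2 - z.2).sign * k) with he2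
  have hsg : ∀ t : ℤ, |t.sign| ≤ 1 := by
    intro t
    rcases lt_trichotomy t 0 with h | h | h
    · rw [Int.sign_eq_neg_one_of_neg h]; simp
    · rw [h]; simp
    · rw [Int.sign_eq_one_of_pos h]; simp
  have ha1 : ∀ k, |(e1 k).1 - (e1 (k + 1)).1| ≤ 1 ∧ |(e1 k).2 - (e1 (k + 1)).2| ≤ 1 := by
    intro k
    simp only [he1]
    constructor
    · have : z.1 + (c.1 - z.1).sign * (k : ℤ) - (z.1 + (c.1 - z.1).sign * ((k + 1 : ℕ) : ℤ)) =
          -(c.1 - z.1).sign := by push_cast; ring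
      rw [this, abs_neg]
      exact hsg _
    · simp
  have ha2 : ∀ k, |(e2 k).1 - (e2 (k + 1)).1| ≤ 1 ∧ |(e2 k).2 - (e2 (k + 1)).2| ≤ 1 := by
    intro k
    simp only [he2]
    constructor
    · simp
    · have : z.2 + (c.2 - z.2).sign * (k : ℤ) - (z.2 + (c.2 - z.2).sign * ((k + 1 : ℕ) : ℤ)) =
          -(c.2 - z.2).sign := by push_cast; ring
      rw [this, abs_neg]
      exact hsg _
  have hend1 : e1 ((c.1 - z.1).natAbs) = (c.1, z.2) := by
    simp only [he1]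
    have : z.1 + (c.1 - z.1).sign * ((c.1 - z.1).natAbs : ℤ) = c.1 := by
      rw [Int.sign_mul_natAbs]; ring
    rw [this]
  have hend2 : e2 ((c.2 - z.2).natAbs) = c := by
    simp only [he2]
    have : z.2 + (c.2 - z.2).sign * ((c.2 - z.2).natAbs : ℤ) = c.2 := by
      rw [Int.sign_mul_natAbs]; ring
    rw [this]
  have hst1 : e1 0 = z := by simp [he1]
  have hst2 : e2 0 = (c.1, z.2) := by simp [he2]
  have hl1 : ∀ k ≤ (c.1 - z.1).natAbs, om Q (e1 k) < 1 := by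
    intro k hk
    have : om Q (e1 k) ≤ ∑ k ∈ Finset.range ((c.1 - z.1).natAbs + 1), om Q (e1 k) :=
      Finset.single_le_sum (f := fun k => om Q (e1 k)) (fun _ _ => om_nonneg _ _)
        (Finset.mem_range.2 (by omega))
    have s1' : ∑ k ∈ Finset.range ((c.1 - z.1).natAbs + 1), om Q (e1 k) ≤
      ∑ j ∈ Finset.uIcc z.1 c.1, om Q (j, z.2) := s1
    linarith
  have hl2 : ∀ k ≤ (c.2 - z.2).natAbs, om Q (e2 k) < 1 := by
    intro k hk
    have : om Q (e2 k) ≤ ∑ k ∈ Finset.range ((c.2 - z.2).natAbs + 1), om Q (e2 k) :=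
      Finset.single_le_sum (f := fun k => om Q (e2 k)) (fun _ _ => om_nonneg _ _)
        (Finset.mem_range.2 (by omega))
    have s2' : ∑ k ∈ Finset.range ((c.2 - z.2).natAbs + 1), om Q (e2 k) ≤
      ∑ j ∈ Finset.uIcc z.2 c.2, om Q (c.1, j) := s2
    linarith
  obtain ⟨r, hr⟩ := exists_meet h (c.1, z.2) (by
    have := hl2 0 (by omega)
    rwa [hst2] at this)
  have w1 := walk h e1 ha1 i0 (by rw [hst1]; exact h0) _ hl1 r (by rw [hend1]; exact hr)
  have w2 := walk h e2 ha2 r (by rw [hst2]; exact hr) _ hl2 i (by rw [hend2]; exact hi)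
  have w3 := rho_tri (Q i0) (Q r) (Q i)
  have hC : (0 : ℝ) ≤ C0 := by unfold C0; positivity
  have t1 := mul_le_mul_of_nonneg_left s1 hC
  have t2 := mul_le_mul_of_nonneg_left s2 hC
  rw [mul_add]
  have w1' : rho (Q i0) (Q r) ≤ C0 * ∑ k ∈ Finset.range ((c.1 - z.1).natAbs + 1),
      (fun j => om Q (j, z.2)) (z.1 + (c.1 - z.1).sign * (k : ℤ)) := w1
  have w2' : rho (Q r) (Q i) ≤ C0 * ∑ k ∈ Finset.range ((c.2 - z.2).natAbs + 1),
      (fun j => om Q (c.1, j)) (z.2 + (c.2 - z.2).sign * (k : ℤ)) := w2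
  linarith

theorem bounded_Bx (L : ℕ) (z : ℤ × ℤ) : Bornology.IsBounded (Bx L z) := by
  have h : Bx L z ⊆ Set.Icc ((z.1 : ℝ) - 3, (z.2 : ℝ) - 3) ((z.1 : ℝ) + L + 4, (z.2 : ℝ) + L + 4) := by
    rintro x ⟨h1, h2, h3, h4⟩
    exact ⟨⟨h1, h3⟩, ⟨h2, h4⟩⟩
  exact (Metric.isBounded_Icc _ _).subset h

/-- every point of the box lies in a cell of the sum -/
theorem cell_of_mem (L : ℕ) (z : ℤ × ℤ) (x : ℝ × ℝ) (hx : x ∈ Bx L z) :
    ∃ c ∈ Finset.Icc (z.1 - 4) (z.1 + L + 4) ×ˢ Finset.Icc (z.2 - 4) (z.2 + L + 4),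
      x ∈ cell c := by
  obtain ⟨h1, h2, h3, h4⟩ := hx
  refine ⟨(⌊x.1⌋, ⌊x.2⌋), ?_, ⟨Int.floor_le _, Int.lt_floor_add_one _, Int.floor_le _,
    Int.lt_floor_add_one _⟩⟩
  rw [Finset.mem_product, Finset.mem_Icc, Finset.mem_Icc]
  refine ⟨⟨?_, ?_⟩, ?_, ?_⟩
  · rw [Int.le_floor]; push_cast; linarith
  · have : (⌊x.1⌋ : ℝ) ≤ ((z.1 + L + 4 : ℤ) : ℝ) := by
      push_cast
      exact (Int.floor_le _).trans h2
    exact_mod_cast this
  · rw [Int.le_floor]; push_cast; linarith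
  · have : (⌊x.2⌋ : ℝ) ≤ ((z.2 + L + 4 : ℤ) : ℝ) := by
      push_cast
      exact (Int.floor_le _).trans h4
    exact_mod_cast this

theorem cell_subset_Rg (c : ℤ × ℤ) : cell c ⊆ Rg c := by
  rintro x ⟨h1, h2, h3, h4⟩
  refine ⟨?_, ?_, ?_, ?_⟩ <;> linarith

theorem om_le_pathsum (Q : ι → USq) (z c : ℤ × ℤ) : om Q c ≤ pathsum Q z c := by
  unfold pathsum
  have h1 : 0 ≤ ∑ j ∈ Finset.uIcc z.1 c.1, om Q (j, z.2) :=
    Finset.sum_nonneg fun _ _ => om_nonneg _ _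
  have h2 : om Q c ≤ ∑ j ∈ Finset.uIcc z.2 c.2, om Q (c.1, j) :=
    Finset.single_le_sum (f := fun j => om Q (c.1, j)) (fun _ _ => om_nonneg _ _)
      Finset.right_mem_uIcc
  linarith

theorem gap_le (h : PP n Q W) (L : ℕ) (z : ℤ × ℤ) :
    (volume (Gap Q ∩ Bx L z)).toReal ≤ E Q L z := by
  have hfin : volume (Gap Q) ≠ ⊤ := ne_top_of_le_ne_top ENNReal.ofReal_ne_top h.gap
  have hfin' : ∀ c, volume (Gap Q ∩ Rg c) ≠ ⊤ := fun c =>
    ne_top_of_le_ne_top hfin (measure_mono Set.inter_subset_left)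
  have hsub : Gap Q ∩ Bx L z ⊆
      ⋃ c ∈ Finset.Icc (z.1 - 4) (z.1 + L + 4) ×ˢ Finset.Icc (z.2 - 4) (z.2 + L + 4),
        Gap Q ∩ Rg c := by
    rintro x ⟨hx1, hx2⟩
    obtain ⟨c, hc, hxc⟩ := cell_of_mem L z x hx2
    rw [Set.mem_iUnion₂]
    exact ⟨c, hc, hx1, cell_subset_Rg c hxc⟩
  have h1 : volume (Gap Q ∩ Bx L z) ≤
      ∑ c ∈ Finset.Icc (z.1 - 4) (z.1 + L + 4) ×ˢ Finset.Icc (z.2 - 4) (z.2 + L + 4),
        volume (Gap Q ∩ Rg c) := (measure_mono hsub).trans (measure_biUnion_finset_le _ _)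
  have h2 : (volume (Gap Q ∩ Bx L z)).toReal ≤
      ∑ c ∈ Finset.Icc (z.1 - 4) (z.1 + L + 4) ×ˢ Finset.Icc (z.2 - 4) (z.2 + L + 4),
        om Q c := by
    unfold om
    rw [← ENNReal.toReal_sum fun c _ => hfin' c]
    exact ENNReal.toReal_mono (ENNReal.sum_ne_top.2 fun c _ => hfin' c) h1
  refine h2.trans ?_
  unfold E
  exact Finset.sum_le_sum fun c _ => om_le_pathsum Q z c

end DevBound

open DevBound in
/-- T12 -/
theorem dev_bound {n : ℕ} {ι : Type} [Countable ι] {Q : ι → USq} {W : ℝ} (h : PP n Q W)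
    (z : ℤ × ℤ) (hz : nice Q z) (L : ℕ) :
    Dev Q (-(bet Q z) / Real.sqrt (1 + bet Q z ^ 2), 1 / Real.sqrt (1 + bet Q z ^ 2)) (Bx L z) ≤
      500 * C0 * E Q L z := by
  classical
  have hC : (1 : ℝ) ≤ C0 := by unfold C0; norm_num
  have hE : 0 ≤ E Q L z := Finset.sum_nonneg fun _ _ => pathsum_nonneg _ _ _
  -- the reference square
  set i0 := hz.2.choose with hi0
  obtain ⟨hm, hs⟩ := hz.2.choose_spec
  rw [← hi0] at hm hs
  have hbet : bet Q z = slope (Q i0) := by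
    unfold bet
    rw [dif_pos hz]
  have hu := (Q i0).unit
  have ha : 0 < (Q i0).a := by
    have h1 := h.norm i0
    have h2 : 0 ≤ (Q i0).a := (abs_nonneg _).trans h1
    rcases h2.lt_or_eq with h3 | h3
    · exact h3
    · rw [← h3] at h1 hu
      have : (Q i0).b = 0 := abs_eq_zero.1 (le_antisymm h1 (abs_nonneg _))
      rw [this] at hu
      norm_num at hu
  have hsq : Real.sqrt (1 + bet Q z ^ 2) = 1 / (Q i0).a := by
    rw [hbet]
    unfold slope
    have : 1 + ((Q i0).b / (Q i0).a) ^ 2 = (1 / (Q i0).a) ^ 2 := by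
      field_simp
      linarith
    rw [this, Real.sqrt_sq (by positivity)]
  have hw1 : -(bet Q z) / Real.sqrt (1 + bet Q z ^ 2) = -(Q i0).b := by
    rw [hsq, hbet]
    unfold slope
    field_simp
  have hw2 : 1 / Real.sqrt (1 + bet Q z ^ 2) = (Q i0).a := by
    rw [hsq, one_div_one_div]
  unfold Dev
  rw [hw1, hw2]
  have hfin := fin_meet h (Bx L z) (bounded_Bx L z)
  rw [finsum_mem_eq_finite_toFinset_sum _ hfin]
  have hgap := gap_le h L z
  -- the deviation of one square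
  have hdev : ∀ i c, ((Q i).C ∩ cell c).Nonempty →
      |(Q i).a * (-(Q i0).b) + (Q i).b * (Q i0).a| ≤ 4 * C0 * pathsum Q z c := by
    intro i c hic
    by_cases hlt : pathsum Q z c < 1
    · have h1 := rho_path h z c i0 i hm hic hlt
      have h2 := dev_le_rho (Q i0) (Q i) (h.norm i0) (h.norm i) hs
      have h3 : (Q i).a * (-(Q i0).b) + (Q i).b * (Q i0).a =
        (Q i0).a * (Q i).b - (Q i0).b * (Q i).a := by ring
      rw [h3]
      have hp := pathsum_nonneg Q z c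
      nlinarith
    · rw [not_lt] at hlt
      have hui := (Q i).unit
      have h1 : |(Q i).a * (-(Q i0).b) + (Q i).b * (Q i0).a| ≤ 1 := by
        rw [abs_le]
        constructor <;>
          nlinarith [sq_nonneg ((Q i).a * (Q i0).a + (Q i).b * (Q i0).b),
            sq_nonneg ((Q i).a * (-(Q i0).b) + (Q i).b * (Q i0).a - 1),
            sq_nonneg ((Q i).a * (-(Q i0).b) + (Q i).b * (Q i0).a + 1),
            sq_nonneg ((Q i).a + (Q i0).b), sq_nonneg ((Q i).b - (Q i0).a),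
            sq_nonneg ((Q i).a - (Q i0).b), sq_nonneg ((Q i).b + (Q i0).a)]
      nlinarith
  -- choose the cells
  have hex : ∀ i : ι, ∃ c : ℤ × ℤ, i ∈ hfin.toFinset →
      (c ∈ Finset.Icc (z.1 - 4) (z.1 + L + 4) ×ˢ Finset.Icc (z.2 - 4) (z.2 + L + 4) ∧
        ((Q i).C ∩ cell c).Nonempty) := by
    intro i
    by_cases hi : i ∈ hfin.toFinset
    · obtain ⟨x, hx1, hx2⟩ := (Set.Finite.mem_toFinset hfin).1 hi
      obtain ⟨c, hc, hxc⟩ := cell_of_mem L z x hx2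
      exact ⟨c, fun _ => ⟨hc, x, hx1, hxc⟩⟩
    · exact ⟨(0, 0), fun h => absurd h hi⟩
  choose f hf using hex
  have hsum : ∑ i ∈ hfin.toFinset, |(Q i).a * (-(Q i0).b) + (Q i).b * (Q i0).a| ≤
      ∑ i ∈ hfin.toFinset, 4 * C0 * pathsum Q z (f i) :=
    Finset.sum_le_sum fun i hi => hdev i (f i) (hf i hi).2
  have hfib : ∑ i ∈ hfin.toFinset, 4 * C0 * pathsum Q z (f i) =
      ∑ c ∈ Finset.Icc (z.1 - 4) (z.1 + L + 4) ×ˢ Finset.Icc (z.2 - 4) (z.2 + L + 4),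
        ∑ i ∈ hfin.toFinset with f i = c, 4 * C0 * pathsum Q z (f i) :=
    (Finset.sum_fiberwise_of_maps_to (fun i hi => (hf i hi).1) _).symm
  have hle : ∑ c ∈ Finset.Icc (z.1 - 4) (z.1 + L + 4) ×ˢ Finset.Icc (z.2 - 4) (z.2 + L + 4),
        ∑ i ∈ hfin.toFinset with f i = c, 4 * C0 * pathsum Q z (f i) ≤
      ∑ c ∈ Finset.Icc (z.1 - 4) (z.1 + L + 4) ×ˢ Finset.Icc (z.2 - 4) (z.2 + L + 4),
        121 * (4 * C0 * pathsum Q z c) := by
    refine Finset.sum_le_sum fun c _ => ?_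
    have e1 : ∑ i ∈ hfin.toFinset with f i = c, 4 * C0 * pathsum Q z (f i) =
        ∑ i ∈ hfin.toFinset with f i = c, 4 * C0 * pathsum Q z c := by
      refine Finset.sum_congr rfl fun i hi => ?_
      rw [(Finset.mem_filter.1 hi).2]
    rw [e1, Finset.sum_const, nsmul_eq_mul]
    refine mul_le_mul_of_nonneg_right ?_ (by
      have := pathsum_nonneg Q z c
      positivity)
    have := card_Rg h c (hfin.toFinset.filter (fun i => f i = c)) (fun i hi => by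
      rw [Finset.mem_filter] at hi
      have := (hf i hi.1).2
      rw [hi.2] at this
      exact inRg Q c i this)
    exact_mod_cast this
  have hlast : ∑ c ∈ Finset.Icc (z.1 - 4) (z.1 + L + 4) ×ˢ Finset.Icc (z.2 - 4) (z.2 + L + 4),
        121 * (4 * C0 * pathsum Q z c) = 484 * C0 * E Q L z := by
    unfold E
    rw [Finset.mul_sum]
    exact Finset.sum_congr rfl fun c _ => by ring
  have : (volume (Gap Q ∩ Bx L z)).toReal +
      ∑ i ∈ hfin.toFinset, |(Q i).a * (-(Q i0).b) + (Q i).b * (Q i0).a| ≤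
      E Q L z + 484 * C0 * E Q L z := by linarith
  refine this.trans ?_
  nlinarith

end H282R4.PK
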