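import Pool.Agent.H282R4.PK.Defs
import Pool.Agent.H282R4.PK.Core
import Pool.Agent.H282R4.PK.DevBound
import Pool.Agent.H282R4.PK.Fnorm
import Pool.Agent.H282R4.PK.Slopes
import Pool.Agent.H282R4.PK.Geo
import Pool.Agent.H282R4.PK.Fmeas

/-! T13: the local lemma. -/

namespace H282R4.PK

open MeasureTheory
open scoped Real ENNReal
open H282R3.SQ (USq)

namespace Local

/-- lower bound for a chord -/
lemma chord (x : ℝ) (hx : |x| ≤ 1 / 2) :
    4 * |x| ≤ ‖Complex.exp (2 * π * Complex.I * (x : ℝ)) - 1‖ := by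
  have h1 : Complex.exp (2 * π * Complex.I * (x : ℝ)) - 1
      = Complex.exp (Complex.I * (2 * π * x : ℝ)) - 1 := by
    congr 2; push_cast; ring
  rw [h1, Complex.norm_exp_I_mul_ofReal_sub_one]
  rw [Real.norm_eq_abs, abs_mul, abs_of_pos (by norm_num : (0:ℝ) < 2)]
  have h2 : 2 * π * x / 2 = π * x := by ring
  rw [h2]
  have h3 : |Real.sin (π * x)| = Real.sin (π * |x|) := by
    rcases abs_cases x with ⟨h, h'⟩ | ⟨h, h'⟩
    · rw [h, abs_of_nonneg]
      apply Real.sin_nonneg_of_nonneg_of_le_pi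
      · positivity
      · nlinarith [Real.pi_pos]
    · rw [h]
      have : π * x = -(π * (-x)) := by ring
      rw [this, Real.sin_neg, abs_neg, abs_of_nonneg]
      apply Real.sin_nonneg_of_nonneg_of_le_pi
      · have : 0 ≤ -x := by linarith
        positivity
      · nlinarith [Real.pi_pos]
  rw [h3]
  have h4 := Real.mul_le_sin (x := π * |x|) (by positivity) (by nlinarith [Real.pi_pos])
  have h5 : 2 / π * (π * |x|) = 2 * |x| := by
    field_simp
  rw [h5] at h4
  linarith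

/-- pointwise comparison -/
lemma pt (f g e : ℂ) (he : ‖e‖ = 1) (hf : ‖f‖ = 1) :
    ‖e - 1‖ₑ ≤ ‖g * e - f‖ₑ + ‖g - f‖ₑ := by
  have h1 : f * (e - 1) = (g * e - f) - (g - f) * e := by ring
  have h2 : ‖f * (e - 1)‖ₑ = ‖e - 1‖ₑ := by
    rw [enorm_mul]
    have : ‖f‖ₑ = 1 := by rw [← ofReal_norm, hf]; simp
    rw [this, one_mul]
  rw [← h2, h1]
  refine (enorm_sub_le).trans ?_
  gcongr
  rw [enorm_mul]
  have : ‖e‖ₑ = 1 := by rw [← ofReal_norm, he]; simp
  rw [this, mul_one]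

/-- change of variables -/
lemma cov (f : ℝ → ℝ≥0∞) (a : ℝ) :
    ∫⁻ X in Set.Icc a (a + 1), f X = ∫⁻ t in Set.Icc (0 : ℝ) 1, f (a + t) := by
  rw [← lintegral_indicator measurableSet_Icc, ← lintegral_indicator measurableSet_Icc,
    ← lintegral_add_left_eq_self _ a]
  congr 1
  ext t
  simp only [Set.indicator, Set.mem_Icc]
  have : (a ≤ a + t ∧ a + t ≤ a + 1) ↔ (0 ≤ t ∧ t ≤ 1) := by
    constructor
    · rintro ⟨h1, h2⟩; constructor <;> linarith
    · rintro ⟨h1, h2⟩; constructor <;> linarith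
  simp only [this]

/-- the comparison on a line -/
lemma line (g : ℝ → ℂ) (hg : ∀ᵐ X : ℝ, ‖g X‖ = 1) (hm : Measurable g) (a : ℝ) (L : ℕ) (x : ℝ)
    (hx : |x| ≤ 1 / 2) :
    ENNReal.ofReal (4 * |x|) ≤
      (∫⁻ t in Set.Icc (0 : ℝ) 1, ‖g (a + t + L) * Complex.exp (2 * π * Complex.I * (x : ℝ)) -
        g (a + t)‖ₑ) + ∫⁻ X in Set.Icc a (a + 1), ‖g (X + L) - g X‖ₑ := by
  rw [cov (fun X => ‖g (X + L) - g X‖ₑ) a, ← lintegral_add_right]
  · have h1 : ENNReal.ofReal (4 * |x|) =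
        ∫⁻ _ in Set.Icc (0 : ℝ) 1, ENNReal.ofReal (4 * |x|) := by
      rw [setLIntegral_const, Real.volume_Icc]
      simp
    rw [h1]
    apply lintegral_mono_ae
    apply ae_restrict_of_ae
    have h2 : ∀ᵐ t : ℝ, ‖g (a + t)‖ = 1 :=
      (measurePreserving_add_left volume a).quasiMeasurePreserving.ae hg
    filter_upwards [h2] with t ht
    refine le_trans ?_ (pt (g (a + t)) (g (a + t + L)) _ ?_ ht)
    · rw [← ofReal_norm]
      exact ENNReal.ofReal_le_ofReal (chord x hx)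
    · have : (2 * π * Complex.I * (x : ℝ) : ℂ) = ((2 * π * x : ℝ) : ℂ) * Complex.I := by
        push_cast; ring
      rw [this, Complex.norm_exp_ofReal_mul_I]
  · apply Measurable.enorm
    apply Measurable.sub
    · exact hm.comp ((measurable_const_add a).add_const _)
    · exact hm.comp (measurable_const_add a)

/-- the numerical end of the argument -/
lemma num (A B : ℝ≥0∞) (l D E : ℝ) (hl : 0 < l) (hA : ENNReal.ofReal (2.87 * l) ≤ A)
    (hB : ENNReal.ofReal (2.87 * l) ≤ B) (hAB : A * B ≤ ENNReal.ofReal (1000 * D))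
    (hD : D ≤ 500 * C0 * E) : l ^ 2 ≤ 10 ^ 20 * E := by
  have h1 : ENNReal.ofReal (2.87 * l) * ENNReal.ofReal (2.87 * l) ≤ ENNReal.ofReal (1000 * D) :=
    (mul_le_mul' hA hB).trans hAB
  rw [← ENNReal.ofReal_mul (by positivity)] at h1
  have hC : C0 = 10 ^ 15 := rfl
  rw [hC] at hD
  have h0 := hl
  · have h2 : (2.87 * l) * (2.87 * l) ≤ 1000 * D := by
      by_contra hcon
      push Not at hcon
      have h3 := (ENNReal.ofReal_le_ofReal_iff' ).1 h1
      rcases h3 with h3 | h3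
      · linarith
      · have : 0 < (2.87 * l) * (2.87 * l) := by positivity
        linarith
    nlinarith

end Local

/-- T13: local lemma. -/
theorem local_lemma {n : ℕ} {ι : Type} [Countable ι] {Q : ι → USq} {W : ℝ} (h : PP n Q W)
    (z : ℤ × ℤ) (hz : nice Q z) (L : ℕ) (hL : 1 ≤ L) (hLb : L * |bet Q z| ≤ 1 / 8) :
    ENNReal.ofReal (L * |bet Q z|) ≤ U Q L z ∨ ENNReal.ofReal (L * |bet Q z|) ≤ V Q L z ∨
      (L * bet Q z) ^ 2 ≤ 10 ^ 20 * E Q L z := by
  by_cases hb0 : bet Q z = 0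
  · left; simp [hb0]
  by_contra hcon
  push Not at hcon
  obtain ⟨hU, hV, hE⟩ := hcon
  have hLr : (1 : ℝ) ≤ L := by exact_mod_cast hL
  set β := bet Q z with hβ
  have hβ4 : |β| ≤ 1 / 4 := bet_le Q z
  set r := Real.sqrt (1 + β ^ 2) with hr
  have hr2 : r ^ 2 = 1 + β ^ 2 := Real.sq_sqrt (by positivity)
  have hβsq : β ^ 2 ≤ 1 / 16 := by
    have := sq_le_sq' (by linarith [abs_nonneg β]) hβ4
    rw [sq_abs] at this
    linarith
  have hr1 : 1 ≤ r := by
    rw [hr, Real.one_le_sqrt]; nlinarith [sq_nonneg β]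
  have hrpos : 0 < r := by linarith
  have hr3 : r ≤ 1.03125 := by
    rw [hr, Real.sqrt_le_left (by norm_num)]
    norm_num
    linarith
  have hw : (-β / r) ^ 2 + (1 / r) ^ 2 = 1 := by
    field_simp
    linarith
  have habs : |(-β / r)| = |β| / r := by
    rw [abs_div, abs_neg, abs_of_pos hrpos]
  have hw2 : |(-β / r)| ≤ (1 / r) / 4 := by
    rw [habs, div_le_div_iff₀ hrpos (by norm_num)]
    field_simp
    linarith
  have hx : |((L : ℝ) * (-β / r))| ≤ 1 / 8 := by
    rw [abs_mul, habs, abs_of_nonneg (by linarith : (0:ℝ) ≤ L)]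
    calc (L : ℝ) * (|β| / r) ≤ L * |β| := by
          gcongr
          exact div_le_self (abs_nonneg _) hr1
      _ ≤ 1 / 8 := hLb
  have hlow : 3.87 * (L * |β|) ≤ 4 * |((L : ℝ) * (-β / r))| := by
    rw [abs_mul, habs, abs_of_nonneg (by linarith : (0:ℝ) ≤ L)]
    have h1 : |β| / r ≥ |β| / 1.03125 := by
      gcongr
    have h2 : |β| / 1.03125 ≥ 0.969 * |β| := by
      rw [ge_iff_le, le_div_iff₀ (by norm_num)]
      nlinarith [abs_nonneg β]
    have h3 : (L : ℝ) * (0.969 * |β|) ≤ L * (|β| / r) :=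
      mul_le_mul_of_nonneg_left (by linarith) (by linarith)
    have h4 : 0 ≤ (L : ℝ) * |β| := by positivity
    nlinarith
  have hcore := LL_core h z (-β / r, 1 / r) hw hw2 L hL (by
    simp only
    rw [habs]
    calc (L : ℝ) * (|β| / r) ≤ L * |β| := by
          gcongr
          exact div_le_self (abs_nonneg _) hr1
      _ ≤ 1 / 8 := hLb)
  have hdev := dev_bound h z hz L
  simp only at hcore
  -- first line
  have hlineA := Local.line (fun X => F Q (X, (z.2 : ℝ))) (norm_F_horiz h _)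
    ((measurable_F h).comp (measurable_id.prodMk measurable_const)) (z.1 : ℝ) L
    (-(L * (-β / r))) (by rw [abs_neg]; linarith)
  have hlineB := Local.line (fun Y => FH Q ((z.1 : ℝ), Y))
    (norm_F_horiz h.trans (z.1 : ℝ))
    ((measurable_FH h).comp (measurable_const.prodMk measurable_id)) (z.2 : ℝ) L
    (L * (-β / r)) (by linarith)
  rw [abs_neg] at hlineA
  have key : ∀ A u : ℝ≥0∞, ENNReal.ofReal (4 * |((L : ℝ) * (-β / r))|) ≤ A + u →
      u < ENNReal.ofReal (L * |β|) → ENNReal.ofReal (2.87 * (L * |β|)) ≤ A := by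
    intro A u h1 h2
    have h3 : ENNReal.ofReal (2.87 * (L * |β|)) + ENNReal.ofReal (L * |β|) ≤
        A + ENNReal.ofReal (L * |β|) := by
      rw [← ENNReal.ofReal_add (by positivity) (by positivity)]
      refine le_trans (ENNReal.ofReal_le_ofReal ?_) (h1.trans (by gcongr))
      nlinarith [abs_nonneg β]
    exact (ENNReal.add_le_add_iff_right ENNReal.ofReal_ne_top).1 h3
  have hA := key _ _ hlineA hU
  have hB := key _ _ hlineB hV
  have hfin := Local.num _ _ (L * |β|) _ _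
    (mul_pos (by linarith) (abs_pos.2 hb0)) hA hB hcore hdev
  rw [mul_pow, sq_abs, ← mul_pow] at hfin
  linarith

end H282R4.PK
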