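import Pool.Agent.H282R4.PK.Defs

/-!
# Project PK, module Shift: the variation of a function controls its shifts
-/

namespace H282R4.PK

open MeasureTheory
open scoped Real ENNReal
open H282R3.SQ (USq)

namespace Shift

theorem sum_le_var (P : Set ℝ) (Λ : ℝ → ℝ) {L : ℝ} (hL : 0 ≤ L) (r : ℝ) (T : Finset ℤ)
    (hT : ∀ j ∈ T, r + j * L ∈ P ∧ r + j * L + L ∈ P) :
    ∑ j ∈ T, ENNReal.ofReal |Λ (r + j * L + L) - Λ (r + j * L)| ≤
      eVariationOn Λ (P ∩ {x | ∃ j ∈ T, x ≤ r + j * L + L}) := by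
  induction T using Finset.induction_on_max with
  | empty => simp
  | insert a T ha ih =>
    have haT : a ∉ T := fun h => lt_irrefl _ (ha a h)
    rw [Finset.sum_insert haT, add_comm]
    have h1 := ih fun j hj => hT j (Finset.mem_insert_of_mem hj)
    obtain ⟨h2, h3⟩ := hT a (Finset.mem_insert_self a T)
    have h4 : ENNReal.ofReal |Λ (r + a * L + L) - Λ (r + a * L)| ≤
        eVariationOn Λ {r + a * L, r + a * L + L} := by
      have := eVariationOn.edist_le Λ (s := {r + a * L, r + a * L + L})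
        (x := r + a * L + L) (y := r + a * L) (by simp) (by simp)
      rwa [edist_dist, Real.dist_eq] at this
    refine (add_le_add h1 h4).trans ?_
    refine (eVariationOn.add_le_union Λ ?_).trans (eVariationOn.mono Λ ?_)
    · rintro x ⟨-, j, hj, hx⟩ y hy
      have hja : (j : ℝ) + 1 ≤ a := by
        have := ha j hj
        exact_mod_cast this
      have h5 : r + j * L + L ≤ r + a * L := by nlinarith
      rcases hy with rfl | hy
      · exact hx.trans h5
      · rw [Set.mem_singleton_iff] at hy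
        rw [hy]
        linarith
    · rintro x (⟨hx, j, hj, hxj⟩ | hx)
      · exact ⟨hx, j, Finset.mem_insert_of_mem hj, hxj⟩
      · rcases hx with rfl | hx
        · exact ⟨h2, a, Finset.mem_insert_self a T, by linarith⟩
        · rw [Set.mem_singleton_iff] at hx
          rw [hx]
          exact ⟨h3, a, Finset.mem_insert_self a T, le_rfl⟩

end Shift

/-- T15: shift lemma. -/
theorem shift_var (P : Set ℝ) (hP : MeasurableSet P) (Λ : ℝ → ℝ) (hΛ : Measurable Λ)
    (L : ℕ) (hL : 1 ≤ L) :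
    ∫⁻ X in {X : ℝ | X ∈ P ∧ X + L ∈ P}, ENNReal.ofReal |Λ (X + L) - Λ X| ≤
      L * eVariationOn Λ P := by
  classical
  have hLr : (0:ℝ) < L := by exact_mod_cast hL
  set A : Set ℝ := {X : ℝ | X ∈ P ∧ X + L ∈ P} with hA
  set g : ℝ → ℝ≥0∞ := fun X => ENNReal.ofReal |Λ (X + L) - Λ X| with hg
  have hAm : MeasurableSet A := hP.inter (measurable_add_const (L:ℝ) hP)
  have hgm : Measurable g := by
    refine ENNReal.measurable_ofReal.comp ?_
    exact ((hΛ.comp (measurable_add_const (L:ℝ))).sub hΛ).abs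
  have hhm : Measurable (A.indicator g) := hgm.indicator hAm
  have h1 : ∫⁻ X in A, g X = ∫⁻ X, A.indicator g X := (lintegral_indicator hAm g).symm
  have hun : (⋃ j : ℤ, Set.Ico (j • (L:ℝ)) ((j + 1) • (L:ℝ))) = Set.univ :=
    iUnion_Ico_zsmul hLr
  have hdis : Pairwise (Function.onFun Disjoint fun j : ℤ =>
      Set.Ico (j • (L:ℝ)) ((j + 1) • (L:ℝ))) := Set.pairwise_disjoint_Ico_zsmul (L:ℝ)
  have h2 : ∫⁻ X, A.indicator g X =
      ∑' j : ℤ, ∫⁻ X in Set.Ico (j • (L:ℝ)) ((j + 1) • (L:ℝ)), A.indicator g X := by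
    rw [← setLIntegral_univ, ← hun, lintegral_iUnion (fun j => measurableSet_Ico) hdis]
  have h3 : ∀ j : ℤ, ∫⁻ X in Set.Ico (j • (L:ℝ)) ((j + 1) • (L:ℝ)), A.indicator g X =
      ∫⁻ r in Set.Ico (0:ℝ) L, A.indicator g (r + j * L) := by
    intro j
    have hmp : MeasurePreserving (fun r : ℝ => r + j * L) volume volume :=
      measurePreserving_add_right volume ((j:ℝ) * L)
    have hpre : (fun r : ℝ => r + j * L) ⁻¹' (Set.Ico (j • (L:ℝ)) ((j + 1) • (L:ℝ))) =
        Set.Ico (0:ℝ) L := by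
      ext r
      simp only [Set.mem_preimage, Set.mem_Ico, zsmul_eq_mul]
      push_cast
      constructor
      · rintro ⟨h, h'⟩; constructor <;> linarith
      · rintro ⟨h, h'⟩; constructor <;> linarith
    rw [← hmp.setLIntegral_comp_preimage measurableSet_Ico hhm, hpre]
  rw [h1, h2]
  simp only [h3]
  rw [← lintegral_tsum (f := fun (j : ℤ) (r : ℝ) => A.indicator g (r + j * L))
    (fun j => (hhm.comp (measurable_add_const ((j:ℝ) * L))).aemeasurable)]
  have h4 : ∀ r : ℝ, ∑' j : ℤ, A.indicator g (r + j * L) ≤ eVariationOn Λ P := by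
    intro r
    rw [ENNReal.tsum_eq_iSup_sum]
    refine iSup_le fun s => ?_
    have h5 : ∑ j ∈ s, A.indicator g (r + j * L) =
        ∑ j ∈ s.filter (fun j : ℤ => r + j * L ∈ A), g (r + j * L) := by
      rw [Finset.sum_filter]
      refine Finset.sum_congr rfl fun j _ => ?_
      rw [Set.indicator_apply]
    rw [h5]
    refine (Shift.sum_le_var P Λ hLr.le r _ ?_).trans (eVariationOn.mono Λ Set.inter_subset_left)
    intro j hj
    rw [Finset.mem_filter] at hj
    exact hj.2
  calc ∫⁻ r in Set.Ico (0:ℝ) L, ∑' j : ℤ, A.indicator g (r + j * L)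
      ≤ ∫⁻ _ in Set.Ico (0:ℝ) L, eVariationOn Λ P := lintegral_mono fun r => h4 r
    _ = L * eVariationOn Λ P := by
        rw [setLIntegral_const, Real.volume_Ico, sub_zero, ENNReal.ofReal_natCast, mul_comm]

end H282R4.PK
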