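import Pool.Agent.H282R4.PK.Defs
import Pool.Agent.H282R4.PK.Flow
import Pool.Agent.H282R4.PK.Shift
import Pool.Agent.H282R4.PK.Fnorm
import Pool.Agent.H282R4.PK.Fmeas
import Pool.Agent.H282R4.PK.Geo

/-! Summed comparison of the phases along horizontal and vertical translations. -/

namespace H282R4.PK

open MeasureTheory
open scoped Real ENNReal
open H282R3.SQ (USq)

namespace SumUV

theorem exp_sub_le (a b : ℝ) :
    ‖Complex.exp (Complex.I * (a : ℝ)) - Complex.exp (Complex.I * (b : ℝ))‖ ≤ |a - b| := by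
  have h1 : Complex.exp (Complex.I * (a : ℝ)) =
      Complex.exp (Complex.I * (b : ℝ)) * Complex.exp (Complex.I * ((a - b : ℝ) : ℂ)) := by
    rw [← Complex.exp_add]
    congr 1
    push_cast
    ring
  have h2 : ‖Complex.exp (Complex.I * (b : ℝ))‖ = 1 := by
    rw [mul_comm]
    exact Complex.norm_exp_ofReal_mul_I b
  have h3 := Real.norm_exp_I_mul_ofReal_sub_one_le (x := a - b)
  rw [h1]
  calc ‖Complex.exp (Complex.I * (b : ℝ)) * Complex.exp (Complex.I * ((a - b : ℝ) : ℂ)) -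
        Complex.exp (Complex.I * (b : ℝ))‖
      = ‖Complex.exp (Complex.I * (b : ℝ)) *
          (Complex.exp (Complex.I * ((a - b : ℝ) : ℂ)) - 1)‖ := by congr 1; ring
    _ = ‖Complex.exp (Complex.I * ((a - b : ℝ) : ℂ)) - 1‖ := by rw [norm_mul, h2, one_mul]
    _ ≤ |a - b| := h3

end SumUV

/-- T17 -/
theorem sum_U {n : ℕ} {ι : Type} [Countable ι] {Q : ι → USq} {W : ℝ} (h : PP n Q W)
    (τ : ℝ) (h0 : 0 < τ) (h1 : τ < 1 / 4) (L : ℕ) (hL : 1 ≤ L) (k : ℤ) (hk : 0 ≤ k)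
    (hk2 : k ≤ n) :
    ∫⁻ X in Set.Icc (0 : ℝ) (n + 1 / 2 - L), ‖F Q (X + L, (k : ℝ)) - F Q (X, (k : ℝ))‖ₑ ≤
      ENNReal.ofReal (10 ^ 23 * (W / τ + L * τ * W)) := by
  obtain ⟨P, Λ, Er, m, s, e, hFS, hs0, he0, hs, hlvl, he⟩ :=
    flow h τ h0 h1 k (by omega) (by omega)
  have hW := h.W_nonneg
  have hP := hFS.measP
  set x : ℝ := n + 1 / 2 with hx
  have hx0 : 0 < x := by positivity
  have hL0 : (0 : ℝ) ≤ L := Nat.cast_nonneg L
  have hC : (0 : ℝ) < C0 := by unfold C0; positivity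
  -- the measure of the dead set
  set b : ℝ≥0∞ := volume (Set.Icc 0 x \ P) with hb
  have hIccv : volume (Set.Icc 0 x) = ENNReal.ofReal x := by rw [Real.volume_Icc, sub_zero]
  have hbfin : b ≠ ⊤ := by
    refine ne_top_of_le_ne_top ?_ (measure_mono Set.sdiff_subset)
    rw [hIccv]; exact ENNReal.ofReal_ne_top
  set a : ℝ≥0∞ := volume (Set.Icc 0 x ∩ P) with ha
  have hafin : a ≠ ⊤ := by
    refine ne_top_of_le_ne_top ?_ (measure_mono Set.inter_subset_left)
    rw [hIccv]; exact ENNReal.ofReal_ne_top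
  have hab : a + b = ENNReal.ofReal x := by
    rw [← hIccv, ha, hb]
    exact measure_inter_add_sdiff _ hP
  have hab' : a.toReal + b.toReal = x := by
    rw [← ENNReal.toReal_add hafin hbfin, hab, ENNReal.toReal_ofReal hx0.le]
  have hPv : volume P ≤ a + ENNReal.ofReal (4 * C0 * s) + ENNReal.ofReal (4 * C0 * s) := by
    have hsub : P ⊆ ((Set.Icc 0 x ∩ P) ∪ (P ∩ Set.Iio 0)) ∪ (P ∩ Set.Ioi x) := by
      intro X hX
      rcases lt_or_ge X 0 with h | h
      · exact Or.inl (Or.inr ⟨hX, h⟩)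
      · rcases lt_or_ge x X with h' | h'
        · exact Or.inr ⟨hX, h'⟩
        · exact Or.inl (Or.inl ⟨⟨h, h'⟩, hX⟩)
    calc volume P ≤ volume (((Set.Icc 0 x ∩ P) ∪ (P ∩ Set.Iio 0)) ∪ (P ∩ Set.Ioi x)) :=
          measure_mono hsub
      _ ≤ volume ((Set.Icc 0 x ∩ P) ∪ (P ∩ Set.Iio 0)) + volume (P ∩ Set.Ioi x) :=
          measure_union_le _ _
      _ ≤ (volume (Set.Icc 0 x ∩ P) + volume (P ∩ Set.Iio 0)) + volume (P ∩ Set.Ioi x) := by
          gcongr; exact measure_union_le _ _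
      _ ≤ _ := by
          gcongr
          · exact hFS.left
          · exact hFS.right
  have hPfin : volume P ≠ ⊤ :=
    ne_top_of_le_ne_top (by simp [hafin]) hPv
  have hPv' : (volume P).toReal ≤ a.toReal + 8 * C0 * s := by
    have := ENNReal.toReal_mono (by simp [hafin]) hPv
    rw [ENNReal.toReal_add (by simp [hafin]) (by simp), ENNReal.toReal_add hafin (by simp),
      ENNReal.toReal_ofReal (by positivity)] at this
    linarith
  have hR : 10 * C0 * s + 4 * C0 * lvl n Q k ≤ 14 * C0 * (121 * W) := by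
    nlinarith [mul_le_mul_of_nonneg_left hs hC.le, mul_le_mul_of_nonneg_left hlvl hC.le]
  have hpot : τ * x ≤ τ * (volume P).toReal + 14 * C0 * (121 * W) := by
    have h2 : ENNReal.ofReal (τ * x) ≤
        ENNReal.ofReal (τ * (volume P).toReal + 14 * C0 * (121 * W)) := by
      calc ENNReal.ofReal (τ * x) ≤
            (∫⁻ X in P, ENNReal.ofReal (m X)) + ENNReal.ofReal (τ * x) := le_add_self
        _ ≤ ENNReal.ofReal τ * volume P + ENNReal.ofReal (10 * C0 * s + 4 * C0 * lvl n Q k) :=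
            hFS.pot
        _ ≤ ENNReal.ofReal τ * volume P + ENNReal.ofReal (14 * C0 * (121 * W)) := by
            gcongr
        _ = ENNReal.ofReal (τ * (volume P).toReal + 14 * C0 * (121 * W)) := by
            rw [ENNReal.ofReal_add (by positivity) (by positivity),
              ENNReal.ofReal_mul h0.le, ENNReal.ofReal_toReal hPfin]
    exact (ENNReal.ofReal_le_ofReal_iff (by positivity)).mp h2
  have hbv : b.toReal ≤ 1936 * C0 * (W / τ) := by
    have h3 : τ * b.toReal ≤ τ * (8 * C0 * s) + 14 * C0 * (121 * W) := by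
      have : a.toReal = x - b.toReal := by linarith
      rw [this] at hPv'
      nlinarith [mul_le_mul_of_nonneg_left hPv' h0.le]
    have h4 : τ * (8 * C0 * s) ≤ 242 * C0 * W := by
      have e1 : τ * (8 * C0 * s) ≤ (1 / 4) * (8 * C0 * s) :=
        mul_le_mul_of_nonneg_right h1.le (by positivity)
      nlinarith [mul_le_mul_of_nonneg_left hs hC.le]
    have h5 : τ * b.toReal ≤ 1936 * C0 * W := by nlinarith
    have : 1936 * C0 * (W / τ) = (1936 * C0 * W) / τ := by ring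
    rw [this, le_div_iff₀ h0]
    linarith
  have hbv2 : b ≤ ENNReal.ofReal (1936 * C0 * (W / τ)) := by
    rw [← ENNReal.ofReal_toReal hbfin]
    exact ENNReal.ofReal_le_ofReal hbv
  -- the good set
  set A : Set ℝ := {X : ℝ | X ∈ P ∧ X + L ∈ P} with hA
  have htr : MeasurePreserving (fun X : ℝ => X + (L : ℝ)) volume volume :=
    measurePreserving_add_right volume (L : ℝ)
  have hAm : MeasurableSet A := hP.inter (htr.measurable hP)
  set g : ℝ → ℝ≥0∞ := fun X => ‖F Q (X + L, (k : ℝ)) - F Q (X, (k : ℝ))‖ₑ with hg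
  set I : Set ℝ := Set.Icc (0 : ℝ) (x - L) with hI
  have hstep1 : ∫⁻ X in I, g X ≤ (∫⁻ X in A, g X) + ∫⁻ X in I \ A, g X := by
    calc ∫⁻ X in I, g X ≤ ∫⁻ X in A ∪ (I \ A), g X :=
          lintegral_mono_set (by intro X hX; by_cases hXA : X ∈ A
                                 · exact Or.inl hXA
                                 · exact Or.inr ⟨hX, hXA⟩)
      _ ≤ _ := lintegral_union_le _ _ _
  have hErm : Measurable (fun X => ENNReal.ofReal (Er X)) := hFS.measEr.ennreal_ofReal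
  have hErm2 : Measurable (fun X : ℝ => ENNReal.ofReal (Er (X + L))) :=
    hErm.comp htr.measurable
  have hΛm : Measurable (fun X : ℝ => ENNReal.ofReal |Λ (X + L) - Λ X|) :=
    ((continuous_abs.measurable).comp
      ((hFS.measΛ.comp htr.measurable).sub hFS.measΛ)).ennreal_ofReal
  have hA1 : ∫⁻ X in A, g X ≤ ∫⁻ X in A, (ENNReal.ofReal (Er (X + L)) + ENNReal.ofReal (Er X) +
      ENNReal.ofReal |Λ (X + L) - Λ X|) := by
    apply setLIntegral_mono ((hErm2.add hErm).add hΛm)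
    intro X hX
    show g X ≤ ENNReal.ofReal (Er (X + L)) + ENNReal.ofReal (Er X) +
      ENNReal.ofReal |Λ (X + L) - Λ X|
    have p1 := hFS.phase X hX.1
    have p2 := hFS.phase (X + L) hX.2
    have q1 := hFS.Er_nonneg X hX.1
    have q2 := hFS.Er_nonneg (X + L) hX.2
    have p3 := SumUV.exp_sub_le (Λ X) (Λ (X + L))
    rw [abs_sub_comm] at p3
    have : ‖F Q (X + L, (k : ℝ)) - F Q (X, (k : ℝ))‖ ≤
        Er (X + L) + Er X + |Λ (X + L) - Λ X| := by
      calc ‖F Q (X + L, (k : ℝ)) - F Q (X, (k : ℝ))‖ =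
          ‖(F Q (X + L, (k : ℝ)) + Complex.exp (Complex.I * (Λ (X + L) : ℝ))) -
            (F Q (X, (k : ℝ)) + Complex.exp (Complex.I * (Λ X : ℝ))) +
            (Complex.exp (Complex.I * (Λ X : ℝ)) - Complex.exp (Complex.I * (Λ (X + L) : ℝ)))‖ := by
            congr 1; ring
        _ ≤ ‖(F Q (X + L, (k : ℝ)) + Complex.exp (Complex.I * (Λ (X + L) : ℝ))) -
            (F Q (X, (k : ℝ)) + Complex.exp (Complex.I * (Λ X : ℝ)))‖ +
            ‖Complex.exp (Complex.I * (Λ X : ℝ)) - Complex.exp (Complex.I * (Λ (X + L) : ℝ))‖ :=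
            norm_add_le _ _
        _ ≤ (‖F Q (X + L, (k : ℝ)) + Complex.exp (Complex.I * (Λ (X + L) : ℝ))‖ +
            ‖F Q (X, (k : ℝ)) + Complex.exp (Complex.I * (Λ X : ℝ))‖) +
            ‖Complex.exp (Complex.I * (Λ X : ℝ)) - Complex.exp (Complex.I * (Λ (X + L) : ℝ))‖ := by
            gcongr; exact norm_sub_le _ _
        _ ≤ _ := by linarith
    rw [← ENNReal.ofReal_add q2 q1, ← ENNReal.ofReal_add (by positivity) (abs_nonneg _)]
    show ‖F Q (X + L, (k : ℝ)) - F Q (X, (k : ℝ))‖ₑ ≤ _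
    rw [← ofReal_norm]
    exact ENNReal.ofReal_le_ofReal this
  have hA2 : ∫⁻ X in A, (ENNReal.ofReal (Er (X + L)) + ENNReal.ofReal (Er X) +
      ENNReal.ofReal |Λ (X + L) - Λ X|) ≤ ENNReal.ofReal (10 ^ 20 * s) +
        ENNReal.ofReal (10 ^ 20 * s) + L * ENNReal.ofReal (100 * τ * C0 * s) := by
    rw [lintegral_add_right _ hΛm, lintegral_add_right _ hErm]
    gcongr ?_ + ?_ + ?_
    · calc ∫⁻ X in A, ENNReal.ofReal (Er (X + L)) ≤
          ∫⁻ X in (fun X : ℝ => X + (L : ℝ)) ⁻¹' P, ENNReal.ofReal (Er (X + L)) :=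
            lintegral_mono_set (fun X hX => hX.2)
        _ = ∫⁻ X in P, ENNReal.ofReal (Er X) :=
            htr.setLIntegral_comp_preimage hP hErm
        _ ≤ _ := hFS.err
    · calc ∫⁻ X in A, ENNReal.ofReal (Er X) ≤ ∫⁻ X in P, ENNReal.ofReal (Er X) :=
            lintegral_mono_set (fun X hX => hX.1)
        _ ≤ _ := hFS.err
    · calc ∫⁻ X in A, ENNReal.ofReal |Λ (X + L) - Λ X| ≤ L * eVariationOn Λ P :=
            shift_var P hP Λ hFS.measΛ L hL
        _ ≤ _ := by gcongr; exact hFS.var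
  -- the bad set
  have hn1 : ∀ᵐ X : ℝ, ‖F Q (X, (k : ℝ))‖ = 1 := norm_F_horiz h k
  have hn2 : ∀ᵐ X : ℝ, ‖F Q (X + L, (k : ℝ))‖ = 1 := htr.quasiMeasurePreserving.ae hn1
  have hB1 : ∫⁻ X in I \ A, g X ≤ ∫⁻ _X in I \ A, 2 := by
    apply lintegral_mono_ae
    apply ae_restrict_of_ae
    filter_upwards [hn1, hn2] with X e1 e2
    have : ‖F Q (X + L, (k : ℝ)) - F Q (X, (k : ℝ))‖ ≤ 2 := by
      calc _ ≤ ‖F Q (X + L, (k : ℝ))‖ + ‖F Q (X, (k : ℝ))‖ := norm_sub_le _ _
        _ = 2 := by rw [e1, e2]; norm_num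
    show ‖F Q (X + L, (k : ℝ)) - F Q (X, (k : ℝ))‖ₑ ≤ 2
    rw [← ofReal_norm]
    calc _ ≤ ENNReal.ofReal 2 := ENNReal.ofReal_le_ofReal this
      _ = 2 := by simp
  have hB2 : volume (I \ A) ≤ b + b := by
    have hsub : I \ A ⊆ (Set.Icc 0 x \ P) ∪ (fun X : ℝ => X + (L : ℝ)) ⁻¹' (Set.Icc 0 x \ P) := by
      rintro X ⟨⟨hX0, hX1⟩, hXA⟩
      by_cases hXP : X ∈ P
      · right
        refine ⟨⟨?_, ?_⟩, fun hc => hXA ⟨hXP, hc⟩⟩
        · show 0 ≤ X + (L : ℝ); linarith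
        · show X + (L : ℝ) ≤ x; linarith
      · exact Or.inl ⟨⟨hX0, by linarith⟩, hXP⟩
    calc volume (I \ A) ≤ volume ((Set.Icc 0 x \ P) ∪
          (fun X : ℝ => X + (L : ℝ)) ⁻¹' (Set.Icc 0 x \ P)) := measure_mono hsub
      _ ≤ volume (Set.Icc 0 x \ P) +
          volume ((fun X : ℝ => X + (L : ℝ)) ⁻¹' (Set.Icc 0 x \ P)) := measure_union_le _ _
      _ = b + b := by
          rw [htr.measure_preimage (measurableSet_Icc.diff hP).nullMeasurableSet]
  have hB3 : ∫⁻ X in I \ A, g X ≤ ENNReal.ofReal (4 * (1936 * C0 * (W / τ))) := by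
    calc ∫⁻ X in I \ A, g X ≤ ∫⁻ _X in I \ A, 2 := hB1
      _ = 2 * volume (I \ A) := by rw [setLIntegral_const]
      _ ≤ 2 * (b + b) := by gcongr
      _ = 4 * b := by ring
      _ ≤ 4 * ENNReal.ofReal (1936 * C0 * (W / τ)) := by gcongr
      _ = _ := by
          rw [ENNReal.ofReal_mul (p := (4 : ℝ)) (by norm_num)]
          norm_num
  calc ∫⁻ X in I, g X ≤ (∫⁻ X in A, g X) + ∫⁻ X in I \ A, g X := hstep1
    _ ≤ (ENNReal.ofReal (10 ^ 20 * s) + ENNReal.ofReal (10 ^ 20 * s) +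
          L * ENNReal.ofReal (100 * τ * C0 * s)) +
          ENNReal.ofReal (4 * (1936 * C0 * (W / τ))) := by
        gcongr
        exact hA1.trans hA2
    _ = ENNReal.ofReal (10 ^ 20 * s + 10 ^ 20 * s + L * (100 * τ * C0 * s) +
          4 * (1936 * C0 * (W / τ))) := by
        have : (L : ℝ≥0∞) = ENNReal.ofReal (L : ℝ) := by simp
        rw [this, ← ENNReal.ofReal_mul hL0, ← ENNReal.ofReal_add (by positivity) (by positivity),
          ← ENNReal.ofReal_add (by positivity) (by positivity),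
          ← ENNReal.ofReal_add (by positivity) (by positivity)]
    _ ≤ ENNReal.ofReal (10 ^ 23 * (W / τ + L * τ * W)) := by
        apply ENNReal.ofReal_le_ofReal
        have hWτ : W ≤ (1 / 4) * (W / τ) := by
          have : W = τ * (W / τ) := by field_simp
          have h6 : 0 ≤ W / τ := div_nonneg hW h0.le
          calc W = τ * (W / τ) := this
            _ ≤ (1 / 4) * (W / τ) := mul_le_mul_of_nonneg_right h1.le h6
        have h6 : 0 ≤ W / τ := div_nonneg hW h0.le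
        have h7 : (L : ℝ) * (100 * τ * C0 * s) ≤ (L : ℝ) * (100 * τ * C0 * (121 * W)) := by
          gcongr
        have h8 : (L : ℝ) * (100 * τ * C0 * (121 * W)) = 12100 * C0 * (L * τ * W) := by ring
        have h9 : 0 ≤ (L : ℝ) * τ * W := by positivity
        unfold C0 at *
        nlinarith

/-- T17: by transposition -/
theorem sum_V {n : ℕ} {ι : Type} [Countable ι] {Q : ι → USq} {W : ℝ} (h : PP n Q W)
    (τ : ℝ) (h0 : 0 < τ) (h1 : τ < 1 / 4) (L : ℕ) (hL : 1 ≤ L) (k : ℤ) (hk : 0 ≤ k)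
    (hk2 : k ≤ n) :
    ∫⁻ Y in Set.Icc (0 : ℝ) (n + 1 / 2 - L), ‖FH Q ((k : ℝ), Y + L) - FH Q ((k : ℝ), Y)‖ₑ ≤
      ENNReal.ofReal (10 ^ 23 * (W / τ + L * τ * W)) := by
  have := sum_U h.trans τ h0 h1 L hL k hk hk2
  exact this

end H282R4.PK
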