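import Pool.Agent.H282R3.SQ.Defs

/-!
Plane packings of unit squares around the container `[0, n+1/2]²`.
Project PK: the wasted area of a packing of unit squares in a square of side `n + 1/2` is at least
`c n^(3/5)`.
-/

namespace H282R4.PK

open MeasureTheory
open scoped Real ENNReal
open H282R3.SQ (USq)

/-- the container `[0, n + 1/2]²` -/
def box (n : ℕ) : Set (ℝ × ℝ) :=
  {z | 0 ≤ z.1 ∧ z.1 ≤ n + 1 / 2 ∧ 0 ≤ z.2 ∧ z.2 ≤ n + 1 / 2}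

/-- the uncovered part of the plane -/
def Gap {ι : Type} (Q : ι → USq) : Set (ℝ × ℝ) := (⋃ i, (Q i).C)ᶜ

/-- slope of a square -/
noncomputable def slope (Q : USq) : ℝ := Q.b / Q.a

/-- `|sin 2(θ-θ')| / 2` -/
def rho (Q Q' : USq) : ℝ := |(Q.a * Q'.a + Q.b * Q'.b) * (Q.a * Q'.b - Q.b * Q'.a)|

/-- the mirror image (coordinates exchanged) -/
def tr (Q : USq) : USq := ⟨Q.q, Q.p, Q.a, -Q.b, by have := Q.unit; nlinarith⟩

/-- Packing of the plane by unit squares, perfect and axis-parallel outside `[0,n+1/2]²`, with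
uncovered area at most `W`. -/
structure PP (n : ℕ) {ι : Type} (Q : ι → USq) (W : ℝ) : Prop where
  norm : ∀ i, |(Q i).b| ≤ (Q i).a
  disj : ∀ i j, i ≠ j → Disjoint (Q i).O (Q j).O
  W_nonneg : 0 ≤ W
  gap : volume (Gap Q) ≤ ENNReal.ofReal W
  out_cov : ∀ z : ℝ × ℝ, z ∉ box n → ∃ i, z ∈ (Q i).C
  out_ax : ∀ i, ¬ (Q i).C ⊆ box n → (Q i).b = 0
  bottom : ∀ i, ∀ z ∈ (Q i).C, 0 < z.1 → z.1 < n + 1 / 2 → z.2 < 0 →
    ∃ m : ℤ, (Q i).q = m + 1 / 2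
  top : ∀ i, ∀ z ∈ (Q i).C, 0 < z.1 → z.1 < n + 1 / 2 → (n : ℝ) + 1 / 2 < z.2 →
    ∃ m : ℤ, (Q i).q = m
  left : ∀ i, ∀ z ∈ (Q i).C, 0 < z.2 → z.2 < n + 1 / 2 → z.1 < 0 →
    ∃ m : ℤ, (Q i).p = m + 1 / 2
  right : ∀ i, ∀ z ∈ (Q i).C, 0 < z.2 → z.2 < n + 1 / 2 → (n : ℝ) + 1 / 2 < z.1 →
    ∃ m : ℤ, (Q i).p = m

/-- the vertical phase: `exp(2πi Y)` on the squares, `-1` in the gap -/
noncomputable def F {ι : Type} (Q : ι → USq) (z : ℝ × ℝ) : ℂ :=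
  -1 + ∑ᶠ i, (Q i).C.indicator (fun z => Complex.exp (2 * π * Complex.I * (Q i).Y z) + 1) z

/-- the horizontal phase: `exp(2πi X)` on the squares, `-1` in the gap -/
noncomputable def FH {ι : Type} (Q : ι → USq) (z : ℝ × ℝ) : ℂ := F (fun i => tr (Q i)) (z.2, z.1)

/-- `F (1 + conj FH)` -/
noncomputable def Gf {ι : Type} (Q : ι → USq) (z : ℝ × ℝ) : ℂ :=
  F Q z * (1 + (starRingEnd ℂ) (FH Q z))

/-- half-open unit cell -/
def cell (c : ℤ × ℤ) : Set (ℝ × ℝ) :=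
  {z | (c.1 : ℝ) ≤ z.1 ∧ z.1 < c.1 + 1 ∧ (c.2 : ℝ) ≤ z.2 ∧ z.2 < c.2 + 1}

/-- `11 × 11` window -/
def Rg (c : ℤ × ℤ) : Set (ℝ × ℝ) :=
  {z | (c.1 : ℝ) - 5 ≤ z.1 ∧ z.1 < c.1 + 6 ∧ (c.2 : ℝ) - 5 ≤ z.2 ∧ z.2 < c.2 + 6}

/-- closed `7 × 7` block -/
def Kg (c : ℤ × ℤ) : Set (ℝ × ℝ) :=
  {z | (c.1 : ℝ) - 3 ≤ z.1 ∧ z.1 ≤ c.1 + 4 ∧ (c.2 : ℝ) - 3 ≤ z.2 ∧ z.2 ≤ c.2 + 4}

/-- waste in the window -/
noncomputable def om {ι : Type} (Q : ι → USq) (c : ℤ × ℤ) : ℝ := (volume (Gap Q ∩ Rg c)).toReal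

/-- the rigidity constant -/
def C0 : ℝ := 10 ^ 15

/-- a nice cell: little waste around and some square meeting it has slope at most `1/4` -/
def nice {ι : Type} (Q : ι → USq) (c : ℤ × ℤ) : Prop :=
  om Q c ≤ 1 / (16 * C0) ∧ ∃ i, ((Q i).C ∩ cell c).Nonempty ∧ |slope (Q i)| ≤ 1 / 4

open Classical in
/-- slope of a nice cell -/
noncomputable def bet {ι : Type} (Q : ι → USq) (c : ℤ × ℤ) : ℝ :=
  if h : nice Q c then slope (Q h.2.choose) else 0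

open Classical in
/-- absolute slope of a cell, `1/4` if not nice -/
noncomputable def gam {ι : Type} (Q : ι → USq) (c : ℤ × ℤ) : ℝ :=
  if nice Q c then |bet Q c| else 1 / 4

/-- waste in `B` plus sum of the deviations from the vertical reference vector `w` of all squares
meeting `B` -/
noncomputable def Dev {ι : Type} (Q : ι → USq) (w : ℝ × ℝ) (B : Set (ℝ × ℝ)) : ℝ :=
  (volume (Gap Q ∩ B)).toReal +
    ∑ᶠ i ∈ {i | ((Q i).C ∩ B).Nonempty}, |(Q i).a * w.1 + (Q i).b * w.2|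

/-- comparison of the vertical phase at horizontal distance `L` -/
noncomputable def U {ι : Type} (Q : ι → USq) (L : ℕ) (z : ℤ × ℤ) : ℝ≥0∞ :=
  ∫⁻ X in Set.Icc (z.1 : ℝ) (z.1 + 1), ‖F Q (X + L, (z.2 : ℝ)) - F Q (X, (z.2 : ℝ))‖ₑ

/-- comparison of the horizontal phase at vertical distance `L` -/
noncomputable def V {ι : Type} (Q : ι → USq) (L : ℕ) (z : ℤ × ℤ) : ℝ≥0∞ :=
  ∫⁻ Y in Set.Icc (z.2 : ℝ) (z.2 + 1), ‖FH Q ((z.1 : ℝ), Y + L) - FH Q ((z.1 : ℝ), Y)‖ₑ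

/-- waste along an L-shaped path of cells from `z` to `c` -/
noncomputable def pathsum {ι : Type} (Q : ι → USq) (z c : ℤ × ℤ) : ℝ :=
  ∑ j ∈ Finset.uIcc z.1 c.1, om Q (j, z.2) + ∑ j ∈ Finset.uIcc z.2 c.2, om Q (c.1, j)

/-- total path waste in the box of size `L` at `z` -/
noncomputable def E {ι : Type} (Q : ι → USq) (L : ℕ) (z : ℤ × ℤ) : ℝ :=
  ∑ c ∈ Finset.Icc (z.1 - 4) (z.1 + L + 4) ×ˢ Finset.Icc (z.2 - 4) (z.2 + L + 4), pathsum Q z c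

/-- the closed box of size `L` at `z` (with margin) -/
def Bx (L : ℕ) (z : ℤ × ℤ) : Set (ℝ × ℝ) :=
  {x | (z.1 : ℝ) - 3 ≤ x.1 ∧ x.1 ≤ z.1 + L + 4 ∧ (z.2 : ℝ) - 3 ≤ x.2 ∧ x.2 ≤ z.2 + L + 4}

/-- all cells that matter -/
noncomputable def cells (n : ℕ) : Finset (ℤ × ℤ) :=
  Finset.Icc (-(n : ℤ) - 6) (2 * n + 7) ×ˢ Finset.Icc (-1 : ℤ) (n + 1)

open Classical in
/-- energy of the slopes at most `τ` -/
noncomputable def energy {ι : Type} (n : ℕ) (Q : ι → USq) (τ : ℝ) : ℝ :=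
  ∑ c ∈ cells n, if nice Q c ∧ gam Q c ≤ τ then bet Q c ^ 2 else 0

/-- total waste of the windows of the cells of level `k` -/
noncomputable def lvl {ι : Type} (n : ℕ) (Q : ι → USq) (k : ℤ) : ℝ :=
  ∑ j ∈ Finset.Icc (-(n : ℤ) - 6) (2 * n + 7), om Q (j, k)

open Classical in
/-- energy of the slopes at most `τ` of level `k` -/
noncomputable def elvl {ι : Type} (n : ℕ) (Q : ι → USq) (τ : ℝ) (k : ℤ) : ℝ :=
  ∑ j ∈ Finset.Icc (-(n : ℤ) - 6) (2 * n + 7),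
    if nice Q (j, k) ∧ gam Q (j, k) ≤ τ then bet Q (j, k) ^ 2 else 0

/-- The state of the flow at level `k`: alive set `P`, accumulated phase `Λ`, accumulated error
`Er`, potential `m`; `s`, `e` are the total waste and energy of the levels below `k`. -/
structure FS {ι : Type} (n : ℕ) (Q : ι → USq) (τ : ℝ) (k : ℤ) (P : Set ℝ) (Λ Er m : ℝ → ℝ)
    (s e : ℝ) : Prop where
  measP : MeasurableSet P
  measΛ : Measurable Λ
  measEr : Measurable Er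
  measm : Measurable m
  sub : P ⊆ Set.Icc (-((k : ℝ) + 1) / 4) ((n : ℝ) + 1 / 2 + ((k : ℝ) + 1) / 4)
  Λ_nonneg : ∀ X ∈ P, 0 ≤ Λ X
  Er_nonneg : ∀ X ∈ P, 0 ≤ Er X
  m_ge : ∀ X ∈ P, gam Q (⌊X⌋, k) ≤ m X
  phase : ∀ X ∈ P, ‖F Q (X, (k : ℝ)) + Complex.exp (Complex.I * (Λ X : ℝ))‖ ≤ Er X
  err : ∫⁻ X in P, ENNReal.ofReal (Er X) ≤ ENNReal.ofReal (10 ^ 20 * s)
  pot : (∫⁻ X in P, ENNReal.ofReal (m X)) + ENNReal.ofReal (τ * (n + 1 / 2)) ≤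
    ENNReal.ofReal τ * volume P + ENNReal.ofReal (10 * C0 * s + 4 * C0 * lvl n Q k)
  left : volume (P ∩ Set.Iio 0) ≤ ENNReal.ofReal (4 * C0 * s)
  right : volume (P ∩ Set.Ioi ((n : ℝ) + 1 / 2)) ≤ ENNReal.ofReal (4 * C0 * s)
  var : eVariationOn Λ P ≤ ENNReal.ofReal (100 * τ * C0 * s)
  en : ∫⁻ X in P, ENNReal.ofReal (Λ X) ≤ ENNReal.ofReal (π * e)

end H282R4.PK
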