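import Pool.Agent.H282R4.PK.Defs
import Pool.Agent.H282R3.SQ.ClosePair
import Pool.Agent.H282R3.SQ.Area
import Pool.Agent.H282R3.SQ.Contact

/-! Task 30 (helper585): extension of a packing of the container to the plane. -/

namespace H282R4.PK

open MeasureTheory
open scoped Real ENNReal
open H282R3.SQ (USq)

namespace Pinwheel

theorem rot_O (Q : USq) : Q.rot.O = Q.O := by
  ext z
  simp only [USq.O, Set.mem_ofPred_eq, H282R3.SQ.rot_X, H282R3.SQ.rot_Y, abs_neg]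
  tauto

/-- normal form of the frame -/
theorem exists_nf (Q : USq) : ∃ R : USq, |R.b| ≤ R.a ∧ R.C = Q.C ∧ R.O = Q.O := by
  have hC := H282R3.SQ.rot_C
  have hO := rot_O
  by_cases h : |Q.b| ≤ |Q.a|
  · by_cases ha : 0 ≤ Q.a
    · exact ⟨Q, by rwa [abs_of_nonneg ha] at h, rfl, rfl⟩
    · refine ⟨Q.rot.rot, ?_, by rw [hC, hC], by rw [hO, hO]⟩
      simp only [USq.rot, abs_neg]
      rwa [abs_of_neg (not_le.1 ha)] at h
  · have h' : |Q.a| ≤ |Q.b| := (not_le.1 h).le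
    by_cases hb : 0 ≤ Q.b
    · refine ⟨Q.rot.rot.rot, ?_, by rw [hC, hC, hC], by rw [hO, hO, hO]⟩
      simp only [USq.rot, abs_neg, neg_neg]
      rwa [abs_of_nonneg hb] at h'
    · refine ⟨Q.rot, ?_, by rw [hC], by rw [hO]⟩
      simp only [USq.rot]
      rwa [abs_of_neg (not_le.1 hb)] at h'

/-- axis-parallel square -/
noncomputable def ax (p q : ℝ) : USq := ⟨p, q, 1, 0, by norm_num⟩

theorem mem_ax_C (p q : ℝ) (z : ℝ × ℝ) :
    z ∈ (ax p q).C ↔ |z.1 - p| ≤ 1 / 2 ∧ |z.2 - q| ≤ 1 / 2 := by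
  simp [ax, USq.C, USq.X, USq.Y]

theorem mem_ax_O (p q : ℝ) (z : ℝ × ℝ) :
    z ∈ (ax p q).O ↔ |z.1 - p| < 1 / 2 ∧ |z.2 - q| < 1 / 2 := by
  simp [ax, USq.O, USq.X, USq.Y]

/-- centre, first coordinate -/
noncomputable def cp (x : ℝ) (f : Fin 4) (j : ℕ) : ℝ :=
  match f with
  | 0 => x + j + 1 / 2
  | 1 => j + 1 / 2
  | 2 => -j - 1 / 2
  | 3 => x - j - 1 / 2

/-- centre, second coordinate -/
noncomputable def cq (x : ℝ) (f : Fin 4) (k : ℕ) : ℝ :=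
  match f with
  | 0 => x - k - 1 / 2
  | 1 => x + k + 1 / 2
  | 2 => k + 1 / 2
  | 3 => -k - 1 / 2

/-- the whole family -/
noncomputable def fam {N : ℕ} (x : ℝ) (R : Fin N → USq) :
    Fin N ⊕ (Fin 4 × ℕ × ℕ) → USq
  | .inl i => R i
  | .inr (f, j, k) => ax (cp x f j) (cq x f k)

theorem nat_eq_of {u : ℝ} {j k : ℕ} (h1 : (j : ℝ) < u) (h2 : u < j + 1) (h3 : (k : ℝ) < u)
    (h4 : u < k + 1) : j = k := by
  have a : (j : ℝ) < (k + 1 : ℕ) := by push_cast; linarith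
  have b : (k : ℝ) < (j + 1 : ℕ) := by push_cast; linarith
  have a' := Nat.cast_lt.1 a
  have b' := Nat.cast_lt.1 b
  omega

theorem out_mem {x : ℝ} (hx : 0 ≤ x) (z : ℝ × ℝ) (hz : ¬ (0 ≤ z.1 ∧ z.1 ≤ x ∧ 0 ≤ z.2 ∧ z.2 ≤ x)) :
    ∃ (f : Fin 4) (j k : ℕ), z ∈ (ax (cp x f j) (cq x f k)).C := by
  have key : ∀ u : ℝ, 0 ≤ u → (⌊u⌋₊ : ℝ) ≤ u ∧ u < ⌊u⌋₊ + 1 := fun u hu =>
    ⟨Nat.floor_le hu, Nat.lt_floor_add_one u⟩
  by_cases c0 : x ≤ z.1 ∧ z.2 ≤ x
  · obtain ⟨a1, a2⟩ := key (z.1 - x) (by linarith [c0.1])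
    obtain ⟨b1, b2⟩ := key (x - z.2) (by linarith [c0.2])
    refine ⟨0, ⌊z.1 - x⌋₊, ⌊x - z.2⌋₊, (mem_ax_C _ _ _).2 ?_⟩
    simp only [cp, cq, abs_le]
    refine ⟨⟨?_, ?_⟩, ?_, ?_⟩ <;> linarith
  by_cases c1 : 0 ≤ z.1 ∧ x ≤ z.2
  · obtain ⟨a1, a2⟩ := key (z.1) (by linarith [c1.1])
    obtain ⟨b1, b2⟩ := key (z.2 - x) (by linarith [c1.2])
    refine ⟨1, ⌊z.1⌋₊, ⌊z.2 - x⌋₊, (mem_ax_C _ _ _).2 ?_⟩
    simp only [cp, cq, abs_le]
    refine ⟨⟨?_, ?_⟩, ?_, ?_⟩ <;> linarith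
  by_cases c2 : z.1 ≤ 0 ∧ 0 ≤ z.2
  · obtain ⟨a1, a2⟩ := key (-z.1) (by linarith [c2.1])
    obtain ⟨b1, b2⟩ := key (z.2) (by linarith [c2.2])
    refine ⟨2, ⌊-z.1⌋₊, ⌊z.2⌋₊, (mem_ax_C _ _ _).2 ?_⟩
    simp only [cp, cq, abs_le]
    refine ⟨⟨?_, ?_⟩, ?_, ?_⟩ <;> linarith
  by_cases c3 : z.1 ≤ x ∧ z.2 ≤ 0
  · obtain ⟨a1, a2⟩ := key (x - z.1) (by linarith [c3.1])
    obtain ⟨b1, b2⟩ := key (-z.2) (by linarith [c3.2])
    refine ⟨3, ⌊x - z.1⌋₊, ⌊-z.2⌋₊, (mem_ax_C _ _ _).2 ?_⟩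
    simp only [cp, cq, abs_le]
    refine ⟨⟨?_, ?_⟩, ?_, ?_⟩ <;> linarith
  exfalso
  apply hz
  push Not at c0 c1 c2 c3
  refine ⟨?_, ?_, ?_, ?_⟩
  · by_contra h
    have h := not_le.1 h
    linarith [c2 h.le, c3 (by linarith)]
  · by_contra h
    have h := not_le.1 h
    linarith [c0 h.le, c1 (by linarith)]
  · by_contra h
    have h := not_le.1 h
    rcases le_total z.1 x with h' | h'
    · linarith [c3 h']
    · linarith [c0 h']
  · by_contra h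
    have h := not_le.1 h
    rcases le_total 0 z.1 with h' | h'
    · linarith [c1 h']
    · linarith [c2 h']

/-- the four regions -/
theorem region {x : ℝ} (f : Fin 4) (j k : ℕ) (z : ℝ × ℝ)
    (hz : z ∈ (ax (cp x f j) (cq x f k)).C) :
    (f = 0 ∧ x + j ≤ z.1 ∧ z.1 ≤ x + j + 1 ∧ x - k - 1 ≤ z.2 ∧ z.2 ≤ x - k) ∨
    (f = 1 ∧ (j : ℝ) ≤ z.1 ∧ z.1 ≤ j + 1 ∧ x + k ≤ z.2 ∧ z.2 ≤ x + k + 1) ∨
    (f = 2 ∧ -(j : ℝ) - 1 ≤ z.1 ∧ z.1 ≤ -j ∧ (k : ℝ) ≤ z.2 ∧ z.2 ≤ k + 1) ∨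
    (f = 3 ∧ x - j - 1 ≤ z.1 ∧ z.1 ≤ x - j ∧ -(k : ℝ) - 1 ≤ z.2 ∧ z.2 ≤ -k) := by
  rw [mem_ax_C] at hz
  fin_cases f
  · left
    simp only [cp, cq, abs_le, Fin.zero_eta, Fin.isValue] at hz ⊢
    refine ⟨trivial, ?_, ?_, ?_, ?_⟩ <;> linarith [hz.1.1, hz.1.2, hz.2.1, hz.2.2]
  · right; left
    simp only [cp, cq, abs_le, Fin.mk_one, Fin.isValue] at hz ⊢
    refine ⟨trivial, ?_, ?_, ?_, ?_⟩ <;> linarith [hz.1.1, hz.1.2, hz.2.1, hz.2.2]
  · right; right; left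
    simp only [cp, cq, abs_le, Fin.reduceFinMk, Fin.isValue] at hz ⊢
    refine ⟨trivial, ?_, ?_, ?_, ?_⟩ <;> linarith [hz.1.1, hz.1.2, hz.2.1, hz.2.2]
  · right; right; right
    simp only [cp, cq, abs_le, Fin.reduceFinMk, Fin.isValue] at hz ⊢
    refine ⟨trivial, ?_, ?_, ?_, ?_⟩ <;> linarith [hz.1.1, hz.1.2, hz.2.1, hz.2.2]

theorem regionO {x : ℝ} (f : Fin 4) (j k : ℕ) (z : ℝ × ℝ)
    (hz : z ∈ (ax (cp x f j) (cq x f k)).O) :
    (f = 0 ∧ x + j < z.1 ∧ z.1 < x + j + 1 ∧ x - k - 1 < z.2 ∧ z.2 < x - k) ∨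
    (f = 1 ∧ (j : ℝ) < z.1 ∧ z.1 < j + 1 ∧ x + k < z.2 ∧ z.2 < x + k + 1) ∨
    (f = 2 ∧ -(j : ℝ) - 1 < z.1 ∧ z.1 < -j ∧ (k : ℝ) < z.2 ∧ z.2 < k + 1) ∨
    (f = 3 ∧ x - j - 1 < z.1 ∧ z.1 < x - j ∧ -(k : ℝ) - 1 < z.2 ∧ z.2 < -k) := by
  rw [mem_ax_O] at hz
  fin_cases f
  · left
    simp only [cp, cq, abs_lt, Fin.zero_eta, Fin.isValue] at hz ⊢
    refine ⟨trivial, ?_, ?_, ?_, ?_⟩ <;> linarith [hz.1.1, hz.1.2, hz.2.1, hz.2.2]
  · right; left
    simp only [cp, cq, abs_lt, Fin.mk_one, Fin.isValue] at hz ⊢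
    refine ⟨trivial, ?_, ?_, ?_, ?_⟩ <;> linarith [hz.1.1, hz.1.2, hz.2.1, hz.2.2]
  · right; right; left
    simp only [cp, cq, abs_lt, Fin.reduceFinMk, Fin.isValue] at hz ⊢
    refine ⟨trivial, ?_, ?_, ?_, ?_⟩ <;> linarith [hz.1.1, hz.1.2, hz.2.1, hz.2.2]
  · right; right; right
    simp only [cp, cq, abs_lt, Fin.reduceFinMk, Fin.isValue] at hz ⊢
    refine ⟨trivial, ?_, ?_, ?_, ?_⟩ <;> linarith [hz.1.1, hz.1.2, hz.2.1, hz.2.2]

theorem out_disj {x : ℝ} (hx : 0 ≤ x) (f f' : Fin 4) (j k j' k' : ℕ) (z : ℝ × ℝ)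
    (hz : z ∈ (ax (cp x f j) (cq x f k)).O) (hz' : z ∈ (ax (cp x f' j') (cq x f' k')).O) :
    (f, j, k) = (f', j', k') := by
  have hj : (0 : ℝ) ≤ j := Nat.cast_nonneg j
  have hk : (0 : ℝ) ≤ k := Nat.cast_nonneg k
  have hj' : (0 : ℝ) ≤ j' := Nat.cast_nonneg j'
  have hk' : (0 : ℝ) ≤ k' := Nat.cast_nonneg k'
  rcases regionO f j k z hz with ⟨h, a1, a2, a3, a4⟩ | ⟨h, a1, a2, a3, a4⟩ |
    ⟨h, a1, a2, a3, a4⟩ | ⟨h, a1, a2, a3, a4⟩ <;>
  rcases regionO f' j' k' z hz' with ⟨h', b1, b2, b3, b4⟩ | ⟨h', b1, b2, b3, b4⟩ |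
    ⟨h', b1, b2, b3, b4⟩ | ⟨h', b1, b2, b3, b4⟩
  · rw [h, h', nat_eq_of (u := z.1 - x) (j := j) (k := j') (by linarith) (by linarith)
      (by linarith) (by linarith), nat_eq_of (u := x - z.2) (j := k) (k := k') (by linarith)
      (by linarith) (by linarith) (by linarith)]
  · exfalso; linarith
  · exfalso; linarith
  · exfalso; linarith
  · exfalso; linarith
  · rw [h, h', nat_eq_of (u := z.1) (j := j) (k := j') (by linarith) (by linarith)
      (by linarith) (by linarith), nat_eq_of (u := z.2 - x) (j := k) (k := k') (by linarith)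
      (by linarith) (by linarith) (by linarith)]
  · exfalso; linarith
  · exfalso; linarith
  · exfalso; linarith
  · exfalso; linarith
  · rw [h, h', nat_eq_of (u := -z.1) (j := j) (k := j') (by linarith) (by linarith)
      (by linarith) (by linarith), nat_eq_of (u := z.2) (j := k) (k := k') (by linarith)
      (by linarith) (by linarith) (by linarith)]
  · exfalso; linarith
  · exfalso; linarith
  · exfalso; linarith
  · exfalso; linarith
  · rw [h, h', nat_eq_of (u := x - z.1) (j := j) (k := j') (by linarith) (by linarith)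
      (by linarith) (by linarith), nat_eq_of (u := -z.2) (j := k) (k := k') (by linarith)
      (by linarith) (by linarith) (by linarith)]

theorem out_not_box {n : ℕ} (f : Fin 4) (j k : ℕ) (z : ℝ × ℝ)
    (hz : z ∈ (ax (cp ((n : ℝ) + 1 / 2) f j) (cq ((n : ℝ) + 1 / 2) f k)).O) : z ∉ box n := by
  have hj : (0 : ℝ) ≤ j := Nat.cast_nonneg j
  have hk : (0 : ℝ) ≤ k := Nat.cast_nonneg k
  rintro ⟨c1, c2, c3, c4⟩
  rcases regionO f j k z hz with ⟨h, a1, a2, a3, a4⟩ | ⟨h, a1, a2, a3, a4⟩ |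
    ⟨h, a1, a2, a3, a4⟩ | ⟨h, a1, a2, a3, a4⟩ <;> linarith

theorem interior_C_sub (Q : USq) : interior Q.C ⊆ Q.O := by
  intro z hz
  by_contra hO
  obtain ⟨σ, hσ⟩ := H282R3.SQ.exists_side Q z (interior_subset hz) hO
  set R := USq.rot^[(σ : ℕ)] Q with hR
  have hRC : R.C = Q.C := H282R3.SQ.rot_iter_C Q _
  have hcont : Continuous (fun t : ℝ => ((z.1 + t * R.a, z.2 + t * R.b) : ℝ × ℝ)) := by fun_prop
  have h0 : (fun t : ℝ => ((z.1 + t * R.a, z.2 + t * R.b) : ℝ × ℝ)) 0 = z := by simp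
  have hev : ∀ᶠ t in nhds (0 : ℝ), ((z.1 + t * R.a, z.2 + t * R.b) : ℝ × ℝ) ∈ Q.C := by
    have h1 : Q.C ∈ nhds ((fun t : ℝ => ((z.1 + t * R.a, z.2 + t * R.b) : ℝ × ℝ)) 0) := by
      rw [h0]; exact mem_interior_iff_mem_nhds.1 hz
    exact hcont.continuousAt h1
  have hpos : ∃ᶠ t in nhds (0 : ℝ), 0 < t := by
    have h1 : (nhdsWithin (0 : ℝ) (Set.Ioi 0)).NeBot := inferInstance
    have h2 : ∀ᶠ t in nhdsWithin (0 : ℝ) (Set.Ioi 0), 0 < t := self_mem_nhdsWithin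
    exact (h2.frequently).filter_mono nhdsWithin_le_nhds
  obtain ⟨t, ht, htC⟩ := (hpos.and_eventually hev).exists
  rw [← hRC] at htC
  have hX := htC.1
  have : R.X (z.1 + t * R.a, z.2 + t * R.b) = 1 / 2 + t := by
    rw [← hσ]
    simp only [USq.X]
    have := R.unit
    linear_combination t * this
  rw [this, abs_of_pos (by linarith)] at hX
  linarith

theorem aedisj {Q R : USq} (h : Disjoint Q.O R.O) : AEDisjoint volume Q.C R.C := by
  have hQ : volume (frontier Q.C) = 0 := (H282R3.SQ.convex_C Q).addHaar_frontier _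
  have hR : volume (frontier R.C) = 0 := (H282R3.SQ.convex_C R).addHaar_frontier _
  have : Q.C ∩ R.C ⊆ frontier Q.C ∪ frontier R.C := by
    intro z hz
    by_contra hcon
    rw [Set.mem_union] at hcon
    push Not at hcon
    have h1 : z ∈ interior Q.C := by
      by_contra hi
      exact hcon.1 ⟨subset_closure hz.1, hi⟩
    have h2 : z ∈ interior R.C := by
      by_contra hi
      exact hcon.2 ⟨subset_closure hz.2, hi⟩
    exact Set.disjoint_left.1 h (interior_C_sub Q h1) (interior_C_sub R h2)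
  exact measure_mono_null this (measure_union_null hQ hR)

theorem volume_union {N : ℕ} (R : Fin N → USq) (h : ∀ i j, i ≠ j → Disjoint (R i).O (R j).O) :
    volume (⋃ i, (R i).C) = N := by
  rw [measure_iUnion₀ (fun i j hij => aedisj (h i j hij))
    (fun i => (H282R3.SQ.measurableSet_C _).nullMeasurableSet)]
  simp [H282R3.SQ.volume_C]

theorem box_eq (n : ℕ) : box n = Set.Icc (0 : ℝ) (n + 1 / 2) ×ˢ Set.Icc (0 : ℝ) (n + 1 / 2) := by
  ext z
  simp only [box, Set.mem_ofPred_eq, Set.mem_prod, Set.mem_Icc]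
  tauto

theorem volume_box (n : ℕ) : volume (box n) = ENNReal.ofReal (((n : ℝ) + 1 / 2) ^ 2) := by
  rw [box_eq, Measure.volume_eq_prod, Measure.prod_prod, Real.volume_Icc, sub_zero,
    ← ENNReal.ofReal_mul (by positivity), sq]

end Pinwheel

open Pinwheel in
/-- T20: extension of a packing of the container to the plane. -/
theorem exists_PP (n N : ℕ) (Q0 : Fin N → USq) (hin : ∀ i, (Q0 i).C ⊆ box n)
    (hdisj : ∀ i j, i ≠ j → Disjoint (Q0 i).O (Q0 j).O) :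
    ∃ (ι : Type) (_ : Countable ι) (Q : ι → USq), PP n Q (((n : ℝ) + 1 / 2) ^ 2 - N) := by
  choose R hR1 hR2 hR3 using fun i => exists_nf (Q0 i)
  have hx : (0 : ℝ) ≤ (n : ℝ) + 1 / 2 := by positivity
  have hRin : ∀ i, (R i).C ⊆ box n := fun i => by rw [hR2]; exact hin i
  have hRd : ∀ i j, i ≠ j → Disjoint (R i).O (R j).O := fun i j hij => by
    rw [hR3, hR3]; exact hdisj i j hij
  have hvol := volume_union R hRd
  have hsub : (⋃ i, (R i).C) ⊆ box n := Set.iUnion_subset hRin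
  have hN : (N : ℝ) ≤ ((n : ℝ) + 1 / 2) ^ 2 := by
    have h1 := measure_mono (μ := volume) hsub
    rw [hvol, volume_box] at h1
    have h2 := ENNReal.toReal_mono ENNReal.ofReal_ne_top h1
    rwa [ENNReal.toReal_natCast, ENNReal.toReal_ofReal (by positivity)] at h2
  refine ⟨Fin N ⊕ (Fin 4 × ℕ × ℕ), inferInstance, fam ((n : ℝ) + 1 / 2) R, ?_⟩
  constructor
  · -- norm
    rintro (i | ⟨f, j, k⟩)
    · exact hR1 i
    · simp [fam, ax]
  · -- disj
    rintro (i | ⟨f, j, k⟩) (i' | ⟨f', j', k'⟩) hne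
    · exact hRd i i' (fun h => hne (by rw [h]))
    · rw [Set.disjoint_left]
      intro z hz hz'
      exact out_not_box f' j' k' z hz' (hRin i (H282R3.SQ.O_subset_C _ hz))
    · rw [Set.disjoint_left]
      intro z hz hz'
      exact out_not_box f j k z hz (hRin i' (H282R3.SQ.O_subset_C _ hz'))
    · rw [Set.disjoint_left]
      intro z hz hz'
      exact hne (by rw [out_disj hx f f' j k j' k' z hz hz'])
  · linarith
  · -- gap
    have hgap : Gap (fam ((n : ℝ) + 1 / 2) R) ⊆ box n \ ⋃ i, (R i).C := by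
      intro z hz
      simp only [Gap, Set.mem_compl_iff, Set.mem_iUnion, not_exists] at hz
      refine ⟨?_, ?_⟩
      · by_contra hb
        obtain ⟨f, j, k, hm⟩ := out_mem hx z hb
        exact hz (.inr (f, j, k)) hm
      · simp only [Set.mem_iUnion, not_exists]
        exact fun i => hz (.inl i)
    refine (measure_mono hgap).trans ?_
    rw [measure_sdiff hsub
      (MeasurableSet.iUnion fun i => H282R3.SQ.measurableSet_C _).nullMeasurableSet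
      (by rw [hvol]; exact ENNReal.natCast_ne_top N), hvol, volume_box,
      ENNReal.ofReal_sub _ (Nat.cast_nonneg N), ENNReal.ofReal_natCast]
  · -- out_cov
    intro z hz
    obtain ⟨f, j, k, hm⟩ := out_mem hx z hz
    exact ⟨.inr (f, j, k), hm⟩
  · -- out_ax
    rintro (i | ⟨f, j, k⟩) h
    · exact absurd (hRin i) h
    · rfl
  · -- bottom
    rintro (i | ⟨f, j, k⟩) z hz h1 h2 h3
    · have := hRin i hz
      exact absurd this.2.2.1 (not_le.2 h3)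
    · have hj : (0 : ℝ) ≤ j := Nat.cast_nonneg j
      have hk : (0 : ℝ) ≤ k := Nat.cast_nonneg k
      rcases region f j k z hz with ⟨h, a1, a2, a3, a4⟩ | ⟨h, a1, a2, a3, a4⟩ |
        ⟨h, a1, a2, a3, a4⟩ | ⟨h, a1, a2, a3, a4⟩
      · exfalso; linarith
      · exfalso; linarith
      · exfalso; linarith
      · refine ⟨-(k : ℤ) - 1, ?_⟩
        subst h
        simp only [fam, ax, cq]
        push_cast
        ring
  · -- top
    rintro (i | ⟨f, j, k⟩) z hz h1 h2 h3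
    · have := hRin i hz
      exact absurd this.2.2.2 (not_le.2 h3)
    · have hj : (0 : ℝ) ≤ j := Nat.cast_nonneg j
      have hk : (0 : ℝ) ≤ k := Nat.cast_nonneg k
      rcases region f j k z hz with ⟨h, a1, a2, a3, a4⟩ | ⟨h, a1, a2, a3, a4⟩ |
        ⟨h, a1, a2, a3, a4⟩ | ⟨h, a1, a2, a3, a4⟩
      · exfalso; linarith
      · refine ⟨n + k + 1, ?_⟩
        subst h
        simp only [fam, ax, cq]
        push_cast
        ring
      · exfalso; linarith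
      · exfalso; linarith
  · -- left
    rintro (i | ⟨f, j, k⟩) z hz h1 h2 h3
    · have := hRin i hz
      exact absurd this.1 (not_le.2 h3)
    · have hj : (0 : ℝ) ≤ j := Nat.cast_nonneg j
      have hk : (0 : ℝ) ≤ k := Nat.cast_nonneg k
      rcases region f j k z hz with ⟨h, a1, a2, a3, a4⟩ | ⟨h, a1, a2, a3, a4⟩ |
        ⟨h, a1, a2, a3, a4⟩ | ⟨h, a1, a2, a3, a4⟩
      · exfalso; linarith
      · exfalso; linarith
      · refine ⟨-(j : ℤ) - 1, ?_⟩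
        subst h
        simp only [fam, ax, cp]
        push_cast
        ring
      · exfalso; linarith
  · -- right
    rintro (i | ⟨f, j, k⟩) z hz h1 h2 h3
    · have := hRin i hz
      exact absurd this.2.1 (not_le.2 h3)
    · have hj : (0 : ℝ) ≤ j := Nat.cast_nonneg j
      have hk : (0 : ℝ) ≤ k := Nat.cast_nonneg k
      rcases region f j k z hz with ⟨h, a1, a2, a3, a4⟩ | ⟨h, a1, a2, a3, a4⟩ |
        ⟨h, a1, a2, a3, a4⟩ | ⟨h, a1, a2, a3, a4⟩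
      · refine ⟨n + j + 1, ?_⟩
        subst h
        simp only [fam, ax, cp]
        push_cast
        ring
      · exfalso; linarith
      · exfalso; linarith
      · exfalso; linarith

end H282R4.PK
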