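import Pool.Agent.H282R4.PK.Combine
import Pool.Agent.H282R4.PK.Pinwheel

/-! T21: the wasted area is at least `δ (n+1/2)^(3/5)`. -/

namespace H282R4.PK

open MeasureTheory
open scoped Real ENNReal
open H282R3.SQ (USq)

/-- T21 -/
theorem waste_lower : ∃ δ : ℝ, 0 < δ ∧ ∀ (n N : ℕ) (Q0 : Fin N → USq), 1 ≤ n →
    (∀ i, (Q0 i).C ⊆ box n) → (∀ i j, i ≠ j → Disjoint (Q0 i).O (Q0 j).O) →
    δ * ((n : ℝ) + 1 / 2) ^ ((3 : ℝ) / 5) ≤ ((n : ℝ) + 1 / 2) ^ 2 - N := by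
  obtain ⟨δ, hδ, hc⟩ := combine
  refine ⟨δ, hδ, ?_⟩
  intro n N Q0 hn hin hdisj
  obtain ⟨ι, hι, Q, hPP⟩ := exists_PP n N Q0 hin hdisj
  have h0 : (0 : ℝ) ≤ ((n : ℝ) + 1 / 2) ^ 2 - N := hPP.W_nonneg
  have hne : ((n : ℝ) + 1 / 2) ^ 2 - N ≠ 0 := by
    intro h
    have h1 : (4 : ℝ) * n ^ 2 + 4 * n + 1 = 4 * N := by linarith [h]
    have h2 : 4 * n ^ 2 + 4 * n + 1 = 4 * N := by exact_mod_cast h1
    omega
  exact @hc n ι hι Q _ hn (lt_of_le_of_ne h0 (Ne.symm hne)) hPP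

end H282R4.PK
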