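import Pool.Agent.H282R3.SQ.Contact
import Pool.Agent.H282R4.PK.Defs

/-! Auxiliary file for the modules LineF and LineG (helper58): the chord lemma. -/

namespace H282R4.PK.LineAux

open MeasureTheory Set
open scoped Real ENNReal

/-- End point estimate. -/
private theorem endpt (K O Cr : Set ℝ) (φ : ℝ → ℂ)
    (hb : ∀ s ∈ K, s ∉ O → s ∉ Cr → φ s = 0) (hb2 : ∀ s, ‖φ s‖ ≤ 2) (ℓ : ℝ) (m : ℝ)
    (hm0 : 0 ≤ m) (hm : (∃ s ∈ Icc (0 : ℝ) ℓ, s ∈ K ∧ s ∈ Cr) → m = 4)
    (β p : ℝ) (hβ : β ∈ Icc (0 : ℝ) ℓ) (hβK : β ∈ K) (hp : p ∈ K → β = p)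
    (hend : p ∉ K → β ∉ O) :
    ‖K.indicator φ p - φ β‖ ≤ m / 2 := by
  by_cases h : p ∈ K
  · rw [indicator_of_mem h, hp h, sub_self, norm_zero]
    linarith
  · rw [indicator_of_notMem h, zero_sub, norm_neg]
    by_cases hc : β ∈ Cr
    · rw [hm ⟨β, hβ, hβK, hc⟩]
      linarith [hb2 β]
    · rw [hb β hβK (hend h) hc, norm_zero]
      linarith

theorem chord (K O Cr : Set ℝ) (hK : IsClosed K) (hKc : K.OrdConnected) (hO : IsOpen O)
    (hOK : O ⊆ K) (φ φ' D : ℝ → ℂ) (hφ : ∀ s, HasDerivAt φ (φ' s) s) (hφ' : Continuous φ')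
    (hD : Continuous D) (c : ℝ) (hcD : ∀ s, ‖φ' s - D s‖ ≤ c)
    (hb : ∀ s ∈ K, s ∉ O → s ∉ Cr → φ s = 0) (hb2 : ∀ s, ‖φ s‖ ≤ 2) (ℓ : ℝ) (hℓ : 0 ≤ ℓ)
    (m : ℝ) (hm0 : 0 ≤ m) (hm : (∃ s ∈ Icc (0 : ℝ) ℓ, s ∈ K ∧ s ∈ Cr) → m = 4) :
    ‖K.indicator φ ℓ - K.indicator φ 0 - ∫ s in (0 : ℝ)..ℓ, K.indicator D s‖ ≤
      c * (volume {s : ℝ | s ∈ Icc (0 : ℝ) ℓ ∧ s ∈ K}).toReal + m := by
  set T : Set ℝ := {s : ℝ | s ∈ Icc (0 : ℝ) ℓ ∧ s ∈ K} with hT
  have hTeq : T = Icc (0 : ℝ) ℓ ∩ K := rfl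
  have hint : ∫ s in (0 : ℝ)..ℓ, K.indicator D s = ∫ s in T, D s := by
    rw [intervalIntegral.integral_of_le hℓ, ← integral_Icc_eq_integral_Ioc,
      setIntegral_indicator hK.measurableSet, hTeq]
  rw [hint]
  rcases T.eq_empty_or_nonempty with hE | hne
  · rw [hE]
    have h1 : ℓ ∉ K := fun h => by
      have : ℓ ∈ T := ⟨⟨hℓ, le_refl _⟩, h⟩
      rw [hE] at this; exact this
    have h0 : (0 : ℝ) ∉ K := fun h => by
      have : (0 : ℝ) ∈ T := ⟨⟨le_refl _, hℓ⟩, h⟩
      rw [hE] at this; exact this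
    rw [indicator_of_notMem h1, indicator_of_notMem h0]
    simp [hm0]
  · have hTc : IsCompact T := by
      rw [hTeq]; exact isCompact_Icc.inter_right hK
    have hTo : T.OrdConnected := by
      rw [hTeq]; exact OrdConnected.inter ordConnected_Icc hKc
    set α := sInf T with hα
    set β := sSup T with hβ
    have hαT : α ∈ T := hTc.sInf_mem hne
    have hβT : β ∈ T := hTc.sSup_mem hne
    have hlo : ∀ t ∈ T, α ≤ t := fun t ht => csInf_le hTc.bddBelow ht
    have hhi : ∀ t ∈ T, t ≤ β := fun t ht => le_csSup hTc.bddAbove ht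
    have hTI : T = Icc α β := by
      apply Subset.antisymm
      · intro t ht; exact ⟨hlo t ht, hhi t ht⟩
      · exact hTo.out hαT hβT
    have hαβ : α ≤ β := hlo β hβT
    have e1 : ‖K.indicator φ ℓ - φ β‖ ≤ m / 2 := by
      refine endpt K O Cr φ hb hb2 ℓ m hm0 hm β ℓ hβT.1 hβT.2 ?_ ?_
      · intro h
        exact le_antisymm hβT.1.2 (hhi ℓ ⟨⟨hℓ, le_refl _⟩, h⟩)
      · intro h hβO
        have hlt : β < ℓ := by
          rcases lt_or_eq_of_le hβT.1.2 with h' | h'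
          · exact h'
          · exact absurd (h' ▸ hβT.2) h
        obtain ⟨ε, hε, hball⟩ := Metric.isOpen_iff.1 hO β hβO
        have hmem : β + min (ε / 2) (ℓ - β) ∈ T := by
          refine ⟨⟨?_, ?_⟩, hOK (hball ?_)⟩
          · have : 0 ≤ min (ε / 2) (ℓ - β) := le_min (by linarith) (by linarith)
            linarith [hβT.1.1]
          · linarith [min_le_right (ε / 2) (ℓ - β)]
          · rw [Metric.mem_ball, Real.dist_eq, add_sub_cancel_left, abs_of_nonneg
              (le_min (by linarith) (by linarith))]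
            linarith [min_le_left (ε / 2) (ℓ - β)]
        have := hhi _ hmem
        have hpos : 0 < min (ε / 2) (ℓ - β) := lt_min (by linarith) (by linarith)
        linarith
    have e0 : ‖K.indicator φ 0 - φ α‖ ≤ m / 2 := by
      refine endpt K O Cr φ hb hb2 ℓ m hm0 hm α 0 hαT.1 hαT.2 ?_ ?_
      · intro h
        exact le_antisymm (hlo 0 ⟨⟨le_refl _, hℓ⟩, h⟩) hαT.1.1
      · intro h hαO
        have hlt : 0 < α := by
          rcases lt_or_eq_of_le hαT.1.1 with h' | h'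
          · exact h'
          · exact absurd (h' ▸ hαT.2) h
        obtain ⟨ε, hε, hball⟩ := Metric.isOpen_iff.1 hO α hαO
        have hmem : α - min (ε / 2) α ∈ T := by
          have hpos : 0 ≤ min (ε / 2) α := le_min (by linarith) (by linarith)
          refine ⟨⟨?_, ?_⟩, hOK (hball ?_)⟩
          · linarith [min_le_right (ε / 2) α]
          · linarith [hαT.1.2]
          · rw [Metric.mem_ball, Real.dist_eq, sub_sub_cancel_left, abs_neg, abs_of_nonneg hpos]
            linarith [min_le_left (ε / 2) α]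
        have := hlo _ hmem
        have hpos : 0 < min (ε / 2) α := lt_min (by linarith) (by linarith)
        linarith
    have e2 : ∫ s in T, D s = ∫ s in α..β, D s := by
      rw [hTI, intervalIntegral.integral_of_le hαβ, integral_Icc_eq_integral_Ioc]
    have e3 : φ β - φ α = ∫ s in α..β, φ' s := by
      rw [intervalIntegral.integral_eq_sub_of_hasDerivAt (fun s _ => hφ s)
        (hφ'.intervalIntegrable _ _)]
    have e4 : ‖(∫ s in α..β, φ' s) - ∫ s in α..β, D s‖ ≤ c * (β - α) := by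
      rw [← intervalIntegral.integral_sub (hφ'.intervalIntegrable _ _)
        (hD.intervalIntegrable _ _)]
      have := intervalIntegral.norm_integral_le_of_norm_le_const (a := α) (b := β)
        (f := fun s => φ' s - D s) (C := c) (fun s _ => hcD s)
      rwa [abs_of_nonneg (by linarith)] at this
    have hvol : (volume T).toReal = β - α := by
      rw [hTI, Real.volume_Icc, ENNReal.toReal_ofReal (by linarith)]
    rw [e2, hvol]
    have : K.indicator φ ℓ - K.indicator φ 0 - ∫ s in α..β, D s =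
        (K.indicator φ ℓ - φ β) - (K.indicator φ 0 - φ α) +
          ((∫ s in α..β, φ' s) - ∫ s in α..β, D s) := by
      rw [← e3]; ring
    rw [this]
    refine (norm_add_le _ _).trans ?_
    refine (add_le_add_left (norm_sub_le _ _) _).trans ?_
    linarith

theorem gap_part {ι : Type} (I : Finset ι) (K : ι → Set ℝ) (hK : ∀ i, IsClosed (K i))
    (ℓ : ℝ) (hℓ : 0 ≤ ℓ) (G : Set ℝ) (hG : ∀ s ∈ Icc (0 : ℝ) ℓ, s ∈ G ↔ ∀ i ∈ I, s ∉ K i)
    (hgen : ∀ᵐ s : ℝ, s ∈ Icc (0 : ℝ) ℓ → ∀ i ∈ I, ∀ j ∈ I, s ∈ K i → s ∈ K j → i = j)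
    (D : ℝ → ℂ) (hD : Continuous D) (C : ℝ) (hC : ∀ s, ‖D s‖ ≤ C) :
    ‖∑ i ∈ I, (∫ s in (0 : ℝ)..ℓ, (K i).indicator D s) - ∫ s in (0 : ℝ)..ℓ, D s‖ ≤
      C * (volume {s : ℝ | s ∈ Icc (0 : ℝ) ℓ ∧ s ∈ G}).toReal := by
  classical
  set T : Set ℝ := Icc (0 : ℝ) ℓ ∩ {s | ∀ i ∈ I, s ∉ K i} with hT
  have hTG : {s : ℝ | s ∈ Icc (0 : ℝ) ℓ ∧ s ∈ G} = T := by
    ext s
    constructor
    · rintro ⟨h1, h2⟩; exact ⟨h1, (hG s h1).1 h2⟩
    · rintro ⟨h1, h2⟩; exact ⟨h1, (hG s h1).2 h2⟩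
  have hNm : MeasurableSet {s : ℝ | ∀ i ∈ I, s ∉ K i} := by
    have : {s : ℝ | ∀ i ∈ I, s ∉ K i} = (⋃ i ∈ I, K i)ᶜ := by
      ext s; simp
    rw [this]
    exact (I.measurableSet_biUnion fun i _ => (hK i).measurableSet).compl
  have hTm : MeasurableSet T := measurableSet_Icc.inter hNm
  rw [hTG]
  have hDi : ∀ i, IntervalIntegrable ((K i).indicator D) volume 0 ℓ := by
    intro i
    have := (hD.intervalIntegrable (0 : ℝ) ℓ (μ := volume))
    exact ⟨this.1.indicator (hK i).measurableSet, this.2.indicator (hK i).measurableSet⟩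
  rw [← intervalIntegral.integral_finsetSum (fun i _ => hDi i),
    ← intervalIntegral.integral_sub (by
      have := IntervalIntegrable.sum I (fun i _ => hDi i)
      have h2 : (fun x => ∑ i ∈ I, (K i).indicator D x) = ∑ i ∈ I, (K i).indicator D := by
        ext x; rw [Finset.sum_apply]
      rw [h2]; exact this) (hD.intervalIntegrable _ _)]
  have hae : ∫ s in (0 : ℝ)..ℓ, (∑ i ∈ I, (K i).indicator D s - D s) =
      ∫ s in Icc (0 : ℝ) ℓ, - {s | ∀ i ∈ I, s ∉ K i}.indicator D s := by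
    rw [intervalIntegral.integral_of_le hℓ, ← integral_Icc_eq_integral_Ioc]
    apply setIntegral_congr_ae measurableSet_Icc
    filter_upwards [hgen] with s hs hsI
    by_cases h : ∃ i ∈ I, s ∈ K i
    · obtain ⟨i, hi, hiK⟩ := h
      rw [Finset.sum_eq_single i, indicator_of_mem hiK, sub_self, indicator_of_notMem, neg_zero]
      · intro h'; exact h' i hi hiK
      · intro j hj hji
        refine indicator_of_notMem (fun hjK => hji ?_) _
        exact hs hsI j hj i hi hjK hiK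
      · intro h'; exact absurd hi h'
    · push Not at h
      rw [Finset.sum_eq_zero (fun i hi => indicator_of_notMem (h i hi) _), zero_sub,
        indicator_of_mem (show s ∈ {s | ∀ i ∈ I, s ∉ K i} from h)]
  rw [hae, integral_neg, norm_neg, setIntegral_indicator hNm]
  have hfin : volume T < ⊤ := by
    refine lt_of_le_of_lt (measure_mono inter_subset_left) ?_
    rw [Real.volume_Icc]; exact ENNReal.ofReal_lt_top
  have := norm_setIntegral_le_of_norm_le_const (μ := volume) (s := T) (f := D) (C := C) hfin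
    (fun s _ => hC s)
  exact this

end H282R4.PK.LineAux
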