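import Pool.Agent.H282R4.PK.Defs
import Pool.Agent.H282R3.SQ.Iso
import Pool.Agent.H282R3.SQ.Area
import Pool.Agent.H282R3.SQ.Contact
import Pool.Agent.H282R4.PK.Final

/-! Final module: packings of a square by isometric copies of the unit square. -/

namespace H282R4.PK

open MeasureTheory
open H282R3.SQ (USq Plane square IsUnitSquare)

/-- `m` closed unit squares with pairwise disjoint interiors fit in the closed square `[0,w]²`. -/
def CanPack (w : ℝ) (m : ℕ) : Prop :=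
  ∃ A : Fin m → Set Plane, (∀ i, IsUnitSquare (A i)) ∧ (∀ i, A i ⊆ square w) ∧
    ∀ i j, i ≠ j → Disjoint (interior (A i)) (interior (A j))

/-- `N(w)`: the largest number of unit squares with pairwise disjoint interiors in a square of
side `w`. -/
noncomputable def packNum (w : ℝ) : ℕ := sSup {m | CanPack w m}

/-- the wasted area `w² - N(w)` -/
noncomputable def Waste (w : ℝ) : ℝ := w ^ 2 - packNum w

theorem volume_O (Q : USq) : volume Q.O = 1 := by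
  set L := H282R3.SQ.linM Q.a Q.b (-Q.b) Q.a with hL
  have hdet : LinearMap.det L = 1 := by
    rw [hL, H282R3.SQ.linM_det]; linarith [Q.unit]
  set v : ℝ × ℝ := L (Q.p, Q.q) with hv
  have hC : Q.O = L ⁻¹' ((fun w => w - v) ⁻¹' (Set.Ioo (-(1 / 2) : ℝ) (1 / 2) ×ˢ
      Set.Ioo (-(1 / 2) : ℝ) (1 / 2))) := by
    ext z
    simp only [USq.O, Set.mem_ofPred_eq, Set.mem_preimage, Set.mem_prod, Set.mem_Ioo, USq.X, USq.Y,
      hv, hL, H282R3.SQ.linM_apply, Prod.fst_sub, Prod.snd_sub, abs_lt]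
    constructor
    · rintro ⟨⟨h1, h2⟩, h3, h4⟩
      refine ⟨⟨?_, ?_⟩, ?_, ?_⟩ <;> linarith
    · rintro ⟨⟨h1, h2⟩, h3, h4⟩
      refine ⟨⟨?_, ?_⟩, ?_, ?_⟩ <;> linarith
  rw [hC, Measure.addHaar_preimage_linearMap volume (by rw [hdet]; exact one_ne_zero), hdet]
  have : (fun w : ℝ × ℝ => w - v) ⁻¹' (Set.Ioo (-(1 / 2) : ℝ) (1 / 2) ×ˢ
      Set.Ioo (-(1 / 2) : ℝ) (1 / 2)) = (fun w : ℝ × ℝ => w + (-v)) ⁻¹'
      (Set.Ioo (-(1 / 2) : ℝ) (1 / 2) ×ˢ Set.Ioo (-(1 / 2) : ℝ) (1 / 2)) := by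
    ext w; simp [sub_eq_add_neg]
  rw [this, measure_preimage_add_right, Measure.volume_eq_prod, Measure.prod_prod,
    Real.volume_Ioo]
  norm_num

theorem pack_USq {w : ℝ} {m : ℕ} (h : CanPack w m) :
    ∃ Q0 : Fin m → USq, (∀ i, (Q0 i).C ⊆ {z | 0 ≤ z.1 ∧ z.1 ≤ w ∧ 0 ≤ z.2 ∧ z.2 ≤ w}) ∧
      ∀ i j, i ≠ j → Disjoint (Q0 i).O (Q0 j).O := by
  obtain ⟨A, hA, hin, hd⟩ := h
  choose Q hQ using fun i => H282R3.SQ.exists_USq (A i) (hA i)
  refine ⟨Q, ?_, ?_⟩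
  · intro i z hz
    have h1 : (!₂[z.1, z.2] : Plane) ∈ A i := by
      rw [hQ i]; simpa using hz
    have h2 := hin i h1
    have h3 := h2 0
    have h4 := h2 1
    simp only [PiLp.toLp_apply, Matrix.cons_val_zero, Matrix.cons_val_one] at h3 h4
    exact ⟨h3.1, h3.2, h4.1, h4.2⟩
  · intro i j hij
    rw [Set.disjoint_left]
    intro z hzi hzj
    have key : ∀ k, z ∈ (Q k).O → (!₂[z.1, z.2] : Plane) ∈ interior (A k) := by
      intro k hk
      rw [mem_interior]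
      refine ⟨(fun y : Plane => (y 0, y 1)) ⁻¹' (Q k).O, ?_, ?_, ?_⟩
      · intro y hy
        rw [hQ k]
        exact H282R3.SQ.O_subset_C _ hy
      · exact (H282R3.SQ.isOpen_O (Q k)).preimage (by fun_prop)
      · simpa using hk
    exact Set.disjoint_left.1 (hd i j hij) (key i hzi) (key j hzj)

/-- area bound -/
theorem pack_le {w : ℝ} (hw : 0 ≤ w) {m : ℕ} (h : CanPack w m) : (m : ℝ) ≤ w ^ 2 := by
  obtain ⟨Q, hin, hd⟩ := pack_USq h
  have h1 : volume (⋃ i, (Q i).O) = m := by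
    rw [measure_iUnion (fun i j hij => hd i j hij)
      (fun i => (H282R3.SQ.isOpen_O (Q i)).measurableSet)]
    simp [volume_O]
  have h2 : (⋃ i, (Q i).O) ⊆ Set.Icc (0 : ℝ) w ×ˢ Set.Icc (0 : ℝ) w := by
    intro z hz
    obtain ⟨i, hi⟩ := Set.mem_iUnion.1 hz
    have := hin i (H282R3.SQ.O_subset_C _ hi)
    exact ⟨⟨this.1, this.2.1⟩, this.2.2.1, this.2.2.2⟩
  have h3 := measure_mono (μ := volume) h2
  rw [h1, Measure.volume_eq_prod, Measure.prod_prod, Real.volume_Icc, sub_zero,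
    ← ENNReal.ofReal_mul hw, ← ENNReal.ofReal_natCast] at h3
  have h4 := (ENNReal.ofReal_le_ofReal_iff (by positivity)).1 h3
  nlinarith

theorem canPack_zero (w : ℝ) : CanPack w 0 :=
  ⟨fun i => i.elim0, fun i => i.elim0, fun i => i.elim0, fun i => i.elim0⟩

theorem packNum_isGreatest {w : ℝ} (hw : 0 ≤ w) : IsGreatest {m | CanPack w m} (packNum w) := by
  have hb : BddAbove {m | CanPack w m} := by
    refine ⟨⌈w ^ 2⌉₊, fun m hm => ?_⟩
    have := pack_le hw hm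
    exact_mod_cast this.trans (Nat.le_ceil _)
  exact ⟨Nat.sSup_mem ⟨0, canPack_zero w⟩ hb, fun m hm => le_csSup hb hm⟩

/-- `W(n+1/2) ≥ δ (n+1/2)^(3/5)` -/
theorem waste_ge : ∃ δ : ℝ, 0 < δ ∧ ∀ n : ℕ, 1 ≤ n →
    δ * ((n : ℝ) + 1 / 2) ^ ((3 : ℝ) / 5) ≤ Waste ((n : ℝ) + 1 / 2) := by
  obtain ⟨δ, hδ, hmain⟩ := waste_lower
  refine ⟨δ, hδ, fun n hn => ?_⟩
  obtain ⟨Q, hin, hd⟩ := pack_USq (packNum_isGreatest (w := (n : ℝ) + 1 / 2) (by positivity)).1
  exact hmain n _ Q hn hin hd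

end H282R4.PK
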